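import Pool.Agent.Lib.MP_77f37b_al.Span

/-! Generating function bound for the number of Lyndon monomials with many factors. -/

namespace MP77
open Finset

lemma geom_le {s : ℝ} (h0 : 0 ≤ s) (h1 : s < 1) (M : ℕ) : ∑ i ∈ range M, s ^ i ≤ (1 - s)⁻¹ := by
  have h := Summable.sum_le_tsum (range M) (fun i _ => pow_nonneg h0 i)
    (summable_geometric_of_lt_one h0 h1)
  rwa [tsum_geometric_of_lt_one h0 h1] at h

lemma geom_tail {t : ℝ} (h0 : 0 ≤ t) (h1 : t < 1) (a M : ℕ) :
    ∑ n ∈ range M, (if a ≤ n then t ^ n else 0) ≤ t ^ a * (1 - t)⁻¹ := by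
  have key : ∀ M, ∑ n ∈ range M, (if a ≤ n then t ^ n else 0) =
      t ^ a * ∑ i ∈ range (M - a), t ^ i := by
    intro M
    induction M with
    | zero => simp
    | succ M ih =>
      rw [sum_range_succ, ih]
      by_cases h : a ≤ M
      · rw [if_pos h, Nat.succ_sub h, sum_range_succ, mul_add, ← pow_add]
        congr 2; omega
      · rw [if_neg h]
        have : M + 1 - a = M - a := by omega
        rw [this, add_zero]
  rw [key]
  exact mul_le_mul_of_nonneg_left (geom_le h0 h1 _) (pow_nonneg h0 a)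

lemma inv_le_exp {s : ℝ} (h1 : s < 1) : (1 - s)⁻¹ ≤ Real.exp (s / (1 - s)) := by
  have h : (1 - s) ≠ 0 := by linarith
  have : (1 - s)⁻¹ = s / (1 - s) + 1 := by field_simp; ring
  rw [this]
  exact Real.add_one_le_exp _

lemma count_bound (N h : ℕ) {t u : ℝ} (ht0 : 0 < t) (ht1 : t < 1) (hu : 1 ≤ u) (hut : u * t < 1) :
    ∑ n ∈ range (N + 1), ((G N h n).card : ℝ) * t ^ n ≤
      (u ^ h)⁻¹ * (1 - t)⁻¹ * Real.exp (∑ k ∈ range N,
        (2 ^ (k + 1) / (k + 1 : ℝ)) * (u * t ^ (k + 1) / (1 - u * t ^ (k + 1)))) := by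
  classical
  set F := Fintype.piFinset fun _ : Lam N => range (N + 1) with hF
  have hu0 : 0 < u := by linarith
  have hs : ∀ k, 0 < k → u * t ^ k < 1 := by
    intro k hk
    have : t ^ k ≤ t := by
      obtain ⟨k, rfl⟩ := Nat.exists_eq_succ_of_ne_zero hk.ne'
      rw [pow_succ]
      have := pow_le_one₀ (n := k) ht0.le ht1.le
      nlinarith
    nlinarith
  have h1 : ∑ n ∈ range (N + 1), ((G N h n).card : ℝ) * t ^ n =
      ∑ f ∈ F, ∑ n ∈ range (N + 1), if h ≤ ∑ l, f l ∧ wt f ≤ n then t ^ n else 0 := by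
    rw [Finset.sum_comm]
    refine Finset.sum_congr rfl fun n _ => ?_
    rw [← Finset.sum_filter, Finset.sum_const, nsmul_eq_mul, G]
  have h2 : ∀ f ∈ F, (∑ n ∈ range (N + 1), if h ≤ ∑ l, f l ∧ wt f ≤ n then t ^ n else 0) ≤
      (u ^ h)⁻¹ * (1 - t)⁻¹ * ∏ l : Lam N, (u * t ^ l.1.length) ^ f l := by
    intro f _
    have hp : ∏ l : Lam N, (u * t ^ l.1.length) ^ f l = u ^ (∑ l, f l) * t ^ wt f := by
      simp only [mul_pow, prod_mul_distrib, ← pow_mul, wt, Finset.prod_pow_eq_pow_sum]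
      congr 2
      exact Finset.sum_congr rfl fun l _ => mul_comm _ _
    rw [hp]
    have h1t : 0 < (1 - t)⁻¹ := inv_pos.2 (by linarith)
    by_cases hh : h ≤ ∑ l, f l
    · simp only [hh, true_and]
      refine (geom_tail ht0.le ht1 _ _).trans ?_
      have h3 : u ^ h ≤ u ^ (∑ l, f l) := pow_le_pow_right₀ hu hh
      have h4 : 1 ≤ (u ^ h)⁻¹ * u ^ (∑ l, f l) := by
        rw [inv_mul_eq_div, one_le_div (by positivity)]; exact h3
      have h5 : 0 ≤ t ^ wt f * (1 - t)⁻¹ := by positivity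
      nlinarith
    · simp only [hh, false_and, if_false, sum_const_zero]
      positivity
  rw [h1]
  refine (Finset.sum_le_sum h2).trans ?_
  rw [← Finset.mul_sum]
  have h1t : 0 < (1 - t)⁻¹ := inv_pos.2 (by linarith)
  refine mul_le_mul_of_nonneg_left ?_ (by positivity)
  rw [hF, ← Finset.prod_univ_sum (fun _ : Lam N => range (N + 1))
    (fun l i => (u * t ^ l.1.length) ^ i)]
  have h3 : ∏ l : Lam N, ∑ i ∈ range (N + 1), (u * t ^ l.1.length) ^ i ≤
      ∏ l : Lam N, Real.exp (u * t ^ l.1.length / (1 - u * t ^ l.1.length)) := by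
    apply Finset.prod_le_prod
    · intro l _; positivity
    · intro l _
      have hl : 0 < l.1.length := List.length_pos_iff.2 (mem_Lam.1 l.2).2.1
      exact (geom_le (by positivity) (hs _ hl) _).trans (inv_le_exp (hs _ hl))
  refine h3.trans ?_
  rw [← Real.exp_sum, Real.exp_le_exp]
  rw [Finset.sum_coe_sort (Lam N) (fun l => u * t ^ l.length / (1 - u * t ^ l.length))]
  rw [Lam, Finset.sum_biUnion]
  · rw [Finset.sum_range_succ']
    have h0 : LW 0 = ∅ := by
      apply Finset.eq_empty_of_forall_notMem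
      intro m hm
      obtain ⟨h1, h2⟩ := mem_LW.1 hm
      exact h2.1 (List.length_eq_zero_iff.1 h1)
    rw [h0, sum_empty, add_zero]
    refine Finset.sum_le_sum fun k _ => ?_
    rw [Finset.sum_congr rfl (g := fun _ => u * t ^ (k + 1) / (1 - u * t ^ (k + 1)))
      (fun l hl => by rw [(mem_LW.1 hl).1]), sum_const, nsmul_eq_mul]
    have h4 := hs (k + 1) (by omega)
    refine mul_le_mul_of_nonneg_right ?_ (div_nonneg (by positivity) (by linarith))
    rw [le_div_iff₀ (by positivity)]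
    exact_mod_cast card_LW (k + 1)
  · intro i _ j _ hij
    rw [Function.onFun, Finset.disjoint_left]
    intro m hi hj
    exact hij ((mem_LW.1 hi).1.symm.trans (mem_LW.1 hj).1)

lemma count_num (N h : ℕ) (hN : 2 ≤ N) :
    ∑ n ∈ range (N + 1), ((G N h n).card : ℝ) * ((2 - 1 / (10 * N : ℝ))⁻¹) ^ n ≤
      ((19 / 10 : ℝ) ^ h)⁻¹ * 3 * (Real.exp 202 * N ^ 2) := by
  have hN' : (2 : ℝ) ≤ N := by exact_mod_cast hN
  set t : ℝ := (2 - 1 / (10 * N : ℝ))⁻¹ with ht
  have hd0 : 0 < 1 / (10 * N : ℝ) := by positivity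
  have hd1 : 1 / (10 * N : ℝ) ≤ 1 / 20 := by
    apply one_div_le_one_div_of_le <;> linarith
  have ht0 : 0 < t := inv_pos.2 (by linarith)
  have ht1 : t ≤ 20 / 39 := by
    rw [ht, inv_le_comm₀ (by linarith) (by norm_num)]; linarith
  have ht2 : 1 / 2 ≤ t := by
    rw [ht, le_inv_comm₀ (by norm_num) (by linarith)]; linarith
  have h2t : (2 * t) ^ N ≤ 20 / 19 := by
    have e1 : 2 * t = (1 + (-(1 / (20 * N : ℝ))))⁻¹ := by
      rw [ht]; field_simp; ring
    have e2 := one_add_mul_le_pow (a := -(1 / (20 * N : ℝ))) (by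
      have : 1 / (20 * N : ℝ) ≤ 1 := by rw [div_le_one (by positivity)]; linarith
      linarith) N
    have e3 : 1 + (N : ℝ) * -(1 / (20 * N : ℝ)) = 19 / 20 := by field_simp; ring
    rw [e3] at e2
    rw [e1, inv_pow, inv_le_comm₀ (by linarith) (by norm_num)]
    linarith
  refine (count_bound N h (u := 19 / 10) ht0 (by linarith) (by norm_num) (by linarith)).trans ?_
  have h1t : (1 - t)⁻¹ ≤ 3 := by
    rw [inv_le_comm₀ (by linarith) (by norm_num)]; linarith
  have hterm : ∀ k ∈ range N, (2 ^ (k + 1) / (k + 1 : ℝ)) *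
      (19 / 10 * t ^ (k + 1) / (1 - 19 / 10 * t ^ (k + 1))) ≤
      2 * ((k + 1 : ℝ))⁻¹ + 80 * (3 / 5 : ℝ) ^ k := by
    intro k hk
    have hk' := mem_range.1 hk
    set s := 19 / 10 * t ^ (k + 1) with hs
    have hs0 : 0 < s := by positivity
    have hs1 : s ≤ 38 / 39 := by
      have : t ^ (k + 1) ≤ t := by
        rw [pow_succ]
        have := pow_le_one₀ (n := k) ht0.le (by linarith)
        nlinarith
      linarith
    have e1 : s / (1 - s) ≤ s + 39 * s ^ 2 := by
      rw [div_le_iff₀ (by linarith)]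
      have : 0 ≤ s ^ 2 * (38 - 39 * s) := mul_nonneg (by positivity) (by linarith)
      nlinarith
    have e2 : (2 : ℝ) ^ (k + 1) * s ≤ 2 := by
      have : (2 * t) ^ (k + 1) ≤ (2 * t) ^ N := pow_le_pow_right₀ (by linarith) (by omega)
      rw [mul_pow] at this
      rw [hs]; nlinarith
    have e3 : (2 : ℝ) ^ (k + 1) * (39 * s ^ 2) ≤ 80 * (3 / 5 : ℝ) ^ k := by
      have a1 : s ≤ 38 / 39 * (3 / 5 : ℝ) ^ k := by
        have : t ^ k ≤ (3 / 5 : ℝ) ^ k := pow_le_pow_left₀ ht0.le (by linarith) k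
        have b1 : 0 ≤ t ^ k := by positivity
        rw [hs, pow_succ]
        nlinarith
      have a2 : 0 ≤ (3 / 5 : ℝ) ^ k := by positivity
      calc (2 : ℝ) ^ (k + 1) * (39 * s ^ 2) = (2 ^ (k + 1) * s) * (39 * s) := by ring
        _ ≤ 2 * (39 * s) := mul_le_mul_of_nonneg_right e2 (by positivity)
        _ ≤ _ := by nlinarith
    have hk1 : (1 : ℝ) ≤ k + 1 := by have : (0 : ℝ) ≤ k := Nat.cast_nonneg k; linarith
    have hinv : ((k + 1 : ℝ))⁻¹ ≤ 1 := inv_le_one_of_one_le₀ hk1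
    have hinv0 : 0 ≤ ((k + 1 : ℝ))⁻¹ := by positivity
    calc (2 ^ (k + 1) / (k + 1 : ℝ)) * (s / (1 - s))
        ≤ (2 ^ (k + 1) / (k + 1 : ℝ)) * (s + 39 * s ^ 2) :=
          mul_le_mul_of_nonneg_left e1 (by positivity)
      _ = (2 ^ (k + 1) * s) * ((k + 1 : ℝ))⁻¹ +
            (2 ^ (k + 1) * (39 * s ^ 2)) * ((k + 1 : ℝ))⁻¹ := by ring
      _ ≤ 2 * ((k + 1 : ℝ))⁻¹ + (80 * (3 / 5 : ℝ) ^ k) * 1 :=
          add_le_add (mul_le_mul_of_nonneg_right e2 hinv0)
            (mul_le_mul e3 hinv hinv0 (by positivity))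
      _ = _ := by ring
  have hsum := Finset.sum_le_sum hterm
  rw [sum_add_distrib, ← mul_sum, ← mul_sum] at hsum
  have hh : ∑ k ∈ range N, ((k + 1 : ℝ))⁻¹ ≤ 1 + Real.log N := by
    have := harmonic_le_one_add_log N
    rw [harmonic] at this
    push_cast at this
    exact this
  have hg := geom_le (s := 3 / 5) (by norm_num) (by norm_num) N
  have hexp : Real.exp (∑ k ∈ range N, (2 ^ (k + 1) / (k + 1 : ℝ)) *
      (19 / 10 * t ^ (k + 1) / (1 - 19 / 10 * t ^ (k + 1)))) ≤ Real.exp 202 * N ^ 2 := by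
    have e : (N : ℝ) ^ 2 = Real.exp (2 * Real.log N) := by
      rw [show (2 : ℝ) * Real.log N = Real.log N + Real.log N by ring, Real.exp_add,
        Real.exp_log (by linarith)]; ring
    rw [e, ← Real.exp_add, Real.exp_le_exp]
    norm_num at hg
    linarith
  refine mul_le_mul (mul_le_mul_of_nonneg_left h1t (by positivity)) hexp (by positivity)
    (by positivity)

end MP77
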