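import Pool.Agent.Lib.MP_77f37b_al.Span

/-! Golod-Shafarevich inequality, in dual form. -/

namespace MP77
open Finset Module

variable {K : Type} [Field K] (r : ℕ → ℕ) (ρ : ℕ → ℕ → List Bool → K)

/-- homogeneous functionals of degree `N` killing the ideal -/
def B (N : ℕ) : Submodule K (List Bool → K) where
  carrier := {φ | (∀ m, m.length ≠ N → φ m = 0) ∧ ∀ n i u v, i < r (n + 1) →
    ∑ m ∈ W (n + 1), ρ (n + 1) i m * φ (u ++ m ++ v) = 0}
  add_mem' := by
    intro a b ha hb
    refine ⟨fun m hm => by simp [ha.1 m hm, hb.1 m hm], fun n i u v hi => ?_⟩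
    simp only [Pi.add_apply, mul_add, sum_add_distrib, ha.2 n i u v hi, hb.2 n i u v hi, add_zero]
  zero_mem' := ⟨fun _ _ => rfl, fun n i u v _ => by simp⟩
  smul_mem' := by
    intro c a ha
    refine ⟨fun m hm => by simp [ha.1 m hm], fun n i u v hi => ?_⟩
    have := ha.2 n i u v hi
    simp only [Pi.smul_apply, smul_eq_mul, mul_left_comm _ c, ← mul_sum, this, mul_zero]

instance B_finite (N : ℕ) : Module.Finite K (B r ρ N) := by
  let f : B r ρ N →ₗ[K] (W N → K) :=
    { toFun := fun φ m => φ.1 m.1
      map_add' := fun _ _ => rfl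
      map_smul' := fun _ _ => rfl }
  refine Module.Finite.of_injective f ?_
  intro a b h
  ext m
  by_cases hm : m.length = N
  · exact congrFun h ⟨m, (mem_W _ _).2 hm⟩
  · rw [a.2.1 m hm, b.2.1 m hm]

/-- gluing two functionals along the first letter -/
def J (N : ℕ) : (B r ρ N × B r ρ N) →ₗ[K] (List Bool → K) where
  toFun φ m := match m with
    | [] => 0
    | true :: m => φ.1.1 m
    | false :: m => φ.2.1 m
  map_add' a b := by
    funext m
    rcases m with _ | ⟨_ | _, m⟩ <;> simp
  map_smul' c a := by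
    funext m
    rcases m with _ | ⟨_ | _, m⟩ <;> simp

lemma J_inj (N : ℕ) : Function.Injective (J r ρ N) := by
  intro a b h
  ext m
  · exact congrFun h (true :: m)
  · exact congrFun h (false :: m)

lemma J_len (N : ℕ) (φ : B r ρ N × B r ρ N) (m : List Bool) (h : m.length ≠ N + 1) :
    J r ρ N φ m = 0 := by
  rcases m with _ | ⟨_ | _, m⟩
  · rfl
  · exact φ.2.2.1 m (by simpa using h)
  · exact φ.1.2.1 m (by simpa using h)

lemma J_rel (N : ℕ) (φ : B r ρ N × B r ρ N) (n i : ℕ) (u v : List Bool) (hu : u ≠ [])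
    (hi : i < r (n + 1)) : ∑ m ∈ W (n + 1), ρ (n + 1) i m * J r ρ N φ (u ++ m ++ v) = 0 := by
  rcases u with _ | ⟨_ | _, u⟩
  · exact absurd rfl hu
  · exact φ.2.2.2 n i u v hi
  · exact φ.1.2.2 n i u v hi

/-- the obstruction map -/
def Psi (N : ℕ) : (B r ρ N × B r ρ N) →ₗ[K]
    ((n : Fin (N + 1)) → Fin (r (n + 1)) → B r ρ (N - n)) where
  toFun φ n i := ⟨fun v => ∑ m ∈ W (n + 1), ρ (n + 1) i m * J r ρ N φ (m ++ v), by
    refine ⟨fun v hv => Finset.sum_eq_zero fun m hm => ?_, fun n' i' u v hi' => ?_⟩
    · rw [J_len, mul_zero]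
      have := (mem_W _ _).1 hm
      have := n.2
      simp; omega
    · simp only [mul_sum]
      rw [Finset.sum_comm]
      refine Finset.sum_eq_zero fun m hm => ?_
      have h1 := J_rel r ρ N φ n' i' (m ++ u) v (by
        have := (mem_W _ _).1 hm
        intro h0
        have := congrArg List.length h0
        simp only [List.length_append, List.length_nil] at this; omega) hi'
      simp only [mul_left_comm _ (ρ (n + 1) i m), ← mul_sum]
      simp only [List.append_assoc] at h1 ⊢
      rw [h1, mul_zero]⟩
  map_add' a b := by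
    ext n i v
    simp [mul_add, sum_add_distrib]
  map_smul' c a := by
    ext n i v
    simp [mul_left_comm _ c, mul_sum]

lemma B_rec (N : ℕ) : 2 * finrank K (B r ρ N) ≤
    finrank K (B r ρ (N + 1)) + ∑ n ∈ range (N + 1), r (n + 1) * finrank K (B r ρ (N - n)) := by
  have h1 := LinearMap.finrank_range_add_finrank_ker (Psi r ρ N)
  rw [Module.finrank_prod] at h1
  have h2 : finrank K (LinearMap.range (Psi r ρ N)) ≤
      ∑ n ∈ range (N + 1), r (n + 1) * finrank K (B r ρ (N - n)) := by
    refine (Submodule.finrank_le _).trans ?_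
    rw [Module.finrank_pi_fintype, Finset.sum_range]
    refine le_of_eq (Finset.sum_congr rfl fun n _ => ?_)
    rw [Module.finrank_pi_fintype]
    simp
  have h3 : finrank K (LinearMap.ker (Psi r ρ N)) ≤ finrank K (B r ρ (N + 1)) := by
    have hm : ∀ φ : LinearMap.ker (Psi r ρ N), J r ρ N φ.1 ∈ B r ρ (N + 1) := by
      intro φ
      refine ⟨J_len r ρ N φ.1, fun n i u v hi => ?_⟩
      by_cases hu : u = []
      · subst hu
        by_cases hn : n < N + 1
        · have := congrFun (congrArg Subtype.val
            (congrFun (congrFun (LinearMap.mem_ker.1 φ.2) ⟨n, hn⟩) ⟨i, hi⟩)) v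
          exact this
        · refine Finset.sum_eq_zero fun m hm => ?_
          rw [J_len, mul_zero]
          have := (mem_W _ _).1 hm
          simp; omega
      · exact J_rel r ρ N φ.1 n i u v hu hi
    let f : LinearMap.ker (Psi r ρ N) →ₗ[K] B r ρ (N + 1) :=
      LinearMap.codRestrict _ ((J r ρ N).comp (Submodule.subtype _)) hm
    refine LinearMap.finrank_le_finrank_of_injective (f := f) ?_
    intro a b h
    exact Subtype.ext (J_inj r ρ N (congrArg Subtype.val h))
  omega

lemma B_zero : 0 < finrank K (B r ρ 0) := by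
  rw [Module.finrank_pos_iff_exists_ne_zero]
  classical
  refine ⟨⟨fun m => if m = [] then 1 else 0, fun m hm => ?_, fun n i u v _ => ?_⟩, ?_⟩
  · beta_reduce
    rw [if_neg]; rintro rfl; simp at hm
  · refine Finset.sum_eq_zero fun m hm => ?_
    have := (mem_W _ _).1 hm
    beta_reduce
    rw [if_neg, mul_zero]
    intro h0
    have := congrArg List.length h0
    simp only [List.length_append, List.length_nil] at this; omega
  · intro h
    have := congrFun (congrArg Subtype.val h) []
    simp at this

lemma GS (N₀ : ℕ) {β : ℝ} (hβ : 0 < β)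
    (h : ∑ n ∈ range N₀, (r (n + 1) : ℝ) * β⁻¹ ^ n ≤ 2 - β) :
    ∃ φ ∈ B r ρ N₀, φ ≠ 0 := by
  set b : ℕ → ℝ := fun N => finrank K (B r ρ N) with hb
  have step : ∀ N, N < N₀ → β * b N ≤ b (N + 1) := by
    intro N
    induction N using Nat.strong_induction_on with
    | _ N ih =>
    intro hN
    have back : ∀ j, j ≤ N → b (N - j) ≤ β⁻¹ ^ j * b N := by
      intro j
      induction j with
      | zero => simp
      | succ j ihj =>
        intro hj
        have h1 := ih (N - (j + 1)) (by omega) (by omega)
        have e : N - (j + 1) + 1 = N - j := by omega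
        rw [e] at h1
        have h2 := ihj (by omega)
        have h3 : b (N - (j + 1)) ≤ β⁻¹ * b (N - j) := by
          rw [inv_mul_eq_div, le_div_iff₀ hβ]; linarith
        refine h3.trans ?_
        rw [pow_succ', mul_assoc]
        exact mul_le_mul_of_nonneg_left h2 (by positivity)
    have h1 : 2 * b N ≤ b (N + 1) + ∑ n ∈ range (N + 1), (r (n + 1) : ℝ) * b (N - n) := by
      simp only [hb]
      exact_mod_cast B_rec r ρ N
    have h2 : ∑ n ∈ range (N + 1), (r (n + 1) : ℝ) * b (N - n) ≤
        (∑ n ∈ range N₀, (r (n + 1) : ℝ) * β⁻¹ ^ n) * b N := by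
      rw [sum_mul]
      refine le_trans (Finset.sum_le_sum fun n hn => ?_)
        (Finset.sum_le_sum_of_subset_of_nonneg (Finset.range_mono (by omega : N + 1 ≤ N₀)) ?_)
      · rw [mul_assoc]
        exact mul_le_mul_of_nonneg_left (back n (by have := mem_range.1 hn; omega)) (by positivity)
      · intro n _ _
        simp only [hb]; positivity
    have h3 : 0 ≤ b N := by simp only [hb]; positivity
    nlinarith
  have pos : ∀ N, N ≤ N₀ → 0 < b N := by
    intro N
    induction N with
    | zero => intro _; simp only [hb]; exact_mod_cast B_zero r ρ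
    | succ N ih =>
      intro hN
      exact lt_of_lt_of_le (mul_pos hβ (ih (by omega))) (step N (by omega))
  have h1 : 0 < finrank K (B r ρ N₀) := by
    have := pos N₀ le_rfl
    simp only [hb] at this
    exact_mod_cast this
  obtain ⟨φ, hφ⟩ := Module.finrank_pos_iff_exists_ne_zero.1 h1
  exact ⟨φ.1, φ.2, fun h0 => hφ (Subtype.ext h0)⟩

end MP77
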