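import Mathlib

/-! From an action on a finite elementary abelian `p`-group to a transitive action of degree
prime to `p`. -/

namespace MP77

lemma card_le_pow_aux {p : ℕ} [hp : Fact p.Prime] {M ι : Type} [AddCommGroup M] [Finite M]
    [Finite ι] [Module (ZMod p) M] (v : ι → M)
    (h1 : AddSubgroup.closure (Set.range v) = ⊤) : Nat.card M ≤ p ^ Nat.card ι := by
  have : Module.Finite (ZMod p) M := Module.Finite.of_finite
  have h2 : Submodule.span (ZMod p) (Set.range v) = ⊤ := by
    rw [eq_top_iff]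
    intro x _
    have h3 : AddSubgroup.closure (Set.range v) ≤
        (Submodule.span (ZMod p) (Set.range v)).toAddSubgroup :=
      (AddSubgroup.closure_le _).2 Submodule.subset_span
    exact h3 (h1 ▸ AddSubgroup.mem_top x)
  have := Fintype.ofFinite ι
  have h4 : Module.finrank (ZMod p) M ≤ Nat.card ι := by
    have h5 := finrank_range_le_card (R := ZMod p) v
    rw [Set.finrank, h2, finrank_top] at h5
    rwa [Nat.card_eq_fintype_card]
  rw [Module.natCard_eq_pow_finrank (K := ZMod p), Nat.card_zmod]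
  exact Nat.pow_le_pow_right hp.out.pos h4

lemma card_le_pow {p : ℕ} [hp : Fact p.Prime] {M ι : Type} [AddCommGroup M] [Finite M]
    [Finite ι] (hM : ∀ x : M, p • x = 0) (v : ι → M)
    (h1 : AddSubgroup.closure (Set.range v) = ⊤) : Nat.card M ≤ p ^ Nat.card ι :=
  @card_le_pow_aux p hp M ι _ _ _ (AddCommGroup.zmodModule hM) v h1

lemma perm_step {p : ℕ} [hp : Fact p.Prime] (G : Type) [Group G] (M : Type) [AddCommGroup M]
    [Finite M] [Nontrivial M] [DistribMulAction G M] (hM : ∀ x : M, p • x = 0)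
    (hs : ∀ S : AddSubgroup M, (∀ g : G, ∀ x ∈ S, g • x ∈ S) → S = ⊥ ∨ S = ⊤) :
    ∃ n : ℕ, ¬ p ∣ n ∧ Nat.card M ≤ p ^ n.factorial ∧ ∃ σ : G →* Equiv.Perm (Fin n),
      (∀ i j, ∃ g, σ g i = j) ∧ ∀ g, (∀ x : M, g • x = x) → σ g = 1 := by
  classical
  let H := (MulAction.toPermHom G M).range
  let P : Sylow p H := default
  let e : (H ⧸ (P : Subgroup H)) ≃ Fin (P : Subgroup H).index := Finite.equivFin _
  let θ := MulAction.toPermHom H (H ⧸ (P : Subgroup H))
  obtain ⟨x₀, hx₀⟩ := exists_ne (0 : M)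
  have hadd : ∀ (h : H) (x y : M), h.1 (x + y) = h.1 x + h.1 y := by
    rintro ⟨_, g, rfl⟩ x y
    simp [smul_add]
  have hzero : ∀ h : H, h.1 0 = 0 := by
    rintro ⟨_, g, rfl⟩
    simp
  have hneg : ∀ (h : H) (x : M), h.1 (-x) = -h.1 x := by
    rintro ⟨_, g, rfl⟩ x
    simp [smul_neg]
  have hdvd : p ∣ Nat.card M := by
    have h1 : addOrderOf x₀ = p := addOrderOf_eq_prime (hM x₀) hx₀
    rw [← h1]
    exact addOrderOf_dvd_natCard x₀
  have hker : θ.ker = ⊥ := by
    have h1 : θ.ker ≤ (P : Subgroup H) := by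
      rw [← Subgroup.normalCore_eq_ker]
      exact Subgroup.normalCore_le _
    have h2 : IsPGroup p θ.ker := P.isPGroup'.to_le h1
    obtain ⟨b, hb, hb0⟩ := h2.exists_fixed_point_of_prime_dvd_card_of_fixed_point M hdvd
      (a := 0) (fun k => hzero k.1)
    let S : AddSubgroup M :=
      { carrier := {x | ∀ k ∈ θ.ker, k.1 x = x}
        add_mem' := fun {a b} ha hb k hk => by rw [hadd, ha k hk, hb k hk]
        zero_mem' := fun k _ => hzero k
        neg_mem' := fun {a} ha k hk => by rw [hneg, ha k hk] }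
    have hS : S = ⊤ := by
      refine (hs S ?_).resolve_left ?_
      · intro g x hx k hk
        let γ : H := ⟨MulAction.toPermHom G M g, g, rfl⟩
        have h3 : γ⁻¹ * k * γ⁻¹⁻¹ ∈ θ.ker := (MonoidHom.normal_ker θ).conj_mem k hk γ⁻¹
        have h4 := hx _ h3
        have h5 : γ.1 ((γ⁻¹ * k * γ⁻¹⁻¹ : H).1 x) = k.1 (γ.1 x) := by simp
        rw [h4] at h5
        exact h5.symm
      · intro h0
        have : b ∈ S := fun k hk => hb ⟨k, hk⟩
        rw [h0] at this
        exact hb0 (AddSubgroup.mem_bot.1 this).symm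
    rw [eq_bot_iff]
    intro k hk
    rw [Subgroup.mem_bot]
    ext x
    have : x ∈ S := hS ▸ AddSubgroup.mem_top x
    exact this k hk
  have hcardH : Nat.card H ≤ (P : Subgroup H).index.factorial := by
    have h1 := Nat.card_le_card_of_injective θ ((MonoidHom.ker_eq_bot_iff θ).1 hker)
    rw [Nat.card_perm] at h1
    exact h1
  have hcardM : Nat.card M ≤ p ^ Nat.card H := by
    have h1 : AddSubgroup.closure (Set.range fun h : H => h.1 x₀) = ⊤ := by
      refine (hs _ ?_).resolve_left ?_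
      · intro g x hx
        induction hx using AddSubgroup.closure_induction with
        | mem x hx =>
          obtain ⟨h, rfl⟩ := hx
          exact AddSubgroup.subset_closure ⟨⟨MulAction.toPermHom G M g, g, rfl⟩ * h, rfl⟩
        | zero => simp
        | add x y _ _ hx hy => rw [smul_add]; exact add_mem hx hy
        | neg x _ hx => rw [smul_neg]; exact neg_mem hx
      · intro h0
        have : x₀ ∈ AddSubgroup.closure (Set.range fun h : H => h.1 x₀) :=
          AddSubgroup.subset_closure ⟨1, rfl⟩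
        rw [h0] at this
        exact hx₀ (AddSubgroup.mem_bot.1 this)
    exact card_le_pow hM _ h1
  refine ⟨(P : Subgroup H).index, P.not_dvd_index,
    hcardM.trans (Nat.pow_le_pow_right hp.out.pos hcardH),
    (e.permCongrHom.toMonoidHom.comp θ).comp (MulAction.toPermHom G M).rangeRestrict, ?_, ?_⟩
  · intro i j
    obtain ⟨h, hh⟩ := MulAction.exists_smul_eq H (e.symm i) (e.symm j)
    obtain ⟨g, rfl⟩ := (MulAction.toPermHom G M).rangeRestrict_surjective h
    refine ⟨g, ?_⟩
    simp [θ, Equiv.permCongrHom, hh]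
  · intro g hg
    have : (MulAction.toPermHom G M).rangeRestrict g = 1 := by
      ext x
      exact hg x
    rw [MonoidHom.comp_apply, this, map_one]

lemma perm_step' {p : ℕ} [hp : Fact p.Prime] (G : Type) [Group G] (M : Type) [AddCommGroup M]
    [Finite M] [Nontrivial M] [DistribMulAction G M] (hM : ∀ x : M, p • x = 0) :
    ∃ S : AddSubgroup M, S ≠ ⊥ ∧ (∀ g : G, ∀ x ∈ S, g • x ∈ S) ∧
    ∃ n : ℕ, ¬ p ∣ n ∧ Nat.card S ≤ p ^ n.factorial ∧ ∃ σ : G →* Equiv.Perm (Fin n),
      (∀ i j, ∃ g, σ g i = j) ∧ ∀ g, (∀ x : M, g • x = x) → σ g = 1 := by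
  obtain ⟨S, ⟨hS0, hS⟩, hmin⟩ := (wellFounded_lt (α := AddSubgroup M)).has_min
    {S | S ≠ ⊥ ∧ ∀ g : G, ∀ x ∈ S, g • x ∈ S} ⟨⊤, top_ne_bot, fun _ _ _ => trivial⟩
  let _ : DistribMulAction G S :=
    { smul := fun g x => ⟨g • x.1, hS g x.1 x.2⟩
      one_smul := fun x => Subtype.ext (one_smul G x.1)
      mul_smul := fun g h x => Subtype.ext (mul_smul g h x.1)
      smul_zero := fun g => Subtype.ext (smul_zero g)
      smul_add := fun g x y => Subtype.ext (smul_add g x.1 y.1) }
  have : Nontrivial S := (AddSubgroup.nontrivial_iff_ne_bot S).2 hS0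
  obtain ⟨n, h1, h2, σ, h3, h4⟩ := perm_step (p := p) G S
    (fun x => Subtype.ext (hM x.1)) (fun T hT => by
      by_cases h0 : T = ⊥
      · exact Or.inl h0
      right
      have h5 : ¬ T.map S.subtype < S := hmin _ ⟨by
        rwa [Ne, AddSubgroup.map_eq_bot_iff_of_injective _ S.subtype_injective], by
        rintro g _ ⟨x, hx, rfl⟩
        exact ⟨g • x, hT g x hx, rfl⟩⟩
      have h6 : T.map S.subtype = S :=
        (eq_or_lt_of_le (AddSubgroup.map_subtype_le T)).resolve_right h5
      rw [eq_top_iff]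
      intro x _
      have h7 : x.1 ∈ T.map S.subtype := h6.symm ▸ x.2
      obtain ⟨y, hy, hxy⟩ := h7
      have : y = x := Subtype.ext hxy
      exact this ▸ hy)
  exact ⟨S, hS0, hS, n, h1, h2, σ, h3, fun g hg => h4 g fun x => Subtype.ext (hg x.1)⟩

end MP77
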