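import Pool.Agent.Lib.MP_77f37b_al.Rel
import Pool.Agent.Lib.MP_77f37b_al.Perm

/-! Cyclic gluing of a functional along blocks of length `N`. -/

namespace MP77
open Finset

variable {K : Type} [Field K] (N : ℕ) (φ : List Bool → K)

/-- block product -/
def Phi (m : List Bool) : K :=
  if N ∣ m.length then ∏ i ∈ range (m.length / N), φ ((m.drop (i * N)).take N) else 0

lemma Phi_zero {m : List Bool} (h : ¬ N ∣ m.length) : Phi N φ m = 0 := if_neg h

lemma Phi_nil : Phi N φ [] = 1 := by simp [Phi]

variable {N}

lemma Phi_block (hN : 0 < N) {m : List Bool} (h : m.length = N) : Phi N φ m = φ m := by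
  rw [Phi, if_pos (by rw [h]), h, Nat.div_self hN]
  simp [← h]

lemma Phi_app (hN : 0 < N) {m₁ m₂ : List Bool} (h : N ∣ m₁.length ∨ N ∣ m₂.length) :
    Phi N φ (m₁ ++ m₂) = Phi N φ m₁ * Phi N φ m₂ := by
  by_cases h1 : N ∣ m₁.length
  · by_cases h2 : N ∣ m₂.length
    · obtain ⟨q₁, hq₁⟩ := h1
      obtain ⟨q₂, hq₂⟩ := h2
      have e : (m₁ ++ m₂).length = N * (q₁ + q₂) := by simp [hq₁, hq₂, mul_add]
      rw [Phi, Phi, Phi, if_pos ⟨_, e⟩, if_pos ⟨_, hq₁⟩, if_pos ⟨_, hq₂⟩, e, hq₁, hq₂,
        Nat.mul_div_cancel_left _ hN, Nat.mul_div_cancel_left _ hN, Nat.mul_div_cancel_left _ hN,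
        Finset.prod_range_add]
      congr 1
      · refine Finset.prod_congr rfl fun i hi => ?_
        have hi' := mem_range.1 hi
        have h3 : (i + 1) * N ≤ m₁.length := by
          rw [hq₁, mul_comm N]; exact Nat.mul_le_mul_right N hi'
        rw [add_mul, one_mul] at h3
        rw [List.drop_append_of_le_length (by omega), List.take_append_of_le_length (by
          simp; omega)]
      · refine Finset.prod_congr rfl fun i _ => ?_
        have h3 : (q₁ + i) * N = m₁.length + i * N := by rw [hq₁]; ring
        rw [h3, List.drop_length_add_append]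
    · rw [Phi_zero N φ h2, mul_zero, Phi_zero]
      rw [List.length_append]
      exact fun h3 => h2 ((Nat.dvd_add_right h1).1 h3)
  · rw [Phi_zero N φ h1, zero_mul, Phi_zero]
    rw [List.length_append]
    exact fun h3 => h1 ((Nat.dvd_add_left (h.resolve_left h1)).1 h3)

lemma Phi_rel (hN : 0 < N) {n : ℕ} (hn : 0 < n) (c : List Bool → K)
    (hc : ∀ u v, ∑ m ∈ W n, c m * φ (u ++ m ++ v) = 0) (v u : List Bool)
    (hv : v.length % N + n ≤ N) : ∑ m ∈ W n, c m * Phi N φ (v ++ m ++ u) = 0 := by
  set r := v.length % N with hr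
  have hdiv := Nat.div_add_mod v.length N
  by_cases hu : N - r - n ≤ u.length
  · have key : ∀ m ∈ W n, c m * Phi N φ (v ++ m ++ u) =
        (Phi N φ (v.take (N * (v.length / N))) * Phi N φ (u.drop (N - r - n))) *
        (c m * φ (v.drop (N * (v.length / N)) ++ m ++ u.take (N - r - n))) := by
      intro m hm
      have hm' := (mem_W _ _).1 hm
      have e : v ++ m ++ u = v.take (N * (v.length / N)) ++
          ((v.drop (N * (v.length / N)) ++ m ++ u.take (N - r - n)) ++ u.drop (N - r - n)) := by
        conv_lhs => rw [← List.take_append_drop (N * (v.length / N)) v,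
          ← List.take_append_drop (N - r - n) u]
        simp only [List.append_assoc]
      have l1 : (v.take (N * (v.length / N))).length = N * (v.length / N) := by
        rw [List.length_take]; omega
      have l2 : (v.drop (N * (v.length / N)) ++ m ++ u.take (N - r - n)).length = N := by
        simp only [List.length_append, List.length_drop, List.length_take]; omega
      rw [e, Phi_app φ hN (Or.inl ⟨_, l1⟩), Phi_app φ hN (Or.inl (by rw [l2])),
        Phi_block φ hN l2]
      ring
    rw [Finset.sum_congr rfl key, ← mul_sum, hc, mul_zero]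
  · refine Finset.sum_eq_zero fun m hm => ?_
    have hm' := (mem_W _ _).1 hm
    rw [Phi_zero, mul_zero]
    simp only [List.length_append]
    intro h
    have h2 : N ∣ r + n + u.length := by
      have : v.length + m.length + u.length = N * (v.length / N) + (r + n + u.length) := by omega
      rw [this] at h
      exact (Nat.dvd_add_right (dvd_mul_right _ _)).1 h
    have := Nat.le_of_dvd (by omega) h2
    omega

lemma sq_zero (hN : 0 < N) {h : ℕ} (hh : 0 < h) (w : List Bool) (hw : 2 * (h * w.length) ≤ N)
    (hφ : ∀ n u v, 0 < n → n ≤ N → ∑ m ∈ W n, (C h w m : K) * φ (u ++ m ++ v) = 0)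
    (u : List Bool) :
    rep K ((Aw w - 1) ^ h) (rep K ((Aw w - 1) ^ h) fun v => Phi N φ (v ++ u)) = 0 := by
  funext v
  have hL := C_zero w h
  rw [rep_apply K _ (h * w.length) hL]
  simp only [rep_apply K _ (h * w.length) hL]
  refine Finset.sum_eq_zero fun n hn => ?_
  have hn' := mem_range.1 hn
  simp only [mul_sum]
  rw [Finset.sum_comm]
  refine Finset.sum_eq_zero fun n' hn2 => ?_
  have hn2' := mem_range.1 hn2
  have hnil : co ((Aw w - 1) ^ h) [] = 0 := by
    obtain ⟨h, rfl⟩ := Nat.exists_eq_succ_of_ne_zero hh.ne'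
    exact C_nil w h
  rcases Nat.eq_zero_or_pos n with rfl | hn0
  · simp [W, hnil]
  rcases Nat.eq_zero_or_pos n' with rfl | hn0'
  · simp [W, hnil]
  by_cases hc : v.length % N + n ≤ N
  · rw [Finset.sum_comm]
    refine Finset.sum_eq_zero fun m' _ => ?_
    have := Phi_rel φ hN hn0 (fun m => (C h w m : K)) (fun u v => hφ n u v hn0 (by omega)) v
      (m' ++ u) hc
    simp only [mul_left_comm _ ((co ((Aw w - 1) ^ h) m' : ℤ) : K), ← mul_sum]
    simp only [List.append_assoc, C] at this ⊢
    rw [this, mul_zero]
  · refine Finset.sum_eq_zero fun m hm => ?_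
    have hm' := (mem_W _ _).1 hm
    have := Phi_rel φ hN hn0' (fun m => (C h w m : K)) (fun u v => hφ n' u v hn0' (by omega))
      (v ++ m) u (by
        have h1 := Nat.mod_lt v.length hN
        have h2 : (v ++ m).length % N = v.length % N + n - N := by
          have h3 := Nat.div_add_mod v.length N
          have : (v ++ m).length = (v.length % N + n - N) + N * (v.length / N + 1) := by
            rw [List.length_append, mul_add]; omega
          rw [this, Nat.add_mul_mod_self_left, Nat.mod_eq_of_lt (by omega)]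
        omega)
    simp only [← mul_sum]
    simp only [C] at this
    rw [this, mul_zero]

variable (N) in
/-- the span of the shifts of the block product -/
def V : Submodule K (List Bool → K) :=
  Submodule.span K ((fun u v => Phi N φ (v ++ u)) '' {u | u.length < N})

lemma shift_mem (hN : 0 < N) (u : List Bool) : (fun v => Phi N φ (v ++ u)) ∈ V N φ := by
  have h1 := Nat.mod_lt u.length hN
  have h2 := Nat.div_add_mod u.length N
  have : (fun v => Phi N φ (v ++ u)) =
      Phi N φ (u.drop (u.length % N)) • fun v => Phi N φ (v ++ u.take (u.length % N)) := by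
    funext v
    conv_lhs => rw [← List.take_append_drop (u.length % N) u, ← List.append_assoc]
    rw [Phi_app φ hN (Or.inr ⟨u.length / N, by rw [List.length_drop]; omega⟩)]
    simp [mul_comm]
  rw [this]
  refine Submodule.smul_mem _ _ (Submodule.subset_span ⟨_, ?_, rfl⟩)
  simp only [Set.mem_ofPred_eq, List.length_take]
  omega

lemma V_finite : Module.Finite K (V N φ) := by
  apply Module.Finite.span_of_finite
  apply Set.Finite.image
  refine ((range N).biUnion W).finite_toSet.subset fun u hu => ?_
  simp only [coe_biUnion, coe_range, Set.mem_Iio, Set.mem_iUnion, mem_coe, mem_W]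
  exact ⟨_, hu, rfl⟩

lemma V_gen (hN : 0 < N) (c : Bool) : ∀ f ∈ V N φ, rep K (gen c) f ∈ V N φ := by
  intro f hf
  induction hf using Submodule.span_induction with
  | mem x hx =>
    obtain ⟨u, _, rfl⟩ := hx
    have : rep K (gen c) (fun v => Phi N φ (v ++ u)) =
        (fun v => Phi N φ (v ++ u)) + fun v => Phi N φ (v ++ c :: u) := by
      funext v
      simp [rep_gen]
    rw [this]
    exact add_mem (shift_mem φ hN _) (shift_mem φ hN _)
  | zero => simp
  | add x y _ _ hx hy => rw [map_add]; exact add_mem hx hy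
  | smul a x _ hx => rw [map_smul]; exact Submodule.smul_mem _ _ hx

lemma V_eig (hN : 0 < N) {m₀ : List Bool} (h : m₀.length = N) :
    ∀ f ∈ V N φ, ∀ v, f (m₀ ++ v) = φ m₀ * f v := by
  intro f hf
  induction hf using Submodule.span_induction with
  | mem x hx =>
    obtain ⟨u, _, rfl⟩ := hx
    intro v
    simp only [List.append_assoc]
    rw [Phi_app φ hN (Or.inl (by rw [h])), Phi_block φ hN h]
  | zero => simp
  | add x y _ _ hx hy => intro v; simp [hx v, hy v, mul_add]
  | smul a x _ hx => intro v; simp [hx v, mul_left_comm]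

lemma V_pow (hN : 0 < N) {p h : ℕ} (hp : p.Prime) [CharP K p] (hh : 0 < h) (hhp : 2 * h ≤ p)
    (w : List Bool) (hw : 2 * (h * w.length) ≤ N)
    (hφ : ∀ n u v, 0 < n → n ≤ N → ∑ m ∈ W n, (C h w m : K) * φ (u ++ m ++ v) = 0) :
    ∀ f ∈ V N φ, rep K (Aw w ^ p) f = f := by
  have h1 : ∀ f ∈ V N φ, rep K ((Aw w - 1) ^ h) (rep K ((Aw w - 1) ^ h) f) = 0 := by
    intro f hf
    induction hf using Submodule.span_induction with
    | mem x hx =>
      obtain ⟨u, _, rfl⟩ := hx
      exact sq_zero φ hN hh w hw hφ u
    | zero => simp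
    | add x y _ _ hx hy => rw [map_add, map_add, hx, hy, add_zero]
    | smul a x _ hx => rw [map_smul, map_smul, hx, smul_zero]
  intro f hf
  obtain ⟨r, hr⟩ := (Commute.one_left (Aw w - 1)).exists_add_pow_prime_eq hp
  rw [add_sub_cancel, one_pow] at hr
  have h2 : (Aw w - 1) ^ p = (Aw w - 1) ^ (p - 2 * h) * ((Aw w - 1) ^ h * (Aw w - 1) ^ h) := by
    rw [← pow_add, ← pow_add]; congr 1; omega
  rw [hr, h2, map_add, map_add, map_one, map_mul, map_mul, mul_assoc, mul_assoc, map_mul,
    map_natCast]
  simp only [LinearMap.add_apply, Module.End.mul_apply, h1 f hf, map_zero, Module.End.one_apply,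
    add_zero, Module.End.natCast_apply]
  rw [← Nat.cast_smul_eq_nsmul K, CharP.cast_eq_zero, zero_smul, add_zero]

end MP77
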