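import Pool.Agent.Lib.MP_77f37b_al.Glue

/-! Assembling the construction. -/

namespace MP77
open Finset

lemma step {p : ℕ} (hp : p.Prime) {d h N : ℕ} (hd : 0 < d) (hh : 0 < h) (hhp : 2 * h ≤ p)
    (hN : 2 ≤ N) (hND : 2 * (h * ((p - 1) * d)) ≤ N)
    (hnum : 60 * Real.exp 202 * N ^ 3 ≤ (19 / 10 : ℝ) ^ h) (s : ℕ) (hs : s ≠ 0) :
    ∃ n : ℕ, ¬ p ∣ n ∧ p ^ s - 1 ≤ p ^ n.factorial ∧ ∃ a b : Equiv.Perm (Fin n),
      (∀ i j, ∃ g ∈ Subgroup.closure ({a, b} : Set (Equiv.Perm (Fin n))), g i = j) ∧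
      ∀ w : List (Equiv.Perm (Fin n)), (∀ z ∈ w, z = a ∨ z = a⁻¹ ∨ z = b ∨ z = b⁻¹) →
        w.length ≤ d → w.prod ^ p = 1 := by
  classical
  have : Fact p.Prime := ⟨hp⟩
  let K := GaloisField p s
  obtain ⟨lam, hlam⟩ := IsCyclic.exists_ofOrder_eq_natCard (α := Kˣ)
  rw [Nat.card_units, GaloisField.card p s hs] at hlam
  obtain ⟨φ₀, ⟨m₀, hm₀, hφ₀⟩, hrel₀⟩ := exists_phi K N h hN hnum
  let φ : List Bool → K := fun m => ((lam : K) * (φ₀ m₀)⁻¹) * φ₀ m
  have hφm : φ m₀ = lam := by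
    simp only [φ]; rw [mul_assoc, inv_mul_cancel₀ hφ₀, mul_one]
  have hrel : ∀ w n u v, 0 < n → n ≤ N → ∑ m ∈ W n, (C h w m : K) * φ (u ++ m ++ v) = 0 := by
    intro w n u v h1 h2
    have := hrel₀ w n u v h1 h2
    simp only [φ, mul_left_comm _ ((lam : K) * (φ₀ m₀)⁻¹), ← mul_sum, this, mul_zero]
  have hN0 : 0 < N := by omega
  have := V_finite (N := N) φ
  have : Finite (V N φ) := Module.finite_of_finite K
  have hPhi : Phi N φ ∈ V N φ := by simpa using shift_mem φ hN0 []
  have : Nontrivial (V N φ) := ⟨⟨⟨_, hPhi⟩, 0, fun h0 => by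
    have := congrFun (congrArg Subtype.val h0) []
    simp [Phi_nil] at this⟩⟩
  let a : Bool → Module.End K (V N φ) := fun c => (rep K (gen c)).restrict (V_gen φ hN0 c)
  have hR : ∀ (w : List Bool) (x : V N φ), ((w.map a).prod x).1 = rep K (Aw w) x.1 := by
    intro w
    induction w with
    | nil => intro x; simp [Aw]
    | cons c w ih =>
      intro x
      have e : Aw (c :: w) = gen c * Aw w := by simp [Aw]
      rw [List.map_cons, List.prod_cons, Module.End.mul_apply, e, map_mul, Module.End.mul_apply,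
        ← ih x]
      rfl
  have hRk : ∀ (w : List Bool) (k : ℕ) (x : V N φ),
      (((w.map a).prod ^ k) x).1 = rep K (Aw w ^ k) x.1 := by
    intro w k
    induction k with
    | zero => intro x; simp
    | succ k ih =>
      intro x
      rw [pow_succ', pow_succ', map_mul, Module.End.mul_apply, Module.End.mul_apply, hR, ih]
  have hp1 : 1 ≤ p - 1 := by have := hp.two_le; omega
  have hRp : ∀ w : List Bool, w.length ≤ (p - 1) * d → (w.map a).prod ^ p = 1 := by
    intro w hw
    ext1 x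
    apply Subtype.ext
    rw [hRk]
    refine V_pow φ hN0 hp hh hhp w ?_ (hrel w) x.1 x.2
    have := Nat.mul_le_mul_left h hw
    omega
  have hap : ∀ c, a c ^ p = 1 := by
    intro c
    have := hRp [c] (Nat.mul_pos hp1 hd)
    simpa using this
  let U : Bool → (Module.End K (V N φ))ˣ := fun c => Units.ofPowEqOne (a c) p (hap c) hp.ne_zero
  let π : FreeGroup Bool →* (Module.End K (V N φ))ˣ := FreeGroup.lift U
  let _ : DistribMulAction (FreeGroup Bool) (V N φ) :=
    DistribMulAction.compHom _ ((Units.coeHom _).comp π)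
  have hsmul : ∀ (g : FreeGroup Bool) (x : V N φ), g • x = (π g).1 x := fun _ _ => rfl
  have hπ : ∀ c, (π (FreeGroup.of c)).1 = a c := fun c => by simp [π, U]
  have hπ' : ∀ c, (π (FreeGroup.of c)⁻¹).1 = a c ^ (p - 1) := fun c => by simp [π, U]
  obtain ⟨S, hS0, hS, n, h1, h2, σ, h3, h4⟩ := perm_step' (p := p) (FreeGroup Bool) (V N φ)
    (fun x => by rw [← Nat.cast_smul_eq_nsmul K, CharP.cast_eq_zero, zero_smul])
  refine ⟨n, h1, le_trans ?_ h2, σ (FreeGroup.of true), σ (FreeGroup.of false), ?_, ?_⟩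
  · have hsh : ∀ (u : List Bool), ∀ x ∈ S, ∃ y ∈ S, ∀ v, y.1 v = x.1 (v ++ u) := by
      intro u
      induction u with
      | nil => intro x hx; exact ⟨x, hx, by simp⟩
      | cons c u ih =>
        intro x hx
        obtain ⟨y, hy, hy'⟩ := ih x hx
        refine ⟨FreeGroup.of c • y - y, sub_mem (hS _ y hy) hy, fun v => ?_⟩
        have e : (FreeGroup.of c • y).1 = rep K (gen c) y.1 := by rw [hsmul, hπ]; rfl
        simp [e, rep_gen, hy']
    obtain ⟨⟨x, hx⟩, hx0⟩ := AddSubgroup.ne_bot_iff_exists_ne_zero.1 hS0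
    obtain ⟨m, hm⟩ : ∃ m, x.1 m ≠ 0 := by
      by_contra hc
      push Not at hc
      exact hx0 (Subtype.ext (Subtype.ext (funext hc)))
    have hj : ∀ j : ℕ, ∃ y : S, y.1.1 [] = (lam : K) ^ j * x.1 m := by
      intro j
      obtain ⟨y, hy, hy'⟩ := hsh ((List.replicate j m₀).flatten ++ m) x hx
      refine ⟨⟨y, hy⟩, ?_⟩
      rw [hy', List.nil_append]
      clear hy'
      induction j with
      | zero => simp
      | succ j ih =>
        rw [List.replicate_succ, List.flatten_cons, List.append_assoc, V_eig φ hN0 hm₀ x.1 x.2,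
          ih, hφm, pow_succ', mul_assoc]
    choose y hy using hj
    rw [← hlam]
    have hinj : Function.Injective fun j : Fin (orderOf lam) => y j := by
      intro i j hij
      have e := hy i
      simp only at hij
      rw [hij, hy j] at e
      have e2 : lam ^ (j : ℕ) = lam ^ (i : ℕ) := by
        apply Units.ext
        simpa using mul_right_cancel₀ hm e
      exact Fin.ext (pow_injOn_Iio_orderOf i.2 j.2 e2.symm)
    simpa using Nat.card_le_card_of_injective _ hinj
  · intro i j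
    obtain ⟨g, hg⟩ := h3 i j
    refine ⟨σ g, ?_, hg⟩
    clear hg
    induction g using FreeGroup.induction_on with
    | C1 => simp
    | of c => cases c <;> exact Subgroup.subset_closure (by simp)
    | inv_of c hc => rw [map_inv]; exact inv_mem hc
    | mul g g' hg hg' => rw [map_mul]; exact mul_mem hg hg'
  · intro w hw hwd
    have key : ∃ (g : FreeGroup Bool) (w' : List Bool), σ g = w.prod ∧
        w'.length ≤ (p - 1) * w.length ∧ (π g).1 = (w'.map a).prod := by
      clear hwd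
      induction w with
      | nil => exact ⟨1, [], by simp, by simp, by simp⟩
      | cons z w ih =>
        obtain ⟨g, w', e1, e2, e3⟩ := ih (fun z hz => hw z (List.mem_cons_of_mem _ hz))
        have pos : ∀ c, z = σ (FreeGroup.of c) → ∃ (g : FreeGroup Bool) (w' : List Bool),
            σ g = (z :: w).prod ∧ w'.length ≤ (p - 1) * (z :: w).length ∧
            (π g).1 = (w'.map a).prod := by
          intro c hc
          refine ⟨FreeGroup.of c * g, c :: w', by simp [e1, hc], ?_, ?_⟩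
          · simp only [List.length_cons, mul_add]; omega
          · rw [map_mul, Units.val_mul, hπ, e3]; simp
        have neg : ∀ c, z = (σ (FreeGroup.of c))⁻¹ → ∃ (g : FreeGroup Bool) (w' : List Bool),
            σ g = (z :: w).prod ∧ w'.length ≤ (p - 1) * (z :: w).length ∧
            (π g).1 = (w'.map a).prod := by
          intro c hc
          refine ⟨(FreeGroup.of c)⁻¹ * g, List.replicate (p - 1) c ++ w', by simp [e1, hc], ?_, ?_⟩
          · simp only [List.length_cons, mul_add, List.length_append, List.length_replicate]; omega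
          · rw [map_mul, Units.val_mul, hπ', e3]; simp
        rcases hw z List.mem_cons_self with hz | hz | hz | hz
        · exact pos _ hz
        · exact neg _ hz
        · exact pos _ hz
        · exact neg _ hz
    obtain ⟨g, w', e1, e2, e3⟩ := key
    rw [← e1, ← map_pow]
    apply h4
    intro x
    rw [hsmul, map_pow, Units.val_pow_eq_pow_val, e3,
      hRp w' (e2.trans (Nat.mul_le_mul_left _ hwd))]
    rfl

lemma numeric : ∃ p₀ : ℕ, ∀ p : ℕ, p₀ ≤ p → ∀ d : ℕ, (d : ℝ) ≤ Real.exp (p / 10) →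
    60 * Real.exp 202 * ((p * p * d : ℕ) : ℝ) ^ 3 ≤ (19 / 10 : ℝ) ^ (p / 2) := by
  have h1 := (Real.tendsto_pow_mul_exp_neg_atTop_nhds_zero 6).comp
    ((tendsto_natCast_atTop_atTop (R := ℝ)).atTop_div_const (r := 100) (by norm_num))
  have h2 := h1.eventually (gt_mem_nhds (a := (60 * Real.exp 203 * 100 ^ 6)⁻¹) (by positivity))
  obtain ⟨p₀, hp₀⟩ := Filter.eventually_atTop.1 h2
  refine ⟨p₀, fun p hp d hd => ?_⟩
  have h3 := hp₀ p hp
  simp only [Function.comp] at h3
  have h4 : Real.exp (62 / 100) ≤ 19 / 10 := by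
    have := Real.exp_bound' (x := 62 / 100) (by norm_num) (by norm_num) (n := 4) (by norm_num)
    refine this.trans ?_
    simp [Finset.sum_range_succ, Nat.factorial]
    norm_num
  have h5 : Real.exp (62 / 100) ^ (p / 2) ≤ (19 / 10 : ℝ) ^ (p / 2) :=
    pow_le_pow_left₀ (Real.exp_pos _).le h4 _
  refine le_trans ?_ h5
  rw [← Real.exp_nat_mul]
  have h6 : (p : ℝ) - 1 ≤ 2 * ((p / 2 : ℕ) : ℝ) := by
    have : p ≤ 2 * (p / 2) + 1 := by omega
    have : (p : ℝ) ≤ 2 * ((p / 2 : ℕ) : ℝ) + 1 := by exact_mod_cast this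
    linarith
  have h7 : Real.exp (31 / 100 * p - 1) ≤ Real.exp (((p / 2 : ℕ) : ℝ) * (62 / 100)) :=
    Real.exp_le_exp.2 (by linarith)
  refine le_trans ?_ h7
  have h8 : (d : ℝ) ^ 3 ≤ Real.exp (3 / 10 * p) := by
    have := pow_le_pow_left₀ (Nat.cast_nonneg d) hd 3
    rw [← Real.exp_nat_mul] at this
    refine this.trans (le_of_eq ?_)
    congr 1; push_cast; ring
  have h9 : 60 * Real.exp 203 * (p : ℝ) ^ 6 ≤ Real.exp (p / 100) := by
    rw [Real.exp_neg, ← div_eq_mul_inv, div_lt_iff₀ (Real.exp_pos _), inv_mul_eq_div,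
      lt_div_iff₀ (by positivity)] at h3
    have : ((p : ℝ) / 100) ^ 6 * (60 * Real.exp 203 * 100 ^ 6) =
        60 * Real.exp 203 * (p : ℝ) ^ 6 := by ring
    linarith
  have e1 : Real.exp 203 = Real.exp 202 * Real.exp 1 := by rw [← Real.exp_add]; norm_num
  have e2 : Real.exp (31 / 100 * p - 1) * Real.exp 1 =
      Real.exp (p / 100) * Real.exp (3 / 10 * p) := by
    rw [← Real.exp_add, ← Real.exp_add]; congr 1; ring
  refine le_of_mul_le_mul_right ?_ (Real.exp_pos 1)
  rw [e2]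
  push_cast
  calc 60 * Real.exp 202 * ((p : ℝ) * p * d) ^ 3 * Real.exp 1
      = (60 * Real.exp 203 * (p : ℝ) ^ 6) * (d : ℝ) ^ 3 := by rw [e1]; ring
    _ ≤ _ := mul_le_mul h9 h8 (by positivity) (by positivity)

theorem main : ∃ p₀ : ℕ, ∀ p : ℕ, p.Prime → p₀ ≤ p → ∀ d : ℕ, (d : ℝ) ≤ Real.exp (p / 10) →
    Set.Infinite {n : ℕ | ¬ p ∣ n ∧ ∃ a b : Equiv.Perm (Fin n),
      (∀ i j, ∃ g ∈ Subgroup.closure ({a, b} : Set (Equiv.Perm (Fin n))), g i = j) ∧
      ∀ w : List (Equiv.Perm (Fin n)), (∀ z ∈ w, z = a ∨ z = a⁻¹ ∨ z = b ∨ z = b⁻¹) →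
        w.length ≤ d → w.prod ^ p = 1} := by
  obtain ⟨p₀, hp₀⟩ := numeric
  refine ⟨p₀, fun p hp hle d hd => ?_⟩
  have h2 := hp.two_le
  have hd' : ((max d 1 : ℕ) : ℝ) ≤ Real.exp (p / 10) := by
    push_cast
    exact max_le hd (Real.one_le_exp (by positivity))
  have hnum := hp₀ p hle _ hd'
  have hD : 0 < max d 1 := lt_of_lt_of_le one_pos (le_max_right _ _)
  intro hfin
  obtain ⟨n₀, hn₀⟩ := hfin.bddAbove
  obtain ⟨n, h1, h3, a, b, h4, h5⟩ := step hp (d := max d 1) (h := p / 2) (N := p * p * max d 1)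
    hD (by omega) (by omega) (by nlinarith) (by
      have e1 : 2 * (p / 2) ≤ p := by omega
      calc 2 * (p / 2 * ((p - 1) * max d 1)) = (2 * (p / 2)) * (p - 1) * max d 1 := by ring
        _ ≤ p * p * max d 1 := Nat.mul_le_mul_right _ (Nat.mul_le_mul e1 (by omega)))
    hnum (n₀.factorial + 1) (by omega)
  have h6 : n ≤ n₀ := hn₀ ⟨h1, a, b, h4, fun w hw hwd => h5 w hw (hwd.trans (le_max_left _ _))⟩
  have h7 : p ^ n.factorial ≤ p ^ n₀.factorial :=
    Nat.pow_le_pow_right hp.pos (Nat.factorial_le h6)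
  have h8 : 2 ≤ p ^ n₀.factorial := h2.trans (Nat.le_self_pow (Nat.factorial_ne_zero _) p)
  rw [pow_succ] at h3
  have h9 : p ^ n₀.factorial * 2 ≤ p ^ n₀.factorial * p := Nat.mul_le_mul_left _ h2
  omega

end MP77
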