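import Pool.Agent.Lib.MP_77f37b_al.Count
import Pool.Agent.Lib.MP_77f37b_al.GS

/-! Coefficients of `(w(1+x,1+y) - 1)^h` and the shift representation. -/

namespace MP77
open Finset

/-- the free associative ring on two letters -/
abbrev FA := MonoidAlgebra ℤ (FreeMonoid Bool)

/-- coefficient of a monomial -/
def co (x : FA) (m : List Bool) : ℤ := x.coeff (FreeMonoid.ofList m)

lemma co_mul (x y : FA) (m : List Bool) :
    co (x * y) m = ∑ i ∈ range (m.length + 1), co x (m.take i) * co y (m.drop i) := by
  classical
  rw [co, MonoidAlgebra.coeff_mul_antidiag x y _ ((range (m.length + 1)).image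
    fun i => (FreeMonoid.ofList (m.take i), FreeMonoid.ofList (m.drop i)))]
  · rw [Finset.sum_image]
    · rfl
    · intro i hi j hj h
      have h1 := congrArg (fun p : FreeMonoid Bool × FreeMonoid Bool => p.1.toList.length) h
      simp only [FreeMonoid.toList_ofList, List.length_take] at h1
      simp only [coe_range, Set.mem_Iio] at hi hj
      omega
  · rintro ⟨p, q⟩
    simp only [mem_image, mem_range, Prod.mk.injEq]
    constructor
    · rintro ⟨i, _, rfl, rfl⟩
      rw [← FreeMonoid.ofList_append, List.take_append_drop]
    · intro h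
      have h1 : m = p.toList ++ q.toList := by
        rw [← FreeMonoid.toList_mul, h, FreeMonoid.toList_ofList]
      refine ⟨p.toList.length, by rw [h1]; simp, ?_, ?_⟩
      · rw [h1]; simp
      · rw [h1]; simp

lemma co_one (m : List Bool) : co 1 m = if m = [] then 1 else 0 := by
  classical
  rw [co, MonoidAlgebra.one_def, MonoidAlgebra.coeff_single, Finsupp.single_apply]
  congr 1
  apply propext
  constructor
  · intro h
    have := congrArg FreeMonoid.toList h
    simpa using this.symm
  · rintro rfl; rfl

/-- the generators `1 + x`, `1 + y` -/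
noncomputable def gen (c : Bool) : FA := 1 + MonoidAlgebra.single (FreeMonoid.of c) 1

/-- a positive word in the generators -/
noncomputable def Aw (w : List Bool) : FA := (w.map gen).prod

lemma co_add (x y : FA) (m : List Bool) : co (x + y) m = co x m + co y m := rfl
lemma co_sub (x y : FA) (m : List Bool) : co (x - y) m = co x m - co y m := by
  simp [co]

lemma co_Aw : ∀ (w m : List Bool), co (Aw w) m = E w m
  | [], m => by
      have : Aw [] = 1 := rfl
      rw [this, co_one]
      cases m <;> simp
  | e :: w, m => by
      have : Aw (e :: w) = Aw w + MonoidAlgebra.single (FreeMonoid.of e) 1 * Aw w := by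
        simp [Aw, gen, add_mul]
      rw [this, co_add, co_Aw w m]
      rcases m with _ | ⟨c, m⟩
      · rw [co, MonoidAlgebra.coeff_single_mul_of_forall_mul_ne]
        · simp
        · intro d h
          have := congrArg FreeMonoid.toList h
          simp at this
      · rw [E_cons_cons]
        by_cases h : c = e
        · subst h
          rw [co, MonoidAlgebra.coeff_single_mul_eq_mul_coeff (FreeMonoid.ofList m)]
          · have := co_Aw w m
            rw [co] at this
            simp [this]
          · intro m' _
            constructor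
            · intro h
              have := congrArg FreeMonoid.toList h
              simp only [FreeMonoid.toList_mul, FreeMonoid.toList_of, FreeMonoid.toList_ofList,
                List.singleton_append, List.cons.injEq, true_and] at this
              rw [← this]; rfl
            · rintro rfl; rfl
        · rw [co, MonoidAlgebra.coeff_single_mul_of_forall_mul_ne]
          · simp [h]
          · intro d h'
            have := congrArg FreeMonoid.toList h'
            simp only [FreeMonoid.toList_mul, FreeMonoid.toList_of, FreeMonoid.toList_ofList,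
                List.singleton_append, List.cons.injEq] at this
            exact h this.1.symm

lemma co_z (w m : List Bool) : co (Aw w - 1) m = if m = [] then 0 else E w m := by
  rw [co_sub, co_Aw, co_one]
  split_ifs with h
  · subst h; simp
  · simp

/-- coefficient of `m` in `(w - 1)^h` -/
noncomputable def C (h : ℕ) (w m : List Bool) : ℤ := co ((Aw w - 1) ^ h) m

lemma C_succ (h : ℕ) (w m : List Bool) : C (h + 1) w m =
    ∑ i ∈ range (m.length + 1), co (Aw w - 1) (m.take i) * C h w (m.drop i) := by
  rw [C, pow_succ', co_mul]; rfl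

lemma C_mem (N : ℕ) : ∀ (h : ℕ) (m : List Bool), m.length ≤ N →
    (fun w => (C h w m : ℚ)) ∈ A N h m.length := by
  intro h
  induction h with
  | zero =>
    intro m _
    simp only [C, pow_zero, co_one]
    split_ifs with h
    · subst h; simp only [Int.cast_one]; exact one_mem_A N
    · simp only [Int.cast_zero]; exact (A N 0 m.length).zero_mem
  | succ h ih =>
    intro m hm
    have : (fun w => (C (h + 1) w m : ℚ)) = ∑ i ∈ range (m.length + 1),
        (fun w => (co (Aw w - 1) (m.take i) : ℚ)) * (fun w => (C h w (m.drop i) : ℚ)) := by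
      funext w
      simp [C_succ, Finset.sum_apply]
    rw [this]
    refine Submodule.sum_mem _ fun i hi => ?_
    have hi' := mem_range.1 hi
    have h1 : (fun w => (co (Aw w - 1) (m.take i) : ℚ)) ∈ A N 1 (m.take i).length := by
      simp only [co_z]
      split_ifs with h0
      · exact (A N 1 (m.take i).length).zero_mem
      · exact eps_mem' h0 (by simp; omega)
    have h2 := ih (m.drop i) (by simp; omega)
    refine A_mono (by omega) ?_ (A_mul h1 h2)
    simp; omega

lemma C_zero (w : List Bool) : ∀ (h : ℕ) (m : List Bool), h * w.length < m.length →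
    C h w m = 0 := by
  intro h
  induction h with
  | zero =>
    intro m hm
    simp only [C, pow_zero, co_one]
    rw [if_neg]
    rintro rfl
    simp at hm
  | succ h ih =>
    intro m hm
    rw [C_succ]
    refine Finset.sum_eq_zero fun i hi => ?_
    have hi' := mem_range.1 hi
    by_cases h1 : w.length < i
    · rw [co_z, E_eq_zero w _ (by simp; omega)]
      simp
    · rw [ih (m.drop i), mul_zero]
      rw [add_mul] at hm
      simp; omega

lemma C_nil (w : List Bool) (h : ℕ) : C (h + 1) w [] = 0 := by
  rw [C_succ]; simp [co_z]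

variable (K : Type) [Field K]

/-- shift operators -/
def tau : FreeMonoid Bool →* Module.End K (List Bool → K) where
  toFun m := LinearMap.funLeft K K (· ++ m.toList)
  map_one' := by ext f v; simp
  map_mul' a b := by ext f v; simp

/-- the shift representation -/
noncomputable def rep : FA →ₐ[ℤ] Module.End K (List Bool → K) :=
  MonoidAlgebra.lift ℤ _ _ (tau K)

lemma rep_apply (x : FA) (L : ℕ) (hL : ∀ m, L < m.length → co x m = 0) (f : List Bool → K)
    (v : List Bool) :
    rep K x f v = ∑ n ∈ range (L + 1), ∑ m ∈ W n, (co x m : K) * f (v ++ m) := by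
  classical
  rw [rep, MonoidAlgebra.lift_apply, Finsupp.sum, LinearMap.sum_apply, Finset.sum_apply]
  rw [← Finset.sum_biUnion]
  · rw [Finset.sum_subset (s₂ := ((range (L + 1)).biUnion W).image FreeMonoid.ofList)]
    · rw [Finset.sum_image (fun a _ b _ h => FreeMonoid.ofList.injective h)]
      refine Finset.sum_congr rfl fun m _ => ?_
      simp [tau, co]
    · intro m hm
      simp only [mem_image, mem_biUnion, mem_range, mem_W]
      refine ⟨m.toList, ⟨_, ?_, rfl⟩, rfl⟩
      by_contra h
      exact (Finsupp.mem_support_iff.1 hm) (hL m.toList (by omega))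
    · intro m _ hm
      rw [Finsupp.notMem_support_iff.1 hm]
      simp
  · intro i _ j _ hij
    rw [Function.onFun, Finset.disjoint_left]
    intro m hi hj
    exact hij (((mem_W _ _).1 hi).symm.trans ((mem_W _ _).1 hj))

lemma rep_gen (c : Bool) (f : List Bool → K) (v : List Bool) :
    rep K (gen c) f v = f v + f (v ++ [c]) := by
  simp [rep, gen, tau]

/-- A nonzero functional of degree `N` that kills all homogeneous components. -/
lemma exists_phi (N h : ℕ) (hN : 2 ≤ N)
    (hnum : 60 * Real.exp 202 * N ^ 3 ≤ (19 / 10 : ℝ) ^ h) :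
    ∃ φ : List Bool → K, (∃ m, m.length = N ∧ φ m ≠ 0) ∧ ∀ w n u v, 0 < n → n ≤ N →
      ∑ m ∈ W n, (C h w m : K) * φ (u ++ m ++ v) = 0 := by
  have hrel : ∀ n, ∃ ρ : ℕ → List Bool → ℤ, n ≤ N → ∀ w, ∃ g : ℕ → ℤ, ∀ m ∈ W n,
      C h w m = ∑ i ∈ range (G N h n).card, g i * ρ i m := by
    intro n
    by_cases hn : n ≤ N
    · obtain ⟨ρ, hρ⟩ := exists_rel (j := h) hn (C h) (fun m hm => by
        have := (mem_W _ _).1 hm
        subst this
        exact C_mem N h m hn)
      exact ⟨ρ, fun _ => hρ⟩
    · exact ⟨0, fun h => absurd h hn⟩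
  choose ρ hρ using hrel
  have hN' : (2 : ℝ) ≤ N := by exact_mod_cast hN
  have hd0 : 0 < 1 / (10 * N : ℝ) := by positivity
  have hd1 : 1 / (10 * N : ℝ) ≤ 1 / 20 := by
    apply one_div_le_one_div_of_le <;> linarith
  obtain ⟨φ, hφ, hne⟩ := GS (K := K) (fun n => (G N h n).card) (fun n i m => (ρ n i m : K)) N
    (β := 2 - 1 / (10 * N : ℝ)) (by linarith) (by
      have h1 := count_num N h hN
      set t : ℝ := (2 - 1 / (10 * N : ℝ))⁻¹ with ht
      have ht2 : 1 / 2 ≤ t := by
        rw [ht, le_inv_comm₀ (by norm_num) (by linarith)]; linarith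
      rw [Finset.sum_range_succ'] at h1
      have h2 : ∑ n ∈ range N, ((G N h (n + 1)).card : ℝ) * t ^ n ≤
          2 * ∑ n ∈ range N, ((G N h (n + 1)).card : ℝ) * t ^ (n + 1) := by
        rw [mul_sum]
        refine Finset.sum_le_sum fun n _ => ?_
        have : 0 ≤ ((G N h (n + 1)).card : ℝ) * t ^ n := by positivity
        rw [pow_succ]; nlinarith
      have h3 : 0 ≤ ((G N h 0).card : ℝ) * t ^ 0 := by positivity
      have h4 : ((19 / 10 : ℝ) ^ h)⁻¹ * 3 * (Real.exp 202 * N ^ 2) ≤ 1 / (20 * N : ℝ) := by
        rw [mul_assoc, inv_mul_eq_div, div_le_div_iff₀ (by positivity) (by positivity)]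
        nlinarith
      have h5 : 1 / (10 * N : ℝ) = 2 * (1 / (20 * N : ℝ)) := by field_simp; norm_num
      linarith)
  refine ⟨φ, ?_, fun w n u v hn hnN => ?_⟩
  · by_contra hc
    apply hne
    funext m
    by_cases hm : m.length = N
    · by_contra h0; exact hc ⟨m, hm, h0⟩
    · exact hφ.1 m hm
  · obtain ⟨n, rfl⟩ := Nat.exists_eq_succ_of_ne_zero hn.ne'
    obtain ⟨g, hg⟩ := hρ (n + 1) hnN w
    rw [Finset.sum_congr rfl (fun m hm => by rw [hg m hm])]
    simp only [Int.cast_sum, Int.cast_mul, sum_mul]
    rw [Finset.sum_comm]
    refine Finset.sum_eq_zero fun i hi => ?_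
    have := hφ.2 n i u v (mem_range.1 hi)
    simp only [mul_assoc, ← mul_sum, this, mul_zero]

end MP77
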