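import Pool.Agent.Lib.MP_77f37b_al.STrans

/-! An irreducible group over the prime field, generated by unipotent elements of small degree and
containing two transvections with a common axis, contains all transvections. -/

namespace MP77.S99

variable {p : ℕ} [hp : Fact p.Prime] {V : Type} [AddCommGroup V] [Module (ZMod p) V]

/-- the transvection with centre `v` and axis `f` -/
def tv (v : V) (f : Module.Dual (ZMod p) V) : Module.End (ZMod p) V := 1 + f.smulRight v

theorem tv_apply (v x : V) (f : Module.Dual (ZMod p) V) : tv v f x = x + f x • v := rfl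

theorem small_deg {a : Module.End (ZMod p) V} {g : Module.Dual (ZMod p) V} {w : V} {k : ℕ}
    (h : ∀ i, 0 < i → i ≤ k → g ((a ^ i) w) = 0) (j : ℕ) : ∀ i, i + j ≤ k →
    g (((a - 1) ^ j) ((a ^ i) w)) = if i = 0 then (-1) ^ j * g w else 0 := by
  induction j with
  | zero =>
    intro i hi
    split_ifs with h0
    · simp [h0]
    · simpa using h i (by omega) (by omega)
  | succ j ih =>
    intro i hi
    have e : (a - 1) ((a ^ i) w) = (a ^ (i + 1)) w - (a ^ i) w := by simp [pow_succ']
    rw [pow_succ, Module.End.mul_apply, e, map_sub, map_sub, ih (i + 1) (by omega), ih i (by omega)]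
    split_ifs <;> simp_all [pow_succ]

theorem all_tv [Module.Finite (ZMod p) V] (M : Submonoid (Module.End (ZMod p) V))
    (hinv : ∀ g ∈ M, ∃ g' ∈ M, g * g' = 1 ∧ g' * g = 1) (a : Bool → Module.End (ZMod p) V)
    (ha : ∀ c, a c ∈ M) (hap : ∀ c, a c ^ p = 1) {k : ℕ} (hk : k < p)
    (hak : ∀ c, (a c - 1) ^ k = 0)
    (hirr : ∀ U : Submodule (ZMod p) V, (∀ c, ∀ x ∈ U, a c x ∈ U) → U = ⊥ ∨ U = ⊤)
    {v₁ v₂ : V} {f : Module.Dual (ZMod p) V} (z1 : f v₁ = 0) (z2 : f v₂ = 0) (m1 : tv v₁ f ∈ M)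
    (m2 : tv v₂ f ∈ M) (hf : f ≠ 0)
    (hv : ∀ s t : ZMod p, s • v₁ + t • v₂ = 0 → s = 0 ∧ t = 0) :
    ∀ v g, g v = 0 → tv v g ∈ M := by
  let R : V → Module.Dual (ZMod p) V → Prop := fun v f => f v = 0 ∧ tv v f ∈ M
  have addl : ∀ {v v' f}, R v f → R v' f → R (v + v') f := fun {v v' f} h1 h2 =>
    ⟨by simp [h1.1, h2.1], by
      have e : tv (v + v') f = tv v f * tv v' f := by
        ext x; simp [tv_apply, h2.1]; abel
      exact e ▸ M.mul_mem h1.2 h2.2⟩
  have addr : ∀ {v f f'}, R v f → R v f' → R v (f + f') := fun {v f f'} h1 h2 =>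
    ⟨by simp [h1.1, h2.1], by
      have e : tv v (f + f') = tv v f * tv v f' := by
        ext x; simp [tv_apply, h1.1, add_smul]; abel
      exact e ▸ M.mul_mem h1.2 h2.2⟩
  have smull : ∀ {v f} (c : ZMod p), R v f → R (c • v) f := fun {v f} c h1 => by
    obtain ⟨n, rfl⟩ := ZMod.natCast_zmod_surjective c
    induction n with
    | zero => exact ⟨by simp, by simp [tv]⟩
    | succ n ih => simpa [add_smul] using addl ih h1
  have smulr : ∀ {v f} (c : ZMod p), R v f → R v (c • f) := fun {v f} c h1 =>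
    ⟨by simp [h1.1], by
      have e : tv v (c • f) = tv (c • v) f := by
        ext x; simp [tv_apply, smul_smul, mul_comm]
      exact e ▸ (smull c h1).2⟩
  have cj : ∀ {v f g g'}, g ∈ M → g' ∈ M → g * g' = 1 → g' * g = 1 → R v f →
      R (g v) (f ∘ₗ g') := fun {v f g g'} h1 h2 h3 h4 h5 =>
    ⟨by rw [LinearMap.comp_apply, ← Module.End.mul_apply, h4]; exact h5.1, by
      have e : tv (g v) (f ∘ₗ g') = g * tv v f * g' := by
        ext x
        simp only [tv_apply, Module.End.mul_apply, map_add, map_smul, LinearMap.comp_apply]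
        rw [← Module.End.mul_apply, h3]; rfl
      exact e ▸ M.mul_mem (M.mul_mem h1 h5.2) h2⟩
  have n1 : v₁ ≠ 0 := fun e => one_ne_zero (hv 1 0 (by simp [e])).1
  have hB : ∀ g : Module.Dual (ZMod p) V, g ≠ 0 → ∃ x, g x ≠ 0 := fun g hg => by
    by_contra hc
    push Not at hc
    exact hg (LinearMap.ext hc)
  have hN : ∀ w : V, w ≠ 0 → ∃ u g, R u g ∧ u ≠ 0 ∧ g w ≠ 0 := fun w hw => by
    let N : Submodule (ZMod p) V :=
      { carrier := {x | ∀ u g, R u g → u ≠ 0 → g x = 0}
        add_mem' := fun ha hb u g h1 h2 => by simp [ha u g h1 h2, hb u g h1 h2]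
        zero_mem' := fun u g _ _ => by simp
        smul_mem' := fun c x ha u g h1 h2 => by simp [ha u g h1 h2] }
    by_contra hc
    push Not at hc
    rcases hirr N (fun c x hx u g h1 h2 => by
      obtain ⟨a', b1, b2, b3⟩ := hinv _ (ha c)
      exact hx _ _ (cj b1 (ha c) b3 b2 h1) fun e => h2 (by
        have h3 : (a c * a') u = u := by rw [b2]; rfl
        rw [← h3, Module.End.mul_apply, e, map_zero])) with e | e
    · exact hw ((Submodule.mem_bot _).1 (e ▸ (show w ∈ N from hc)))
    · obtain ⟨x, hx⟩ := hB f hf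
      exact hx ((show x ∈ N from e ▸ Submodule.mem_top) v₁ f ⟨z1, m1⟩ n1)
  have irrl : ∀ U : Submodule (ZMod p) V, (∀ u g, R u g → (∃ x ∈ U, g x ≠ 0) → u ∈ U) →
      U = ⊥ ∨ U = ⊤ := fun U hU => by
    by_cases h0 : U = ⊥
    · exact Or.inl h0
    obtain ⟨W, ⟨w1, w2, w3⟩, w4⟩ := (wellFounded_lt (α := Submodule (ZMod p) V)).has_min
      {W | W ≤ U ∧ W ≠ ⊥ ∧ ∀ u g, R u g → (∃ x ∈ W, g x ≠ 0) → u ∈ W} ⟨U, le_rfl, h0, hU⟩
    refine Or.inr (top_le_iff.1 (((hirr W fun c => ?_).resolve_left w2).ge.trans w1))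
    by_contra hc
    obtain ⟨w, hw, hw0⟩ := (Submodule.ne_bot_iff W).1 w2
    obtain ⟨u, g, r1, r2, r3⟩ := hN w hw0
    have hu := w3 u g r1 ⟨w, hw, r3⟩
    have key := small_deg (a := a c) (g := g) (w := w) (k := k) (fun i h1 h2 => by
      by_contra h3
      have e1 : a c ^ (p - i) * a c ^ i = 1 := by rw [← pow_add, Nat.sub_add_cancel (by omega), hap]
      have e2 : a c ^ i * a c ^ (p - i) = 1 := by
        rw [← pow_add, Nat.add_sub_cancel' (by omega), hap]
      have inv : ∀ u g, R u g → (∃ x ∈ W.map (a c ^ i), g x ≠ 0) → u ∈ W.map (a c ^ i) := by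
        rintro u g r ⟨_, ⟨y, hy, rfl⟩, h4⟩
        exact ⟨_, w3 _ _ (cj (M.pow_mem (ha c) _) (M.pow_mem (ha c) _) e1 e2 r) ⟨y, hy, h4⟩, by
          rw [← Module.End.mul_apply, e2]; rfl⟩
      have h4 : W ≤ W.map (a c ^ i) := by
        by_contra h4
        refine w4 (W ⊓ W.map (a c ^ i)) ⟨inf_le_left.trans w1, (Submodule.ne_bot_iff _).2
          ⟨u, ⟨hu, inv u g r1 ⟨_, ⟨w, hw, rfl⟩, h3⟩⟩, r2⟩, fun u g r ⟨x, hx, h5⟩ =>
          ⟨w3 u g r ⟨x, hx.1, h5⟩, inv u g r ⟨x, hx.2, h5⟩⟩⟩ (inf_lt_left.2 h4)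
      have h5 : ∀ n, ∀ x ∈ W, (a c ^ ((p - i) * n)) x ∈ W := fun n => by
        induction n with
        | zero => simp
        | succ n ih =>
          intro x hx
          obtain ⟨y, hy, rfl⟩ := h4 hx
          rw [mul_add_one, pow_add, ← Module.End.mul_apply, mul_assoc, e1, mul_one]
          exact ih y hy
      obtain ⟨n, -, hn⟩ := Nat.exists_mul_mod_eq_one_of_coprime
        (Nat.coprime_of_lt_prime (by omega : p - i ≠ 0) (by omega : p - i < p) hp.out).symm
        hp.out.one_lt
      refine hc fun x hx => ?_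
      have h6 := h5 n x hx
      rwa [← Nat.div_add_mod ((p - i) * n) p, hn, pow_add, pow_mul, hap, one_pow, one_mul,
        pow_one] at h6) k 0 (by omega)
    rw [hak] at key
    exact r3 (by simpa using key)
  have ts : TS (Module.Dual.eval (ZMod p) V) R :=
    { zero := fun h => h.1
      addl := addl
      addr := addr
      smull := smull
      smulr := smulr
      conj := fun {v f u g} h1 h2 => by
        have e : ∀ s t : ZMod p, s + t = 0 → tv (s • u) g * tv (t • u) g = 1 := fun s t h => by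
          ext x
          simp [tv_apply, h2.1, smul_smul, add_assoc, ← add_smul, ← mul_add, add_comm t s, h]
        have h3 := cj (smull 1 h2).2 (smull (-1) h2).2 (e _ _ (by simp)) (e _ _ (by simp)) h1
        convert h3 using 1
        · simp [tv_apply]
        · ext x; simp [tv_apply, sub_eq_add_neg, mul_comm]
      irrl := irrl
      irrr := fun D hD => by
        rcases irrl D.dualCoannihilator (fun u g r ⟨x, hx, h1⟩ => by
          rw [Submodule.mem_dualCoannihilator] at hx ⊢
          by_contra hc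
          push Not at hc
          exact h1 (hx g (hD u g r hc))) with e | e
        · right; rw [← Subspace.dualCoannihilator_dualAnnihilator_eq (W := D), e]; simp
        · left; rw [← Subspace.dualCoannihilator_dualAnnihilator_eq (W := D), e]; simp }
  exact fun v g e => (ts.all hB ⟨z1, m1⟩ ⟨z2, m2⟩ hf hv v g e).2

end MP77.S99
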