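import Pool.Agent.Lib.MP_77f37b_al.SGlue

/-! Supports, and the passage through a one-dimensional cut. -/

namespace MP77.S99
open Finset

variable {K : Type} [Field K] {N : ℕ} {φ : List Bool → K}

theorem pos_add (hN : 0 < N) (x k : ℕ) : (x + k) % N = x % N + k ∧ x % N + k < N ∨
    (x + k) % N < k ∧ N ≤ x % N + k := by
  have h1 := Nat.mod_lt x hN
  rw [← Nat.mod_add_mod]
  by_cases h : x % N + k < N
  · exact Or.inl ⟨Nat.mod_eq_of_lt h, h⟩
  · rw [Nat.mod_eq_sub_mod (by omega)]
    have := Nat.mod_le (x % N + k - N) N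
    omega

/-- support between two positions of the cycle -/
def Sup (N : ℕ) (f : List Bool → K) (lo hi : ℕ) : Prop :=
  ∀ v, f v ≠ 0 → lo ≤ v.length % N ∧ v.length % N ≤ hi

/-- operators that read at most `n` further letters -/
def Dg (T : Module.End K (List Bool → K)) (n : ℕ) : Prop :=
  ∀ f v, T f v ≠ 0 → ∃ m : List Bool, m.length ≤ n ∧ f (v ++ m) ≠ 0

/-- shift by a word -/
def sh (m : List Bool) : Module.End K (List Bool → K) := LinearMap.funLeft K K (· ++ m)

theorem sh_apply (m v : List Bool) (f : List Bool → K) : sh m f v = f (v ++ m) := rfl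

/-- projection to one position -/
def pr (N i : ℕ) : Module.End K (List Bool → K) where
  toFun f v := if v.length % N = i then f v else 0
  map_add' f g := by funext v; simp only [Pi.add_apply]; split_ifs <;> simp
  map_smul' c f := by funext v; simp only [Pi.smul_apply]; split_ifs <;> simp

theorem pr_apply (i : ℕ) (v : List Bool) (f : List Bool → K) :
    pr N i f v = if v.length % N = i then f v else 0 := rfl

theorem dg_rep {x : FA} {n : ℕ} (hx : ∀ m, n < m.length → co x m = 0) : Dg (rep K x) n := by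
  intro f v h
  rw [rep_apply K x n hx] at h
  obtain ⟨i, hi, h⟩ := exists_ne_zero_of_sum_ne_zero h
  obtain ⟨m, hm, h⟩ := exists_ne_zero_of_sum_ne_zero h
  exact ⟨m, by rw [(mem_W _ _).1 hm]; exact Nat.lt_succ_iff.1 (mem_range.1 hi),
    right_ne_zero_of_mul h⟩

theorem dg_Aw (w : List Bool) : Dg (rep K (Aw w)) w.length :=
  dg_rep fun m hm => by rw [co_Aw, E_eq_zero w m hm]; rfl

theorem dg_sh (m : List Bool) : Dg (sh (K := K) m) m.length := fun _ _ h => ⟨m, le_rfl, h⟩

theorem Dg.mono {T : Module.End K (List Bool → K)} {n n' : ℕ} (h : Dg T n) (hn : n ≤ n') :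
    Dg T n' := fun f v h1 => by obtain ⟨m, h2, h3⟩ := h f v h1; exact ⟨m, h2.trans hn, h3⟩

theorem Dg.sup {T : Module.End K (List Bool → K)} {n lo hi : ℕ} {f : List Bool → K} (h : Dg T n)
    (hN : 0 < N) (hf : Sup N f lo hi) (hn : n ≤ lo) : Sup N (T f) (lo - n) hi := fun v hv => by
  obtain ⟨m, h1, h2⟩ := h f v hv
  have h3 := hf _ h2
  rw [List.length_append] at h3
  have := pos_add hN v.length m.length
  omega

theorem Dg.kills {T : Module.End K (List Bool → K)} {n lo hi a b : ℕ} {f : List Bool → K}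
    (h : Dg T n) (h1 : Sup N (T f) lo hi) (hn : hi + n < N) (hf : Sup N f a b)
    (hab : b < lo ∨ hi + n < a) : T f = 0 := by
  funext v
  by_contra hv
  obtain ⟨m, h2, h3⟩ := h f v hv
  have h4 := hf _ h3
  have h5 := h1 v hv
  rw [List.length_append] at h4
  have := pos_add (by omega : 0 < N) v.length m.length
  omega

theorem E_top : ∀ w m : List Bool, m.length = w.length → E w m = if m = w then 1 else 0
  | [], [], _ => by simp
  | e :: w, c :: m, h => by
    rw [E_cons_cons, E_eq_zero w (c :: m) (by simp at h ⊢; omega), E_top w m (by simpa using h)]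
    by_cases h1 : c = e <;> simp [h1]

theorem C_top {w : List Bool} (hw : 0 < w.length) (k : ℕ) : ∀ m : List Bool,
    m.length = k * w.length → C k w m = if m = (List.replicate k w).flatten then 1 else 0 := by
  induction k with
  | zero => intro m _; simp [C, co_one]
  | succ k ih =>
    intro m hm
    rw [add_one_mul] at hm
    rw [C_succ, sum_eq_single w.length (fun i hi h1 => ?_) (fun h => by simp at h; omega), co_z,
      if_neg (fun e => by
        have := congrArg List.length e
        rw [List.length_take, List.length_nil] at this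
        omega),
      E_top _ _ (by simp; omega), ih _ (by simp; omega), List.replicate_succ, List.flatten_cons]
    · by_cases h1 : m = w ++ (List.replicate k w).flatten
      · simp [h1]
      · rw [if_neg h1]
        split_ifs with h2 h3
        · exact absurd (by rw [← h3]; nth_rw 1 [← h2]; rw [List.take_append_drop]) h1
        all_goals simp
    · have := mem_range.1 hi
      rcases lt_or_gt_of_ne h1 with h2 | h2
      · rw [C_zero w k _ (by simp; omega), mul_zero]
      · rw [co_z, E_eq_zero w _ (by simp; omega)]; simp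

theorem rep_top {x : FA} {μ : List Bool} (h1 : ∀ m, μ.length < m.length → co x m = 0)
    (h2 : ∀ m, m.length = μ.length → co x m = if m = μ then 1 else 0) {f : List Bool → K}
    {v : List Bool} (h3 : ∀ m : List Bool, m.length < μ.length → f (v ++ m) = 0) :
    rep K x f v = f (v ++ μ) := by
  rw [rep_apply K x _ h1, sum_range_succ, sum_eq_zero fun n hn => sum_eq_zero fun m hm => by
    rw [h3 m (by rw [(mem_W _ _).1 hm]; exact mem_range.1 hn), mul_zero], zero_add,
    sum_eq_single μ (fun m hm h => by rw [h2 m ((mem_W _ _).1 hm), if_neg h]; simp)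
      (fun h => absurd ((mem_W _ _).2 rfl) h), h2 μ rfl]
  simp

theorem split_len (v : List Bool) : ∃ t u, v = t ++ u ∧ N ∣ t.length ∧ u.length = v.length % N := by
  have h1 := Nat.div_add_mod v.length N
  refine ⟨v.take (N * (v.length / N)), v.drop (N * (v.length / N)), by simp, ⟨v.length / N, ?_⟩, ?_⟩
  · rw [List.length_take]; omega
  · rw [List.length_drop]; omega

/-- the space is one-dimensional at the position `c` -/
def Cut (N : ℕ) (φ : List Bool → K) (c : ℕ) : Prop := ∃ u₀ t₀ : List Bool, u₀.length = c ∧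
  c + t₀.length = N ∧ Phi N φ (u₀ ++ t₀) ≠ 0 ∧
  ∀ g ∈ V N φ, ∀ g' ∈ V N φ, ∀ v : List Bool, v.length % N = c → g u₀ * g' v = g' u₀ * g v

theorem cut_al {M S s : ℕ} {ψ : ℕ → List Bool → K} {mw : ℕ → List Bool} (hM : 0 < M)
    (H : ∀ s, (mw s).length = M) (H' : ∀ s, ψ s (mw s) ≠ 0) (h0 : 0 < s) (hs : s ≤ S) :
    Cut (S * M) (al M ψ S) (s * M) := by
  have hN : 0 < S * M := Nat.mul_pos (by omega) hM
  obtain ⟨t₀, ht⟩ := pre_le mw hs
  obtain ⟨β, hβ⟩ := al_split M ψ hs
  have l1 := pre_len H s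
  have l2 := pre_len H S
  have key : ∀ u : List Bool, u.length = s * M → ∀ g ∈ V (S * M) (al M ψ S),
      al M ψ s (pre mw s) * g u = al M ψ s u * g (pre mw s) := fun u hu =>
    V_ind (by simp) (fun f g h1 h2 => by simp [h1, h2, mul_add])
      (fun c f h1 => by simp only [Pi.smul_apply, smul_eq_mul, mul_left_comm _ c, h1]) fun t h => by
      beta_reduce
      by_cases e : s * M + t.length = S * M
      · have e1 : (u ++ t).length = S * M := by rw [List.length_append, hu, e]
        have e2 : (pre mw s ++ t).length = S * M := by rw [List.length_append, l1, e]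
        rw [Phi_block _ hN e1, Phi_block _ hN e2, hβ _ _ hu e1, hβ _ _ l1 e2]
        ring
      · have e1 : ¬ S * M ∣ s * M + t.length := fun ⟨j, hj⟩ => by
          have h1 := Nat.mul_pos h0 hM
          have h2 := Nat.mul_le_mul_right M hs
          rcases j with _ | _ | j
          · omega
          · omega
          · rw [mul_add, mul_add] at hj; omega
        rw [Phi_zero _ _ (m := u ++ t) (by rwa [List.length_append, hu]),
          Phi_zero _ _ (m := pre mw s ++ t) (by rwa [List.length_append, l1]), mul_zero, mul_zero]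
  refine ⟨pre mw s, t₀, l1, by rw [← l1, ← List.length_append, ← ht, l2], ?_,
    fun g hg g' hg' v hv => ?_⟩
  · rw [← ht, Phi_block _ hN l2]; exact al_pre H H' S
  · obtain ⟨t, u, rfl, h1, h2⟩ := split_len (N := S * M) v
    rw [V_app hN h1 u g hg, V_app hN h1 u g' hg']
    refine mul_left_cancel₀ (al_pre H H' s) ?_
    linear_combination Phi (S * M) (al M ψ S) t * (g (pre mw s) * key u (h2.trans hv) g' hg' -
      g' (pre mw s) * key u (h2.trans hv) g hg)

theorem pr_sh {α c : ℕ} (hc : c < N) {m : List Bool} (hm : α + m.length = c) (g : List Bool → K) :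
    pr N α (sh m g) = sh m (pr N c g) := by
  funext v
  have := pos_add (by omega : 0 < N) v.length m.length
  simp only [pr_apply, sh_apply, List.length_append]
  exact if_congr (by omega) rfl rfl

theorem conn {Z : Module.End K (List Bool → K)} {n lo hi c hi' : ℕ} (hZ : Dg Z n)
    (loc : ∀ f ∈ V N φ, Sup N (Z f) lo hi) (hlo : 0 < lo) (nz : ∃ f ∈ V N φ, Z f ≠ 0)
    (hc : hi + n ≤ c) (hcN : c < N) (cut : Cut N φ c) {T : Set (List Bool → K)}
    (hT : ∀ f ∈ T, f ∈ V N φ ∧ Sup N f c hi') (nT : ∃ f ∈ T, f ≠ 0) :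
    ∃ (m u₁ t : List Bool) (κ : K), m.length + lo ≤ hi' ∧ κ • Z (sh t (Phi N φ)) ≠ 0 ∧
      (∀ f ∈ T, Z (rep K (Aw m) f) = f u₁ • κ • Z (sh t (Phi N φ)) ∧
        Z (sh m f) = f u₁ • κ • Z (sh t (Phi N φ))) ∧ ∃ f ∈ T, f u₁ ≠ 0 := by
  classical
  have hN : 0 < N := by omega
  obtain ⟨u₀, t₀, l1, l2, n0, hcut⟩ := cut
  have hQ : ∃ i, ∀ g ∈ V N φ, Sup N g i N → Z g = 0 :=
    ⟨c + 1, fun g hg h => hZ.kills (loc g hg) (by omega) h (by omega)⟩
  have all : ∀ g : List Bool → K, Sup N g 0 N := fun g v _ => ⟨by omega, (Nat.mod_lt _ hN).le⟩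
  obtain ⟨α, hα⟩ : ∃ α, Nat.find hQ = α + 1 := Nat.exists_eq_succ_of_ne_zero fun e => by
    obtain ⟨f, hf, h⟩ := nz
    exact h (Nat.find_spec hQ f hf (e ▸ all f))
  have hαc : α + 1 ≤ c + 1 := hα ▸ Nat.find_min' hQ
    fun g hg h => hZ.kills (loc g hg) (by omega) h (by omega)
  have fA : ∀ g ∈ V N φ, Sup N g α N → Z g = Z (pr N α g) := fun g hg h => by
    rw [← sub_eq_zero, ← map_sub]
    refine Nat.find_spec hQ _ ((V N φ).sub_mem hg (V_proj α g hg)) fun v hv => ?_
    rw [Pi.sub_apply, pr_apply] at hv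
    split_ifs at hv with e
    · simp at hv
    · have := h v (by simpa using hv)
      omega
  obtain ⟨g₀, m0, s0, z0⟩ : ∃ g ∈ V N φ, Sup N g α N ∧ Z g ≠ 0 := by
    have := Nat.find_min hQ (m := α) (by omega)
    push Not at this
    exact this
  rw [fA g₀ m0 s0] at z0
  have hlα : lo ≤ α := by
    by_contra h
    refine z0 (hZ.kills (loc _ (V_proj α g₀ m0)) (by omega) (a := α) (b := α) (fun v hv => ?_)
      (by omega))
    by_contra h1
    exact hv (if_neg (by omega))
  have hB : ∃ i, ∃ f ∈ T, ∃ v, f v ≠ 0 ∧ v.length % N = i := by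
    obtain ⟨f, hf, h⟩ := nT
    obtain ⟨v, hv⟩ := Function.ne_iff.1 h
    exact ⟨_, f, hf, v, hv, rfl⟩
  obtain ⟨f₀, t0, v₀, z1, p0⟩ := Nat.find_spec hB
  have hmin : ∀ f ∈ T, Sup N f (Nat.find hB) N := fun f hf v hv =>
    ⟨Nat.find_min' hB ⟨f, hf, v, hv, rfl⟩, (Nat.mod_lt _ hN).le⟩
  have b1 := (hT f₀ t0).2 v₀ z1
  have b2 := Nat.mod_lt v₀.length hN
  generalize Nat.find hB = β at *
  obtain ⟨t₁, v₁, rfl, d1, d2⟩ := split_len (N := N) v₀
  rw [V_app hN d1 v₁ f₀ (hT f₀ t0).1] at z1
  obtain ⟨v₂, m', rfl, l3⟩ : ∃ v₂ m', v₁ = v₂ ++ m' ∧ v₂.length = c :=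
    ⟨v₁.take c, v₁.drop c, by simp, by rw [List.length_take]; omega⟩
  have l4 : c + m'.length = β := by rw [← l3, ← List.length_append, d2, p0]
  have me : sh t₀ (Phi N φ) ∈ V N φ := shift_mem φ hN t₀
  have fB : ∀ g ∈ V N φ, pr N c g = (g u₀ * (Phi N φ (u₀ ++ t₀))⁻¹) • sh t₀ (Phi N φ) := by
    intro g hg
    funext v
    rw [pr_apply, Pi.smul_apply, smul_eq_mul]
    split_ifs with e
    · rw [mul_right_comm, hcut g hg _ me v e, sh_apply, mul_right_comm, mul_inv_cancel₀ n0, one_mul]
    · rw [sh_apply, Phi_zero N φ (m := v ++ t₀), mul_zero]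
      rw [List.length_append]
      intro hd
      have h1 := Nat.mod_eq_zero_of_dvd hd
      rcases pos_add hN v.length t₀.length with h2 | h2
      · omega
      · rw [← Nat.mod_add_mod, Nat.mod_eq_sub_mod h2.2,
          Nat.mod_eq_of_lt (by have := Nat.mod_lt v.length hN; omega)] at h1
        omega
  obtain ⟨m'', l5, z2⟩ : ∃ m'' : List Bool, α + m''.length = c ∧
      Z (sh (m'' ++ t₀) (Phi N φ)) ≠ 0 := by
    by_contra hcon
    push Not at hcon
    refine z0 (V_ind (P := fun g => Z (pr N α g) = 0) (by simp)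
      (fun f g h1 h2 => by simp [h1, h2]) (fun k f h1 => by simp [h1]) (fun t _ => ?_) g₀ m0)
    by_cases e : c - α ≤ t.length
    · obtain ⟨t₁, t₂, rfl, l⟩ : ∃ t₁ t₂, t = t₁ ++ t₂ ∧ α + t₁.length = c :=
        ⟨t.take (c - α), t.drop (c - α), by simp, by rw [List.length_take]; omega⟩
      have e1 : (fun v => Phi N φ (v ++ (t₁ ++ t₂))) = sh t₁ (sh t₂ (Phi N φ)) := by
        funext v; simp [sh_apply]
      have e2 : sh t₁ (sh t₀ (Phi N φ)) = sh (t₁ ++ t₀) (Phi N φ) := by funext v; simp [sh_apply]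
      rw [e1, pr_sh hcN l, fB (sh t₂ (Phi N φ)) (shift_mem φ hN t₂), map_smul, map_smul, e2, hcon t₁ l, smul_zero]
    · convert map_zero Z using 2
      funext v
      rw [pr_apply]
      split_ifs with e1
      · refine Phi_zero N φ fun hd => ?_
        have h1 := Nat.mod_eq_zero_of_dvd hd
        rw [List.length_append] at h1
        have := pos_add hN v.length t.length
        omega
      · rfl
  have l6 : (m'' ++ m').length = β - α := by rw [List.length_append]; omega
  refine ⟨m'' ++ m', u₀ ++ m', m'' ++ t₀, (Phi N φ (u₀ ++ t₀))⁻¹, by omega,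
    smul_ne_zero (inv_ne_zero n0) z2, fun f hf => ?_, f₀, t0, fun e => ?_⟩
  · have hV := (hT f hf).1
    have s1 : ∀ U : Module.End K (List Bool → K), Dg U (m'' ++ m').length → Sup N (U f) α N :=
      fun U hU => by
        have := hU.sup hN (hmin f hf) (by omega)
        rwa [show β - (m'' ++ m').length = α by omega] at this
    have s2 : sh (m'' ++ m') f ∈ V N φ := V_sh hN _ f hV
    have e1 : Z (sh (m'' ++ m') f) = f (u₀ ++ m') • (Phi N φ (u₀ ++ t₀))⁻¹ •
        Z (sh (m'' ++ t₀) (Phi N φ)) := by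
      have e2 : sh (m'' ++ m') f = sh m'' (sh m' f) := by funext v; simp [sh_apply]
      have e3 : sh m'' (sh t₀ (Phi N φ)) = sh (m'' ++ t₀) (Phi N φ) := by funext v; simp [sh_apply]
      rw [fA _ s2 (s1 _ (dg_sh _)), e2, pr_sh hcN l5, fB (sh m' f) (V_sh hN m' f hV), map_smul,
        map_smul, e3, smul_smul]
      rfl
    refine ⟨?_, e1⟩
    rw [← e1, fA _ (V_Aw hN _ f hV) (s1 _ (dg_Aw _)), fA _ s2 (s1 _ (dg_sh _))]
    congr 1
    funext v
    rw [pr_apply, pr_apply]
    split_ifs with e
    · refine rep_top (fun m hm => by rw [co_Aw, E_eq_zero _ m hm]; rfl)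
        (fun m hm => by rw [co_Aw, E_top _ m hm]; simp) fun m hm => ?_
      by_contra h1
      have h2 := hmin f hf _ h1
      rw [List.length_append] at h2
      have := pos_add hN v.length m.length
      omega
    · rfl
  · have h1 := hcut _ (V_sh hN m' f₀ (hT f₀ t0).1) _ me v₂ (by rw [l3, Nat.mod_eq_of_lt hcN])
    rw [e, zero_mul] at h1
    exact mul_ne_zero n0 (right_ne_zero_of_mul z1) h1.symm

end MP77.S99
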