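import Pool.Agent.Lib.MP_77f37b_al.SLevel
import Pool.Agent.Lib.MP_77f37b_al.SCliff

/-! The glued representation is irreducible and contains all transvections. -/

namespace MP77.S99
open Finset

section
variable {K : Type} [Field K] {M S N : ℕ} {φ : List Bool → K}

theorem irred {μ₁ μ₂ : List Bool} {s t : ℕ} (n1 : Near M S φ (sh μ₁) s) (n2 : Near M S φ (sh μ₂) t)
    (hM : 0 < M) (ht : 1 < t) (hs : t + 3 ≤ s) (hS : s < S) (cut : Cut (S * M) φ ((t + 2) * M))
    (U : Submodule K (List Bool → K)) (hU : U ≤ V (S * M) φ)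
    (inv : ∀ c, ∀ f ∈ U, rep K (gen c) f ∈ U) (h0 : U ≠ ⊥) : V (S * M) φ ≤ U := by
  have hN : 0 < S * M := Nat.mul_pos (by omega) hM
  have shU : ∀ m : List Bool, ∀ f ∈ U, sh m f ∈ U := fun m => by
    induction m with
    | nil => intro f hf; convert hf using 1; funext v; simp [sh_apply]
    | cons c m ih =>
      intro f hf
      convert U.sub_mem (inv c _ (ih f hf)) (ih f hf) using 1
      funext v
      simp [sh_apply, rep_gen]
  obtain ⟨m, u₁, t', κ, -, z1, h1, _, ⟨f₀, m0, rfl⟩, z2⟩ := conn (φ := φ) n2.dg n2.loc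
    (Nat.mul_pos (by omega) hM) n2.nz (le_of_eq (by ring)) (Nat.mul_lt_mul_of_pos_right
      (by omega) hM) cut (T := {g | ∃ f ∈ V (S * M) φ, sh μ₁ f = g}) (hi' := (s + 1) * M) (by
      rintro _ ⟨f, hf, rfl⟩
      exact ⟨V_sh hN _ f hf, fun v hv => ⟨le_trans (Nat.mul_le_mul_right M (by omega))
        (n1.loc f hf v hv).1, (n1.loc f hf v hv).2⟩⟩) (by
      obtain ⟨f, hf, h⟩ := n1.nz
      exact ⟨_, ⟨f, hf, rfl⟩, h⟩)
  obtain ⟨f, hf, z3⟩ := (Submodule.ne_bot_iff U).1 h0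
  obtain ⟨u, z4⟩ := Function.ne_iff.1 z3
  obtain ⟨r, z5⟩ : ∃ r, Phi (S * M) φ (u₁ ++ μ₁ ++ r) ≠ 0 := by
    by_contra hc
    push Not at hc
    exact z2 (V_ind (P := fun g => g (u₁ ++ μ₁) = 0) rfl (fun f g h1 h2 => by simp [h1, h2])
      (fun k f h1 => by simp [h1]) (fun t _ => hc t) f₀ m0)
  have z6 : sh μ₁ (sh (r ++ u) f) u₁ ≠ 0 := by
    rw [sh_apply, sh_apply, ← List.append_assoc,
      V_app hN (by by_contra h; exact z5 (Phi_zero _ _ h)) u f (hU hf)]
    exact mul_ne_zero z5 z4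
  have m1 := shU μ₂ _ (shU m _ (shU μ₁ _ (shU (r ++ u) f hf)))
  rw [(h1 _ ⟨sh (r ++ u) f, V_sh hN _ f (hU hf), rfl⟩).2, smul_smul,
    U.smul_mem_iff (mul_ne_zero z6 (left_ne_zero_of_smul z1))] at m1
  obtain ⟨v, z7⟩ := Function.ne_iff.1 (right_ne_zero_of_smul z1)
  have z8 : Phi (S * M) φ (v ++ μ₂ ++ t') ≠ 0 := z7
  have m2 : Phi (S * M) φ ∈ U := by
    rw [← U.smul_mem_iff z8]
    convert shU v _ m1 using 1
    funext x
    simp only [sh_apply, Pi.smul_apply, smul_eq_mul, List.append_assoc] at z8 ⊢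
    rw [Phi_app φ hN (m₁ := x) (Or.inr (by by_contra h; exact z8 (Phi_zero _ _ h))), mul_comm]
  exact V_ind U.zero_mem (fun _ _ => U.add_mem) (fun c _ => U.smul_mem c) fun t _ => shU t _ m2

theorem dim_ge (hM : 0 < M) (hS : 0 < S) (cut : ∀ s, 0 < s → s ≤ S → Cut (S * M) φ (s * M)) :
    S ≤ Module.finrank K (V (S * M) φ) := by
  have hN : 0 < S * M := Nat.mul_pos hS hM
  have := V_finite (N := S * M) φ
  choose u t l1 l2 z _ using fun i : Fin S => cut (i + 1) (by omega) i.2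
  have li : LinearIndependent K fun i : Fin S =>
      (⟨_, shift_mem φ hN (t i)⟩ : V (S * M) φ) := by
    rw [Fintype.linearIndependent_iff]
    intro g hg j
    have h1 := congrFun (congrArg Subtype.val hg) (u j)
    rw [Submodule.coe_sum, Finset.sum_apply, sum_eq_single j (fun i _ hij => ?_) (by simp)] at h1
    · exact (mul_eq_zero.1 h1).resolve_right (z j)
    · refine mul_eq_zero_of_right _ (Phi_zero _ _ fun ⟨k, hk⟩ => hij (Fin.ext ?_))
      rw [List.length_append, l1] at hk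
      have h2 := l2 i
      have h3 := Nat.mul_le_mul_right M (show (j : ℕ) + 1 ≤ S from j.2)
      have h4 := Nat.mul_pos (show 0 < (i : ℕ) + 1 by omega) hM
      have h5 := Nat.mul_pos (show 0 < (j : ℕ) + 1 by omega) hM
      have h6 : (i + 1) * M = (j + 1) * M := by
        rcases k with _ | _ | k
        · omega
        · omega
        · rw [mul_add, mul_add] at hk; omega
      simpa [hM.ne'] using h6
  simpa using li.fintype_card_le_finrank

theorem comm_mem {R : Type} [Ring R] (G : Submonoid R)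
    (hinv : ∀ g ∈ G, ∃ g' ∈ G, g * g' = 1 ∧ g' * g = 1) {A B : R} (hA : 1 + A ∈ G)
    (hB : 1 + B ∈ G) (h : A * B = 0) : 1 + B * A ∈ G := by
  obtain ⟨a, a1, -, a3⟩ := hinv _ hA
  obtain ⟨b, b1, b2, -⟩ := hinv _ hB
  have e1 : a * B = B := by
    nth_rw 1 [← show (1 + A) * B = B by rw [add_mul, h, add_zero, one_mul]]
    rw [← mul_assoc, a3, one_mul]
  have e2 : A * b = A := by
    nth_rw 1 [← show A * (1 + B) = A by rw [mul_add, h, add_zero, mul_one]]
    rw [mul_assoc, b2, mul_one]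
  have e3 : (1 + B) * (1 + A) = (1 + A) * (1 + B) + B * A := by
    simp only [mul_add, add_mul, h, one_mul, mul_one]; abel
  have e4 : a * ((1 + B) * (1 + A)) * b = 1 + B * A := by
    rw [e3, mul_add, add_mul, ← mul_assoc, a3, one_mul, b2, ← mul_assoc, e1, mul_assoc, e2]
  exact e4 ▸ G.mul_mem (G.mul_mem a1 (G.mul_mem hB hA)) b1

variable (φ) in
/-- the generators on the span of the shifts -/
noncomputable def aa (hN : 0 < N) (c : Bool) : Module.End K (V N φ) :=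
  (rep K (gen c)).restrict (V_gen φ hN c)

theorem RR_val (hN : 0 < N) (w : List Bool) (x : V N φ) :
    ((w.map (aa φ hN)).prod x).1 = rep K (Aw w) x.1 := by
  induction w with
  | nil => simp [Aw]
  | cons c w ih =>
    rw [List.map_cons, List.prod_cons, Module.End.mul_apply,
      show Aw (c :: w) = gen c * Aw w by simp [Aw], map_mul, Module.End.mul_apply, ← ih]
    rfl

theorem RR_z (hN : 0 < N) (w : List Bool) (k : ℕ) (x : V N φ) :
    ((((w.map (aa φ hN)).prod - 1) ^ k) x).1 = rep K ((Aw w - 1) ^ k) x.1 := by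
  induction k with
  | zero => simp
  | succ k ih =>
    rw [pow_succ', pow_succ', map_mul, Module.End.mul_apply, Module.End.mul_apply, ← ih, map_sub,
      map_one, LinearMap.sub_apply, LinearMap.sub_apply, Submodule.coe_sub, RR_val]
    rfl

end

/-- values of positive words -/
def Mon {R : Type} [Monoid R] (a : Bool → R) : Submonoid R where
  carrier := {g | ∃ w : List Bool, (w.map a).prod = g}
  one_mem' := ⟨[], rfl⟩
  mul_mem' := by rintro _ _ ⟨w, rfl⟩ ⟨w', rfl⟩; exact ⟨w ++ w', by simp⟩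

theorem ex_inv {R : Type} [Monoid R] {a : Bool → R} {p : ℕ} (hp : 0 < p) (ha : ∀ c, a c ^ p = 1)
    (w : List Bool) : ∃ w' : List Bool, w'.length ≤ p * w.length ∧
      (w.map a).prod * (w'.map a).prod = 1 ∧ (w'.map a).prod * (w.map a).prod = 1 := by
  induction w with
  | nil => exact ⟨[], by simp⟩
  | cons c w ih =>
    obtain ⟨w', h1, h2, h3⟩ := ih
    obtain ⟨k, rfl⟩ := Nat.exists_eq_succ_of_ne_zero hp.ne'
    refine ⟨w' ++ List.replicate k c, by simp [mul_add, Nat.succ_eq_add_one] at h1 ⊢; omega,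
      ?_, ?_⟩
    · simp only [List.map_cons, List.prod_cons, List.map_append, List.prod_append,
        List.map_replicate, List.prod_replicate]
      rw [mul_assoc, ← mul_assoc (w.map a).prod, h2, one_mul, ← pow_succ', ha]
    · simp only [List.map_cons, List.prod_cons, List.map_append, List.prod_append,
        List.map_replicate, List.prod_replicate]
      rw [mul_assoc, ← mul_assoc (a c ^ k), ← pow_succ, ha, one_mul, h3]

variable {p : ℕ} [hp : Fact p.Prime]

theorem frob {U : Type} [AddCommGroup U] [Module (ZMod p) U] [Nontrivial U]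
    (g : Module.End (ZMod p) U) (e : ℕ) {H H' : Module.End (ZMod p) U} (hH : H' * H = 1) :
    1 + H' * (g - 1) ^ p ^ e * H = H' * g ^ p ^ e * H := by
  have : CharP (Module.End (ZMod p) U) p := charP_of_injective_algebraMap' (ZMod p) p
  have h := sub_pow_char_pow_of_commute (R := Module.End (ZMod p) U) (x := g) (y := 1) p e
    (Commute.one_right g)
  rw [h, one_pow, mul_sub, sub_mul, mul_one, hH, add_sub_cancel]

theorem frob' {U : Type} [AddCommGroup U] [Module (ZMod p) U] [Nontrivial U]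
    (g : Module.End (ZMod p) U) (e : ℕ) : 1 + (g - 1) ^ p ^ e = g ^ p ^ e := by
  simpa using frob g e (mul_one 1)

theorem stepT {M S : ℕ} {φ : List Bool → ZMod p} (hN : 0 < S * M) (ha : ∀ c, aa φ hN c ^ p = 1)
    {A : Module.End (ZMod p) (V (S * M) φ)} (hA : 1 + A ∈ Mon (aa φ hN)) (A0 : ∃ x, A x ≠ 0)
    {s r e : ℕ} (hs : 1 < s) (hS : s + 2 < S) (hr : p * r ≤ s - 1)
    (A1 : ∀ x, Sup (S * M) (A x).1 ((s + 2) * M) ((s - 1 + r) * M))
    (A2 : ∀ x a, Sup (S * M) x.1 a ((s + 1) * M) → A x = 0) {w : List Bool}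
    (nr : Near M S φ (rep (ZMod p) ((Aw w - 1) ^ p ^ e)) s) (cut : Cut (S * M) φ ((s + 2) * M)) :
    ∃ (y : V (S * M) φ) (f : Module.Dual (ZMod p) (V (S * M) φ)) (u : List Bool), y ≠ 0 ∧
      Sup (S * M) y.1 ((s - 1 - p * r) * M) ((s + 1) * M) ∧ (∀ x, f x = (A x).1 u) ∧ f ≠ 0 ∧
      tv y f ∈ Mon (aa φ hN) := by
  have hM : 0 < M := Nat.pos_of_mul_pos_left hN
  obtain ⟨x₀, z0⟩ := A0
  have : Nontrivial (V (S * M) φ) := ⟨_, _, z0⟩
  obtain ⟨m, u₁, t, κ, l1, z1, h1, _, ⟨x₁, rfl⟩, z2⟩ := conn (φ := φ) nr.dg nr.loc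
    (Nat.mul_pos (by omega) hM) nr.nz (le_of_eq (by ring)) (Nat.mul_lt_mul_of_pos_right hS hM)
    cut (T := Set.range fun x => (A x).1) (hi' := (s - 1 + r) * M)
    (by rintro _ ⟨x, rfl⟩; exact ⟨(A x).2, A1 x⟩) ⟨_, ⟨x₀, rfl⟩, fun e => z0 (Subtype.ext e)⟩
  obtain ⟨m', l2, e1, e2⟩ := ex_inv hp.out.pos ha m
  have l3 : m'.length ≤ p * r * M := by
    rw [add_mul] at l1
    rw [mul_assoc]
    exact l2.trans (Nat.mul_le_mul_left p (by omega))
  have sp : ∀ g ∈ V (S * M) φ, Sup (S * M) (rep (ZMod p) (Aw m')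
      (rep (ZMod p) ((Aw w - 1) ^ p ^ e) g)) ((s - 1 - p * r) * M) ((s + 1) * M) := fun g hg => by
    rw [Nat.sub_mul (s - 1)]
    exact ((dg_Aw m').mono l3).sup hN (nr.loc g hg) (Nat.mul_le_mul_right M hr)
  set H := (m.map (aa φ hN)).prod with hH
  set H' := (m'.map (aa φ hN)).prod with hH'
  set Z := ((w.map (aa φ hN)).prod - 1) ^ p ^ e with hZ
  let x₂ : V (S * M) φ := κ • ⟨_, shift_mem φ hN t⟩
  have v1 : (Z x₂).1 = κ • rep (ZMod p) ((Aw w - 1) ^ p ^ e) (sh t (Phi (S * M) φ)) := by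
    rw [hZ, RR_z, ← map_smul]; rfl
  let f : Module.Dual (ZMod p) (V (S * M) φ) :=
    (LinearMap.proj u₁).comp ((V (S * M) φ).subtype.comp A)
  refine ⟨H' (Z x₂), f, u₁, fun e0 => z1 ?_, ?_, fun _ => rfl,
    fun e0 => z2 (LinearMap.congr_fun e0 x₁), ?_⟩
  · have e3 : (H * H') (Z x₂) = Z x₂ := by rw [e1]; rfl
    rw [← v1, ← e3, Module.End.mul_apply, e0, map_zero]; rfl
  · rw [hH', RR_val, hZ, RR_z]; exact sp _ x₂.2
  · have m1 : 1 + H' * Z * H ∈ Mon (aa φ hN) := by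
      have e3 : 1 + H' * Z * H = H' * (w.map (aa φ hN)).prod ^ p ^ e * H := frob _ e e2
      exact e3 ▸ (Mon _).mul_mem ((Mon _).mul_mem ⟨m', rfl⟩ ((Mon _).pow_mem ⟨w, rfl⟩ _)) ⟨m, rfl⟩
    have m2 := comm_mem _ (by
      rintro _ ⟨v, rfl⟩
      obtain ⟨v', -, h⟩ := ex_inv hp.out.pos ha v
      exact ⟨_, ⟨v', rfl⟩, h⟩) hA m1 (LinearMap.ext fun x => A2 _ _ (by
        rw [Module.End.mul_apply, Module.End.mul_apply, hH', RR_val, hZ, RR_z]
        exact sp _ (H x).2))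
    convert m2 using 1
    rw [tv]
    congr 1
    refine LinearMap.ext fun x => ?_
    rw [LinearMap.smulRight_apply, ← map_smul, Module.End.mul_apply, Module.End.mul_apply,
      Module.End.mul_apply]
    congr 1
    refine Subtype.ext ?_
    rw [Submodule.coe_smul, v1, hZ, RR_z, hH, RR_val, (h1 _ ⟨x, rfl⟩).1]
    rfl

theorem core (hp3 : 3 ≤ p) {d : ℕ} (hd : 0 < d)
    (hnum : 60 * Real.exp 202 * ((2 * (p ^ 6 * (p * d)) : ℕ) : ℝ) ^ 3 ≤ (19 / 10 : ℝ) ^ (p / 2))
    (S₀ : ℕ) : ∃ (U : Type) (_ : AddCommGroup U) (_ : Module (ZMod p) U)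
      (_ : Module.Finite (ZMod p) U) (a : Bool → Module.End (ZMod p) U),
      S₀ ≤ Module.finrank (ZMod p) U ∧ (∀ w : List Bool, w.length ≤ p * d → (w.map a).prod ^ p = 1) ∧
      ∀ v g, g v = 0 → tv v g ∈ Mon a := by
  have hN₀ : 2 ≤ p * d := le_trans (by omega) (Nat.le_mul_of_pos_right p hd)
  obtain ⟨M, hM⟩ : ∃ M, M = 2 * (p ^ 6 * (p * d)) := ⟨_, rfl⟩
  rw [← hM] at hnum
  have ex : ∀ N, ∃ (φ : List Bool → ZMod p) (m : List Bool), 2 ≤ N → N ≤ M →
      (m.length = N ∧ φ m ≠ 0) ∧ Rl (p / 2) φ 0 N := fun N => by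
    by_cases h : 2 ≤ N ∧ N ≤ M
    · obtain ⟨φ, ⟨m, h1⟩, h2⟩ := exists_phi (ZMod p) N (p / 2) h.1 (le_trans (by
        have : (N : ℝ) ≤ M := by exact_mod_cast h.2
        gcongr) hnum)
      exact ⟨φ, m, fun _ _ => ⟨h1, fun w n u v h3 _ h4 => h2 w n u v h3 (by omega)⟩⟩
    · exact ⟨0, [], fun h1 h2 => absurd ⟨h1, h2⟩ h⟩
  choose F wd hF using ex
  obtain ⟨s, hs⟩ : ∃ s, s = p * (5 * p + 5) + 1 := ⟨_, rfl⟩
  have hs1 : 1 < s := by have := Nat.mul_pos hp.out.pos (show 0 < 5 * p + 5 by omega); omega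
  obtain ⟨S, hS, hS₀⟩ : ∃ S, s + 5 * p + 9 < S ∧ S₀ ≤ S := ⟨s + 5 * p + 10 + S₀, by omega⟩
  let lv : ℕ → ℕ := fun t => if t = s then 3 else if t = s + 5 * p + 3 then 2 else
    if t = s + 5 * p + 6 then 1 else 0
  have hlv : ∀ t, lv t ≤ 3 := fun t => by simp only [lv]; split_ifs <;> omega
  have hadj : ∀ σ, lv (σ % S) = 0 ∨ lv ((σ + 1) % S) = 0 := fun σ => by
    have := pos_add (by omega : 0 < S) σ 1
    simp only [lv]
    split_ifs <;> omega
  have hF' := fun N h1 h2 => (hF N h1 h2).2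
  obtain ⟨mw, H, H', sp⟩ := special hp3 hN₀ hM hlv (by omega) hF' hadj
    fun N h1 h2 => (hF N h1 h2).1
  have lc := fun e k => loc (e := e) (k := k) hp3 hN₀ hM hlv (by omega) hF' hadj
  have hM0 : 0 < M := by have := hnu hp3 hN₀ hM hlv 0; omega
  have cut := fun t => cut_al (s := t) (S := S) hM0 H H'
  generalize al M (psi M F (qq p lv) (nn p (p * d) lv)) S = φ at *
  have hN : 0 < S * M := Nat.mul_pos (by omega) hM0
  have un : ∀ t, lv t ≠ 0 → ∀ t' < S, lv t' = lv t → t' = t := fun t h1 t' _ h2 => by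
    simp only [lv] at h1 h2
    split_ifs at h1 h2 <;> omega
  have sp' := fun t h1 h2 h3 => sp t h1 h2 h3 (un t h3)
  obtain ⟨w₃, -, n3, -⟩ := sp' s (by omega) (by omega) (by simp [lv])
  obtain ⟨w₂, μ₂, n2, k2⟩ := sp' (s + 5 * p + 3) (by omega) (by omega)
    (by simp only [lv]; split_ifs <;> omega)
  obtain ⟨w₁, μ₁, n1, k1⟩ := sp' (s + 5 * p + 6) (by omega) (by omega)
    (by simp only [lv]; split_ifs <;> omega)
  have := V_finite (N := S * M) φ
  have : Nontrivial (V (S * M) φ) := by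
    obtain ⟨f, hf, h⟩ := n1.nz
    exact ⟨⟨f, hf⟩, 0, fun e => h (by rw [show f = 0 from congrArg Subtype.val e, map_zero])⟩
  have short : ∀ (w : List Bool) (k : ℕ), w.length ≤ p * d → 2 * (p / 2) ≤ k →
      ((w.map (aa φ hN)).prod - 1) ^ k = 0 := fun w k h1 h2 => LinearMap.ext fun x =>
    Subtype.ext <| funext fun u => by
      rw [RR_z]
      exact lc 0 k (by omega) (by simpa using h1) h2 (by simp) x.2 u (Or.inl rfl)
  have pw : ∀ w : List Bool, w.length ≤ p * d → (w.map (aa φ hN)).prod ^ p = 1 := fun w h => by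
    have h1 := short w (p ^ 1) h (by rw [pow_one]; omega)
    have h2 := frob' (w.map (aa φ hN)).prod 1
    rw [h1, add_zero, pow_one] at h2
    exact h2.symm
  have ha : ∀ c, aa φ hN c ^ p = 1 := fun c => by simpa using pw [c] (by simp; omega)
  have kl : ∀ (x : V (S * M) φ) a b, Sup (S * M) x.1 a (b * M) → b ≤ s + 5 * p + 4 →
      (((w₁.map (aa φ hN)).prod - 1) ^ p ^ lv (s + 5 * p + 6)) x = 0 := fun x a b h hb =>
    Subtype.ext <| by
      rw [RR_z]
      exact n1.dg.kills (n1.loc _ x.2) (by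
        rw [← add_one_mul]; exact Nat.mul_lt_mul_of_pos_right (by omega) hM0) h
        (Or.inl (Nat.mul_lt_mul_of_pos_right (by omega) hM0))
  obtain ⟨y, f, u, z1, s1, e1, z2, m1⟩ := stepT hN ha
    (A := ((w₁.map (aa φ hN)).prod - 1) ^ p ^ lv (s + 5 * p + 6)) 
    ((frob' (w₁.map (aa φ hN)).prod _).symm ▸ (Mon _).pow_mem ⟨w₁, rfl⟩ _) (by
      obtain ⟨f, hf, h⟩ := n1.nz
      exact ⟨⟨f, hf⟩, fun e => h (by rw [← RR_z hN w₁ _ ⟨f, hf⟩, e]; rfl)⟩)
    (s := s + 5 * p + 3) (r := 5) (by omega) (by omega) (by omega)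
    (fun x => by rw [RR_z]; exact n1.loc _ x.2) (fun x a h => kl x a _ h le_rfl) n2
    (cut _ (by omega) (by omega))
  rw [show s + 5 * p + 3 - 1 - p * 5 = s + 2 by omega] at s1
  have f0 : ∀ (x : V (S * M) φ) a b, Sup (S * M) x.1 a (b * M) → b ≤ s + 5 * p + 4 → f x = 0 :=
    fun x a b h hb => by rw [e1, kl x a b h hb]; rfl
  obtain ⟨x₀, z3⟩ : ∃ x, f x ≠ 0 := by
    by_contra hc
    push Not at hc
    exact z2 (LinearMap.ext hc)
  obtain ⟨y', f', u', z4, s2, e2, z5, m2⟩ := stepT hN ha (A := f.smulRight y) m1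
    ⟨x₀, smul_ne_zero z3 z1⟩ (s := s) (r := 5 * p + 5) hs1 (by omega) (by omega)
    (fun x v hv => by
      rw [show s - 1 + (5 * p + 5) = s + 5 * p + 3 + 1 by omega]
      exact s1 v (right_ne_zero_of_mul hv))
    (fun x a h => by rw [LinearMap.smulRight_apply, f0 x a _ h (by omega), zero_smul]) n3
    (cut _ (by omega) (by omega))
  have z6 : y.1 u' ≠ 0 := fun e => z5 (LinearMap.ext fun x => by
    rw [e2]; exact mul_eq_zero_of_right _ e)
  refine ⟨V (S * M) φ, inferInstance, inferInstance, inferInstance, aa φ hN,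
    hS₀.trans (dim_ge hM0 (by omega) cut), pw, all_tv (Mon (aa φ hN)) ?_ (aa φ hN)
      (fun c => ⟨[c], by simp⟩) ha (k := 2 * (p / 2)) ?_ (fun c => ?_) (fun U hU => ?_)
      (v₁ := y) (v₂ := y.1 u' • y') (f := f) (f0 y _ _ s1 le_rfl) ?_ m1 ?_ z2 fun a b h => ?_⟩
  · rintro _ ⟨v, rfl⟩
    obtain ⟨v', -, h⟩ := ex_inv hp.out.pos ha v
    exact ⟨_, ⟨v', rfl⟩, h⟩
  · have := hp.out.eq_two_or_odd
    omega
  · simpa using short [c] _ (by simp; omega) le_rfl
  · refine or_iff_not_imp_left.2 fun h0 => top_le_iff.1 fun x _ => ?_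
    obtain ⟨x', h1, h2⟩ := irred k1 k2 hM0 (by omega) le_rfl (by omega)
      (cut _ (by omega) (by omega)) (U.map (V (S * M) φ).subtype) (Submodule.map_subtype_le _ _)
      (by rintro c _ ⟨x, hx, rfl⟩; exact ⟨_, hU c x hx, rfl⟩)
      (fun e => h0 (Submodule.map_injective_of_injective (V (S * M) φ).injective_subtype
        (e.trans (Submodule.map_bot _).symm))) x.2
    exact Subtype.ext h2 ▸ h1
  · rw [map_smul, f0 y' _ _ s2 (by omega), smul_zero]
  · convert m2 using 1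
    refine LinearMap.ext fun x => ?_
    rw [tv_apply, tv_apply, e2, smul_smul]
    rfl
  · obtain ⟨v, hv⟩ := Function.ne_iff.1 fun e => z1 (Subtype.ext e)
    have h1 : y'.1 v = 0 := by
      by_contra h2
      have h3 := (s1 v hv).1.trans (s2 v h2).2
      have := Nat.le_of_mul_le_mul_right h3 hM0
      omega
    have h2 : a = 0 := by
      have h3 := congrFun (congrArg Subtype.val h) v
      simpa [h1, show y.1 v ≠ 0 from hv] using h3
    exact ⟨h2, by simpa [h2, z4, z6] using h⟩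

end MP77.S99
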