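import Pool.Agent.Lib.MP_77f37b_al.SCore

/-! Projective special linear groups as quotients, and the permutation form. -/

namespace MP77.S99
open Matrix Matrix.SpecialLinearGroup
open scoped LinearAlgebra.Projectivization commutatorElement

section
variable {ι F : Type} [Field F] [DecidableEq ι] [Fintype ι]

theorem diag_dec {i j : ι} (hij : i ≠ j) (a : F) (ha : a ≠ 0) :
    diag2n hij a ha = transvection hij a * transvection hij.symm (-a⁻¹) * transvection hij a *
      transvection hij (-1) * transvection hij.symm 1 * transvection hij (-1) := by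
  refine Subtype.ext ?_
  simp only [coe_mul, transvection_coe, diag2n_coe, mul_add, add_mul, one_mul, mul_one,
    single_mul_single_same, single_mul_single_of_ne _ _ _ _ hij, single_mul_single_of_ne _ _ _ _
    hij.symm, add_zero, mul_neg, neg_mul, mul_inv_cancel₀ ha, inv_mul_cancel₀ ha, neg_neg]
  ext k l
  simp only [Matrix.add_apply, single_apply, diagonal_apply, one_apply]
  by_cases h1 : i = k <;> by_cases h2 : j = k <;> by_cases h3 : i = l <;> by_cases h4 : j = l <;>
    simp_all [eq_comm]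

theorem tv_ind [Nontrivial ι] (P : SpecialLinearGroup ι F → Prop)
    (ht : ∀ (i j : ι) (h : i ≠ j) c, P (transvection h c))
    (hm : ∀ A B, P A → P B → P (A * B)) (A : SpecialLinearGroup ι F) : P A := by
  refine diagonal_transvection_induction' P _ (fun i j hij c hc => ?_) ht hm
  rw [diag_dec]
  refine hm _ _ (hm _ _ (hm _ _ (hm _ _ (hm _ _ ?_ ?_) ?_) ?_) ?_) ?_
  all_goals exact ht _ _ _ _

theorem tv_comm {i j k : ι} (hij : i ≠ j) (hik : i ≠ k) (hkj : k ≠ j) (c : F) :
    ⁅transvection hik c, transvection hkj (1 : F)⁆ = transvection hij c := by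
  rw [commutatorElement_def, transvection_inv, transvection_inv]
  refine Subtype.ext ?_
  simp only [coe_mul, transvection_coe, mul_add, add_mul, one_mul, mul_one,
    single_mul_single_same, single_mul_single_of_ne _ _ _ _ hij.symm,
    single_mul_single_of_ne _ _ _ _ hik.symm, single_mul_single_of_ne _ _ _ _ hkj.symm, add_zero,
    mul_neg, ← single_neg, neg_mul]
  abel

theorem psl_simple (h3 : 3 ≤ Fintype.card ι) : IsSimpleGroup (ProjectiveSpecialLinearGroup ι F) := by
  have : Nontrivial ι := Fintype.one_lt_card_iff_nontrivial.1 (by omega)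
  have : Group.IsPerfect (SpecialLinearGroup ι F) := ⟨le_antisymm le_top fun A _ =>
    tv_ind (· ∈ commutator _) (fun i j h c => by
      obtain ⟨k, -, hk⟩ := Finset.exists_mem_notMem_of_card_lt_card (s := {i, j})
        (t := Finset.univ) (lt_of_le_of_lt Finset.card_le_two h3)
      simp only [Finset.mem_insert, Finset.mem_singleton, not_or] at hk
      rw [← tv_comm h (Ne.symm hk.1) hk.2 c]
      exact Subgroup.commutator_mem_commutator (Subgroup.mem_top _) (Subgroup.mem_top _))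
      (fun _ _ => mul_mem) A⟩
  have hp : Group.IsPerfect (ProjectiveSpecialLinearGroup ι F) := inferInstance
  have top : (⨆ q : ℙ F (ι → F), lineStab q.submodule) = (⊤ : Subgroup (SpecialLinearGroup ι F)) :=
    le_antisymm le_top fun A _ => tv_ind (· ∈ _) (fun i j h c => by
      refine (le_iSup (fun q : ℙ F (ι → F) => lineStab q.submodule)
        (Projectivization.mk F (Pi.single i 1) (Pi.single_ne_zero_iff.2 one_ne_zero))) ?_
      rw [Projectivization.submodule_mk]
      exact SL2Gen.transvection_mem_lineStab h c) (fun _ _ => mul_mem) A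
  refine MulAction.IwasawaStructure.isSimpleGroup (α := ℙ F (ι → F)) hp.commutator_eq_top
    ⟨PSL.iwasawaT, fun q => ?_, fun g q => ?_, ?_⟩ inferInstance
  · have : IsMulCommutative (lineStab (F := F) (ι := ι) q.submodule) := by
      rw [← Projectivization.mk_rep q, Projectivization.submodule_mk]
      exact lineStab_isMulCommutative_of_span q.rep q.rep_nonzero
    exact Subgroup.map_isMulCommutative _ _
  · obtain ⟨g, rfl⟩ := QuotientGroup.mk_surjective g
    rw [ProjectiveSpecialLinearGroup.smul_proj_mk]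
    change Subgroup.map _ _ = _
    rw [PSL.smul_submodule, lineStab_smul, PSL.iwasawaT_map_conj]
  · rw [← Subgroup.map_iSup, top]
    exact Subgroup.map_top_of_surjective _ (QuotientGroup.mk'_surjective _)

end

variable {p : ℕ} [hp : Fact p.Prime]

theorem exists_SL (hp3 : 3 ≤ p) {d : ℕ} (hd : 0 < d)
    (hnum : 60 * Real.exp 202 * ((2 * (p ^ 6 * (p * d)) : ℕ) : ℝ) ^ 3 ≤ (19 / 10 : ℝ) ^ (p / 2))
    (S₀ : ℕ) : ∃ m, S₀ ≤ m ∧ 3 ≤ m ∧ ∃ A : Bool → SpecialLinearGroup (Fin m) (ZMod p),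
      Subgroup.closure {A true, A false} = ⊤ ∧
      ∀ w : List Bool, w.length ≤ p * d → (w.map A).prod ^ p = 1 := by
  obtain ⟨U, _, _, _, a, h1, h2, h3⟩ := core hp3 hd hnum (S₀ + 3)
  let b := Module.finBasis (ZMod p) U
  let T := LinearMap.toMatrixAlgEquiv b
  have ha : ∀ c, det (T (a c)) = 1 := fun c => by
    have h4 : a c ^ p = 1 := by
      simpa using h2 [c] (Nat.mul_pos hp.out.pos hd)
    rw [← ZMod.pow_card (det _), ← det_pow, ← map_pow, h4, map_one, det_one]
  let A : Bool → Matrix.SpecialLinearGroup (Fin (Module.finrank (ZMod p) U)) (ZMod p) :=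
    fun c => ⟨T (a c), ha c⟩
  have hA : ∀ w : List Bool, ((w.map A).prod).1 = T (w.map a).prod := fun w => by
    induction w with
    | nil => simp
    | cons c w ih => rw [List.map_cons, List.prod_cons, coe_mul, ih, List.map_cons,
        List.prod_cons, map_mul]
  have : Nontrivial (Fin (Module.finrank (ZMod p) U)) := Fin.nontrivial_iff_two_le.2 (by omega)
  refine ⟨Module.finrank (ZMod p) U, by omega, by omega, A, le_antisymm le_top fun B _ => tv_ind (· ∈ _)
    (fun i j h c => ?_) (fun _ _ => mul_mem) B, fun w hw => Subtype.ext ?_⟩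
  · obtain ⟨w, hw⟩ := h3 (c • b i) (b.coord j) (by simp [h])
    have e : transvection h c = (w.map A).prod := Subtype.ext <| by
      rw [hA, hw, transvection_coe]
      ext k l
      simp [T, LinearMap.toMatrixAlgEquiv_apply, tv_apply, Finsupp.single_apply, one_apply,
        single_apply, eq_comm, ite_and]
      split_ifs <;> simp [*]
    rw [e]
    refine Subgroup.list_prod_mem _ fun x hx => ?_
    obtain ⟨c, -, rfl⟩ := List.mem_map.1 hx
    cases c <;> exact Subgroup.subset_closure (by simp)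
  · rw [coe_pow, hA, ← map_pow, h2 w hw, map_one, coe_one]

theorem pos_word {G : Type} [Group G] {a : Bool → G} (ha : ∀ c, a c ^ p = 1) (w : List G)
    (hw : ∀ z ∈ w, z = a true ∨ z = (a true)⁻¹ ∨ z = a false ∨ z = (a false)⁻¹) :
    ∃ w' : List Bool, w'.length ≤ p * w.length ∧ (w'.map a).prod = w.prod := by
  induction w with
  | nil => exact ⟨[], by simp⟩
  | cons z w ih =>
    obtain ⟨w', h1, h2⟩ := ih fun z hz => hw z (List.mem_cons_of_mem _ hz)
    obtain ⟨w₀, h3, h4⟩ : ∃ w₀ : List Bool, w₀.length ≤ p ∧ (w₀.map a).prod = z := by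
      have inv : ∀ c, ∃ w₀ : List Bool, w₀.length ≤ p ∧ (w₀.map a).prod = (a c)⁻¹ := fun c => by
        obtain ⟨w₀, h3, h4, -⟩ := ex_inv hp.out.pos ha [c]
        exact ⟨w₀, by simpa using h3, eq_inv_of_mul_eq_one_right (by simpa using h4)⟩
      rcases hw z List.mem_cons_self with rfl | rfl | rfl | rfl
      exacts [⟨[true], hp.out.pos, by simp⟩, inv _, ⟨[false], hp.out.pos, by simp⟩, inv _]
    exact ⟨w₀ ++ w', by simp [mul_add]; omega, by simp [h2, h4]⟩

theorem exists_perm (hp3 : 3 ≤ p) {d : ℕ} (hd : 0 < d)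
    (hnum : 60 * Real.exp 202 * ((2 * (p ^ 6 * (p * d)) : ℕ) : ℝ) ^ 3 ≤ (19 / 10 : ℝ) ^ (p / 2))
    (S₀ : ℕ) : ∃ n, S₀ ≤ n ∧ ¬ p ∣ n ∧ ∃ a b : Equiv.Perm (Fin n),
      IsSimpleGroup (Subgroup.closure ({a, b} : Set (Equiv.Perm (Fin n)))) ∧
      (∀ i j, ∃ g ∈ Subgroup.closure ({a, b} : Set (Equiv.Perm (Fin n))), g i = j) ∧
      ∀ w : List (Equiv.Perm (Fin n)), (∀ z ∈ w, z = a ∨ z = a⁻¹ ∨ z = b ∨ z = b⁻¹) →
        w.length ≤ d → w.prod ^ p = 1 := by
  obtain ⟨m, h1, h2, A, h3, h4⟩ := exists_SL hp3 hd hnum S₀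
  have hc := Projectivization.card_of_finrank (ZMod p) (Fin m → ZMod p) (n := m) (by simp)
  rw [Nat.card_zmod] at hc
  let e := Finite.equivFin (ℙ (ZMod p) (Fin m → ZMod p))
  let σ := e.permCongrHom.toMonoidHom.comp
    (MulAction.toPermHom (ProjectiveSpecialLinearGroup (Fin m) (ZMod p)) _)
  have hσ : Function.Injective σ := e.permCongrHom.injective.comp MulAction.toPerm_injective
  let π := σ.comp (QuotientGroup.mk' (Subgroup.center (SpecialLinearGroup (Fin m) (ZMod p))))
  have hr : Subgroup.closure {π (A true), π (A false)} = σ.range := by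
    rw [← Set.image_pair, ← MonoidHom.map_closure, h3, ← MonoidHom.range_eq_map,
      MonoidHom.range_comp, MonoidHom.range_eq_top.2 (QuotientGroup.mk'_surjective _),
      ← MonoidHom.range_eq_map]
  refine ⟨_, ?_, ?_, π (A true), π (A false), ?_, fun i j => ?_, fun w hw hl => ?_⟩
  · rw [hc]
    refine h1.trans ?_
    simpa using Finset.card_nsmul_le_sum (Finset.range m) (p ^ ·) 1
      fun i _ => Nat.pow_pos hp.out.pos
  · obtain ⟨m, rfl⟩ := Nat.exists_eq_succ_of_ne_zero (show m ≠ 0 by omega)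
    rw [hc, Finset.sum_range_succ', pow_zero, Nat.dvd_add_right
      (Finset.dvd_sum fun i _ => dvd_pow_self p (by omega))]
    exact hp.out.one_lt.ne' ∘ Nat.dvd_one.1
  · have := psl_simple (ι := Fin m) (F := ZMod p) (by simpa using h2)
    rw [hr]
    exact (MonoidHom.ofInjective hσ).symm.isSimpleGroup
  · obtain ⟨g, hg⟩ := MulAction.exists_smul_eq (ProjectiveSpecialLinearGroup (Fin m) (ZMod p))
      (e.symm i) (e.symm j)
    exact ⟨σ g, hr ▸ ⟨g, rfl⟩, (congrArg e hg).trans (e.apply_symm_apply j)⟩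
  · obtain ⟨w', h5, h6⟩ := pos_word (p := p) (a := fun c => π (A c)) (fun c => by
      rw [← map_pow, show A c ^ p = 1 by
        simpa using h4 [c] (Nat.mul_pos hp.out.pos hd), map_one]) w hw
    rw [← h6, show (fun c => π (A c)) = π ∘ A from rfl, ← List.map_map, ← map_list_prod, ← map_pow,
      h4 w' (h5.trans (Nat.mul_le_mul_left p hl)), map_one]

omit hp in
theorem numeric : ∃ p₀ : ℕ, ∀ p : ℕ, p₀ ≤ p → ∀ d : ℕ, (d : ℝ) ≤ Real.exp (p / 10) →
    60 * Real.exp 202 * ((2 * (p ^ 6 * (p * d)) : ℕ) : ℝ) ^ 3 ≤ (19 / 10 : ℝ) ^ (p / 2) := by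
  have h1 := (Real.tendsto_pow_mul_exp_neg_atTop_nhds_zero 21).comp
    ((tendsto_natCast_atTop_atTop (R := ℝ)).atTop_div_const (r := 100) (by norm_num))
  have h2 := h1.eventually (gt_mem_nhds (a := (480 * Real.exp 203 * 100 ^ 21)⁻¹) (by positivity))
  obtain ⟨p₀, hp₀⟩ := Filter.eventually_atTop.1 h2
  refine ⟨p₀, fun p hp d hd => ?_⟩
  have h3 := hp₀ p hp
  simp only [Function.comp] at h3
  have h4 : Real.exp (62 / 100) ≤ 19 / 10 := by
    have := Real.exp_bound' (x := 62 / 100) (by norm_num) (by norm_num) (n := 4) (by norm_num)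
    refine this.trans ?_
    simp [Finset.sum_range_succ, Nat.factorial]
    norm_num
  refine le_trans ?_ (pow_le_pow_left₀ (Real.exp_pos _).le h4 _)
  rw [← Real.exp_nat_mul]
  have h6 : (p : ℝ) ≤ 2 * ((p / 2 : ℕ) : ℝ) + 1 := by exact_mod_cast (by omega : p ≤ 2 * (p / 2) + 1)
  refine le_trans ?_ (Real.exp_le_exp.2 (by linarith : 31 / 100 * (p : ℝ) - 1 ≤ _))
  have h8 : (d : ℝ) ^ 3 ≤ Real.exp (3 / 10 * p) := by
    have := pow_le_pow_left₀ (Nat.cast_nonneg d) hd 3
    rw [← Real.exp_nat_mul] at this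
    refine this.trans (le_of_eq ?_)
    congr 1; push_cast; ring
  have h9 : 480 * Real.exp 203 * (p : ℝ) ^ 21 ≤ Real.exp (p / 100) := by
    rw [Real.exp_neg, ← div_eq_mul_inv, div_lt_iff₀ (Real.exp_pos _), inv_mul_eq_div,
      lt_div_iff₀ (by positivity)] at h3
    have : ((p : ℝ) / 100) ^ 21 * (480 * Real.exp 203 * 100 ^ 21) =
        480 * Real.exp 203 * (p : ℝ) ^ 21 := by ring
    linarith
  have e1 : Real.exp 203 = Real.exp 202 * Real.exp 1 := by rw [← Real.exp_add]; norm_num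
  have e2 : Real.exp (31 / 100 * p - 1) * Real.exp 1 =
      Real.exp (p / 100) * Real.exp (3 / 10 * p) := by
    rw [← Real.exp_add, ← Real.exp_add]; congr 1; ring
  refine le_of_mul_le_mul_right ?_ (Real.exp_pos 1)
  rw [e2]
  push_cast
  calc 60 * Real.exp 202 * (2 * ((p : ℝ) ^ 6 * (p * d))) ^ 3 * Real.exp 1
      = (480 * Real.exp 203 * (p : ℝ) ^ 21) * (d : ℝ) ^ 3 := by rw [e1]; ring
    _ ≤ _ := mul_le_mul h9 h8 (by positivity) (by positivity)

omit hp in
theorem main : ∃ p₀ : ℕ, ∀ p : ℕ, p.Prime → p₀ ≤ p → ∀ d : ℕ, (d : ℝ) ≤ Real.exp (p / 10) →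
    Set.Infinite {n : ℕ | ¬ p ∣ n ∧ ∃ a b : Equiv.Perm (Fin n),
      IsSimpleGroup (Subgroup.closure ({a, b} : Set (Equiv.Perm (Fin n)))) ∧
      (∀ i j, ∃ g ∈ Subgroup.closure ({a, b} : Set (Equiv.Perm (Fin n))), g i = j) ∧
      ∀ w : List (Equiv.Perm (Fin n)), (∀ z ∈ w, z = a ∨ z = a⁻¹ ∨ z = b ∨ z = b⁻¹) →
        w.length ≤ d → w.prod ^ p = 1} := by
  obtain ⟨p₀, hp₀⟩ := numeric
  refine ⟨p₀ + 3, fun p hp hle d hd => Set.infinite_of_not_bddAbove ?_⟩
  have : Fact p.Prime := ⟨hp⟩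
  rintro ⟨n₀, hn₀⟩
  obtain ⟨n, h1, h2, a, b, h3, h4, h5⟩ := exists_perm (p := p) (d := max d 1) (by omega)
    (lt_of_lt_of_le one_pos (le_max_right _ _)) (hp₀ p (by omega) _ (by
      push_cast
      exact max_le hd (Real.one_le_exp (by positivity)))) (n₀ + 1)
  have := hn₀ ⟨h2, a, b, h3, h4, fun w hw hl => h5 w hw (hl.trans (le_max_left _ _))⟩
  omega

end MP77.S99
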