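import Pool.Agent.Lib.MP_77f37b_al.Glue

/-! Gluing blocks of different lengths along one long cycle. -/

namespace MP77.S99
open Finset

variable {K : Type} [Field K] {h : ℕ}

/-- the relations hold in all windows between the positions `a` and `b` -/
def Rl (h : ℕ) (φ : List Bool → K) (a b : ℕ) : Prop := ∀ (w : List Bool) (n : ℕ) (u v : List Bool),
  0 < n → a ≤ u.length → u.length + n ≤ b → ∑ m ∈ W n, (C h w m : K) * φ (u ++ m ++ v) = 0

theorem Rl.mono {φ : List Bool → K} {a b a' b' : ℕ} (H : Rl h φ a b) (ha : a ≤ a') (hb : b' ≤ b) :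
    Rl h φ a' b' := fun w n u v h0 h1 h2 => H w n u v h0 (ha.trans h1) (h2.trans hb)

/-- product of two functionals along a cut -/
def cat (A : ℕ) (φ₁ φ₂ : List Bool → K) (m : List Bool) : K := φ₁ (m.take A) * φ₂ (m.drop A)

theorem cat_app {A : ℕ} (φ₁ φ₂ : List Bool → K) {u : List Bool} (v : List Bool)
    (hu : u.length = A) : cat A φ₁ φ₂ (u ++ v) = φ₁ u * φ₂ v := by
  rw [cat, List.take_left' hu, List.drop_left' hu]

theorem Rl.catl {φ₁ : List Bool → K} (φ₂ : List Bool → K) {a b A : ℕ} (H : Rl h φ₁ a b)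
    (hb : b ≤ A) : Rl h (cat A φ₁ φ₂) a b := fun w n u v h0 h1 h2 => by
  have key : ∀ m ∈ W n, (C h w m : K) * cat A φ₁ φ₂ (u ++ m ++ v) =
      φ₂ (v.drop (A - (u.length + n))) *
        ((C h w m : K) * φ₁ (u ++ m ++ v.take (A - (u.length + n)))) := fun m hm => by
    have e : (u ++ m).length = u.length + n := by rw [List.length_append, (mem_W _ _).1 hm]
    rw [cat, List.take_append, List.drop_append, List.take_of_length_le (by omega),
      List.drop_of_length_le (by omega), e, List.nil_append]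
    ring
  rw [sum_congr rfl key, ← mul_sum, H w n u _ h0 h1 h2, mul_zero]

theorem Rl.catr (φ₁ : List Bool → K) {φ₂ : List Bool → K} {a b : ℕ} (A : ℕ) (H : Rl h φ₂ a b) :
    Rl h (cat A φ₁ φ₂) (A + a) (A + b) := fun w n u v h0 h1 h2 => by
  have key : ∀ m ∈ W n, (C h w m : K) * cat A φ₁ φ₂ (u ++ m ++ v) =
      φ₁ (u.take A) * ((C h w m : K) * φ₂ (u.drop A ++ m ++ v)) := fun m _ => by
    rw [cat, List.append_assoc, List.take_append_of_le_length (by omega),
      List.drop_append_of_le_length (by omega), List.append_assoc]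
    ring
  rw [sum_congr rfl key, ← mul_sum, H w n _ v h0 (by simp; omega) (by simp; omega), mul_zero]

theorem Rl.phi {φ : List Bool → K} {a b N : ℕ} (H : Rl h φ a b) (hN : 0 < N) (hb : b ≤ N) (j : ℕ) :
    Rl h (Phi N φ) (j * N + a) (j * N + b) := fun w n u v h0 h1 h2 => by
  obtain ⟨u₁, u₂, rfl, l1⟩ : ∃ u₁ u₂, u = u₁ ++ u₂ ∧ u₁.length = j * N :=
    ⟨u.take (j * N), u.drop (j * N), by simp, by simp; omega⟩
  rw [List.length_append, l1] at h1 h2
  by_cases hv : N - (u₂.length + n) ≤ v.length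
  · obtain ⟨v₁, v₂, rfl, l2⟩ : ∃ v₁ v₂, v = v₁ ++ v₂ ∧ v₁.length = N - (u₂.length + n) :=
      ⟨v.take (N - (u₂.length + n)), v.drop (N - (u₂.length + n)), by simp, by simp; omega⟩
    have key : ∀ m ∈ W n, (C h w m : K) * Phi N φ (u₁ ++ u₂ ++ m ++ (v₁ ++ v₂)) =
        (Phi N φ u₁ * Phi N φ v₂) * ((C h w m : K) * φ (u₂ ++ m ++ v₁)) := fun m hm => by
      have e : (u₂ ++ m ++ v₁).length = N := by
        simp only [List.length_append, (mem_W _ _).1 hm]; omega
      rw [show u₁ ++ u₂ ++ m ++ (v₁ ++ v₂) = u₁ ++ (u₂ ++ m ++ v₁ ++ v₂) by simp,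
        Phi_app φ hN (Or.inl ⟨j, by rw [l1, mul_comm]⟩), Phi_app φ hN (Or.inl (by rw [e])),
        Phi_block φ hN e]
      ring
    rw [sum_congr rfl key, ← mul_sum, H w n u₂ v₁ h0 (by omega) (by omega), mul_zero]
  · refine sum_eq_zero fun m hm => ?_
    rw [show u₁ ++ u₂ ++ m ++ v = u₁ ++ (u₂ ++ m ++ v) by simp,
      Phi_app φ hN (Or.inl ⟨j, by rw [l1, mul_comm]⟩), Phi_zero N φ (m := u₂ ++ m ++ v), mul_zero,
      mul_zero]
    simp only [List.length_append, (mem_W _ _).1 hm]
    exact fun hd => absurd (Nat.le_of_dvd (by omega) hd) (by omega)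

/-- product of the first `s` long blocks -/
def al (M : ℕ) (ψ : ℕ → List Bool → K) : ℕ → List Bool → K
  | 0 => fun _ => 1
  | s + 1 => cat (s * M) (al M ψ s) (ψ s)

theorem Rl.al {M : ℕ} {ψ : ℕ → List Bool → K} {s a b : ℕ} (H : Rl h (ψ s) a b) (hb : b ≤ M) :
    ∀ S, s < S → Rl h (al M ψ S) (s * M + a) (s * M + b) := fun S hS => by
  induction S with
  | zero => omega
  | succ S ih =>
    rcases Nat.lt_succ_iff_lt_or_eq.1 hS with h1 | rfl
    · refine (ih h1).catl _ ?_
      have := Nat.mul_le_mul_right M (show s + 1 ≤ S from h1)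
      rw [add_one_mul] at this
      omega
    · exact H.catr _ _

theorem al_split (M : ℕ) (ψ : ℕ → List Bool → K) {s S : ℕ} (hs : s ≤ S) : ∃ β : List Bool → K,
    ∀ u v, u.length = s * M → (u ++ v).length = S * M → al M ψ S (u ++ v) = al M ψ s u * β v := by
  induction S, hs using Nat.le_induction with
  | base =>
    refine ⟨fun _ => 1, fun u v h1 h2 => ?_⟩
    obtain rfl : v = [] := List.length_eq_zero_iff.1 (by rw [List.length_append] at h2; omega)
    simp
  | succ S hs ih =>
    obtain ⟨β, hβ⟩ := ih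
    refine ⟨fun v => β (v.take (S * M - s * M)) * ψ S (v.drop (S * M - s * M)),
      fun u v h1 h2 => ?_⟩
    have h3 := Nat.mul_le_mul_right M hs
    rw [List.length_append, add_one_mul] at h2
    rw [al, cat, List.take_append, List.drop_append, List.take_of_length_le (by omega),
      List.drop_of_length_le (by omega), h1, List.nil_append, hβ _ _ h1 (by simp; omega), mul_assoc]

/-- concatenation of chosen words -/
def pre (mw : ℕ → List Bool) : ℕ → List Bool
  | 0 => []
  | s + 1 => pre mw s ++ mw s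

theorem pre_len {mw : ℕ → List Bool} {M : ℕ} (H : ∀ s, (mw s).length = M) (s : ℕ) :
    (pre mw s).length = s * M := by
  induction s with
  | zero => simp [pre]
  | succ s ih => rw [pre, List.length_append, ih, H, add_one_mul]

theorem al_pre {mw : ℕ → List Bool} {M : ℕ} {ψ : ℕ → List Bool → K} (H : ∀ s, (mw s).length = M)
    (H' : ∀ s, ψ s (mw s) ≠ 0) (s : ℕ) : al M ψ s (pre mw s) ≠ 0 := by
  induction s with
  | zero => simp [al]
  | succ s ih => rw [al, pre, cat_app _ _ _ (pre_len H s)]; exact mul_ne_zero ih (H' s)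

theorem pre_le (mw : ℕ → List Bool) {s S : ℕ} (hs : s ≤ S) : ∃ t, pre mw S = pre mw s ++ t := by
  induction S, hs using Nat.le_induction with
  | base => exact ⟨[], by simp⟩
  | succ S _ ih => obtain ⟨t, ht⟩ := ih; exact ⟨t ++ mw S, by rw [pre, ht, List.append_assoc]⟩

section Space
variable {N : ℕ} {φ : List Bool → K}

theorem V_ind {P : (List Bool → K) → Prop} (h0 : P 0) (ha : ∀ f g, P f → P g → P (f + g))
    (hs : ∀ (c : K) f, P f → P (c • f))
    (hg : ∀ t : List Bool, t.length < N → P fun v => Phi N φ (v ++ t)) : ∀ f ∈ V N φ, P f := by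
  intro f hf
  induction hf using Submodule.span_induction with
  | mem x hx => obtain ⟨u, hu, rfl⟩ := hx; exact hg u hu
  | zero => exact h0
  | add x y _ _ hx hy => exact ha _ _ hx hy
  | smul a x _ hx => exact hs _ _ hx

theorem V_app (hN : 0 < N) {t : List Bool} (ht : N ∣ t.length) (v : List Bool) :
    ∀ f ∈ V N φ, f (t ++ v) = Phi N φ t * f v :=
  V_ind (by simp) (fun f g h1 h2 => by simp [h1, h2, mul_add])
    (fun c f h1 => by simp [h1, mul_left_comm])
    fun u _ => by simp only [List.append_assoc]; exact Phi_app φ hN (Or.inl ht)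

theorem V_sh (hN : 0 < N) (m : List Bool) : ∀ f ∈ V N φ, (fun v => f (v ++ m)) ∈ V N φ :=
  V_ind (V N φ).zero_mem (fun _ _ => (V N φ).add_mem) (fun c _ => (V N φ).smul_mem c)
    fun u _ => by simpa only [List.append_assoc] using shift_mem φ hN (m ++ u)

theorem V_proj (i : ℕ) :
    ∀ f ∈ V N φ, (fun v => if v.length % N = i then f v else 0) ∈ V N φ := by
  refine V_ind ?_ (fun f g h1 h2 => ?_) (fun c f h1 => ?_) fun t ht => ?_
  · convert (V N φ).zero_mem using 1
    funext v; simp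
  · convert (V N φ).add_mem h1 h2 using 1
    funext v; simp only [Pi.add_apply]; split_ifs <;> simp
  · convert (V N φ).smul_mem c h1 using 1
    funext v; simp only [Pi.smul_apply]; split_ifs <;> simp
  · by_cases e : (i + t.length) % N = 0 ∧ i < N
    · convert shift_mem φ (by omega : 0 < N) t using 1
      funext v
      split_ifs with h1
      · rfl
      · refine (Phi_zero N φ fun hd => h1 ?_).symm
        rw [List.length_append] at hd
        have h2 : v.length + t.length ≡ i + t.length [MOD N] :=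
          (Nat.mod_eq_zero_of_dvd hd).trans e.1.symm
        exact Eq.trans (Nat.ModEq.add_right_cancel' _ h2) (Nat.mod_eq_of_lt e.2)
    · convert (V N φ).zero_mem using 1
      funext v
      split_ifs with h1
      · refine Phi_zero N φ fun hd => e ⟨?_, h1 ▸ Nat.mod_lt _ (by omega)⟩
        rw [List.length_append] at hd
        rw [← h1, Nat.mod_add_mod]
        exact Nat.mod_eq_zero_of_dvd hd
      · rfl

theorem V_Aw (hN : 0 < N) (w : List Bool) : ∀ f ∈ V N φ, rep K (Aw w) f ∈ V N φ := by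
  induction w with
  | nil => intro f hf; simpa [Aw] using hf
  | cons c w ih =>
    intro f hf
    rw [show Aw (c :: w) = gen c * Aw w by simp [Aw], map_mul]
    exact V_gen φ hN c _ (ih f hf)

theorem V_z (hN : 0 < N) (w : List Bool) (k : ℕ) :
    ∀ f ∈ V N φ, rep K ((Aw w - 1) ^ k) f ∈ V N φ := by
  induction k with
  | zero => intro f hf; simpa using hf
  | succ k ih =>
    intro f hf
    rw [pow_succ', map_mul, map_sub, map_one]
    exact (V N φ).sub_mem (V_Aw hN w _ (ih f hf)) (ih f hf)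

theorem V_rl {a b n : ℕ} (H : Rl h (Phi N φ) a b) (w u : List Bool) (h0 : 0 < n)
    (h1 : a ≤ u.length) (h2 : u.length + n ≤ b) :
    ∀ f ∈ V N φ, ∑ m ∈ W n, (C h w m : K) * f (u ++ m) = 0 :=
  V_ind (by simp) (fun f g h1 h2 => by simp [h1, h2, mul_add, sum_add_distrib])
    (fun c f h1 => by simp only [Pi.smul_apply, smul_eq_mul, mul_left_comm _ c, ← mul_sum, h1,
      mul_zero]) fun t _ => H w n u t h0 h1 h2

/-- chains of windows -/
def Ch (h : ℕ) (φ : List Bool → K) : ℕ → ℕ → ℕ → Prop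
  | 0, a, b => b ≤ a
  | j + 1, a, b => ∃ c, Rl h φ a c ∧ Ch h φ j c b

theorem Ch.left {j a a' b : ℕ} (H : Ch h φ j a b) (ha : a ≤ a') : Ch h φ j a' b := by
  cases j with
  | zero => exact le_trans H ha
  | succ j => obtain ⟨c, h1, h2⟩ := H; exact ⟨c, h1.mono ha le_rfl, h2⟩

theorem Ch.trans {j j' b c : ℕ} (H' : Ch h φ j' b c) : ∀ {a}, Ch h φ j a b → Ch h φ (j' + j) a c := by
  induction j with
  | zero => exact fun H => H'.left H
  | succ j ih => exact fun ⟨e, h1, h2⟩ => ⟨e, h1, ih h2⟩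

theorem kill (hN : 0 < N) (hh : 0 < h) (w : List Bool) {b : ℕ} {f : List Bool → K}
    (hf : f ∈ V N φ) (j : ℕ) : ∀ a, Ch h (Phi N φ) j a b → ∀ u : List Bool,
    (a < u.length ∨ a ≤ u.length ∧ j ≠ 0) → u.length + j * (h * w.length) ≤ b →
    rep K ((Aw w - 1) ^ (h * j)) f u = 0 := by
  induction j with
  | zero => intro a H u h1 h2; have : b ≤ a := H; omega
  | succ j ih =>
    rintro a ⟨c, H1, H2⟩ u h1 h2
    rw [mul_add_one, add_comm, pow_add, map_mul, Module.End.mul_apply,
      rep_apply K _ _ (C_zero w h)]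
    refine sum_eq_zero fun n hn => ?_
    have hn' := mem_range.1 hn
    rw [add_one_mul] at h2
    rcases Nat.eq_zero_or_pos n with rfl | h0
    · obtain ⟨h', rfl⟩ := Nat.exists_eq_succ_of_ne_zero hh.ne'
      simp [W, show co ((Aw w - 1) ^ (h' + 1)) [] = 0 from C_nil w h']
    by_cases hc : u.length + n ≤ c
    · exact V_rl H1 w u h0 (by omega) hc _ (V_z hN w _ f hf)
    · refine sum_eq_zero fun m hm => ?_
      have := (mem_W _ _).1 hm
      rw [ih c H2 (u ++ m) (by simp; omega) (by simp; omega), mul_zero]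

theorem kill' (hN : 0 < N) (hh : 0 < h) (w : List Bool) {a b j k : ℕ} {f : List Bool → K}
    (hf : f ∈ V N φ) (H : Ch h (Phi N φ) j a b) (hj : j ≠ 0) (hk : h * j ≤ k) (u : List Bool)
    (h1 : a ≤ u.length) (h2 : u.length + j * (h * w.length) ≤ b) :
    rep K ((Aw w - 1) ^ k) f u = 0 := by
  obtain ⟨r, rfl⟩ := Nat.exists_eq_add_of_le hk
  rw [pow_add, map_mul, Module.End.mul_apply]
  exact kill hN hh w (V_z hN w r f hf) j a H u (Or.inr ⟨h1, hj⟩) h2

end Space

/-- a long block: `q` blocks of length `ν` and one block that fills it up to length `M` -/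
def psi (M : ℕ) (F : ℕ → List Bool → K) (q ν : ℕ → ℕ) (s : ℕ) : List Bool → K :=
  cat (q s * ν s) (Phi (ν s) (F (ν s))) (F (M - q s * ν s))

section Layout
variable {M S : ℕ} {F : ℕ → List Bool → K} {q ν : ℕ → ℕ} (hS : 0 < S)
  (hF : ∀ N, 2 ≤ N → N ≤ M → Rl h (F N) 0 N)
  (hν : ∀ s, 2 ≤ ν s ∧ ν s ≤ M ∧ q s * ν s + 2 ≤ M)
include hS hF hν

omit hF in
theorem lift {σ a b : ℕ} (H : Rl h (psi M F q ν (σ % S)) a b) (hb : b ≤ M) :
    Rl h (Phi (S * M) (al M (psi M F q ν) S)) (σ * M + a) (σ * M + b) := by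
  have h1 := Nat.mod_lt σ hS
  have h2 := Nat.mul_le_mul_right M (show σ % S + 1 ≤ S from h1)
  rw [add_one_mul] at h2
  have h3 := (H.al hb S h1).phi (N := S * M) (Nat.mul_pos hS (by have := hν 0; omega)) (by omega)
    (σ / S)
  have e : σ / S * (S * M) + σ % S * M = σ * M := by
    rw [← mul_assoc, ← add_mul, Nat.div_add_mod']
  rwa [← add_assoc, ← add_assoc, e] at h3

theorem inA (σ : ℕ) {i : ℕ} (hi : i < q (σ % S)) : Rl h (Phi (S * M) (al M (psi M F q ν) S))
    (σ * M + i * ν (σ % S)) (σ * M + (i * ν (σ % S) + ν (σ % S))) := by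
  obtain ⟨h1, h2, h3⟩ := hν (σ % S)
  have h4 := Nat.mul_le_mul_right (ν (σ % S)) (show i + 1 ≤ _ from hi)
  rw [add_one_mul] at h4
  exact lift hS hν (((hF _ h1 h2).phi (by omega) le_rfl i).catl _ h4) (by omega)

theorem inB (σ : ℕ) : Rl h (Phi (S * M) (al M (psi M F q ν) S))
    (σ * M + q (σ % S) * ν (σ % S)) ((σ + 1) * M) := by
  obtain ⟨h1, h2, h3⟩ := hν (σ % S)
  refine (lift hS hν ((hF (M - q (σ % S) * ν (σ % S)) (by omega) (by omega)).catr _ _)
    (by omega)).mono le_rfl ?_
  rw [add_one_mul]; omega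

theorem few (σ : ℕ) : Ch h (Phi (S * M) (al M (psi M F q ν) S)) (q (σ % S) + 1) (σ * M)
    ((σ + 1) * M) := by
  have key : ∀ j i, i + j = q (σ % S) → Ch h (Phi (S * M) (al M (psi M F q ν) S)) (j + 1)
      (σ * M + i * ν (σ % S)) ((σ + 1) * M) := fun j => by
    induction j with
    | zero => intro i hi; obtain rfl : i = q (σ % S) := hi; exact ⟨_, inB hS hF hν σ, le_rfl⟩
    | succ j ih =>
      intro i hi
      exact ⟨_, inA hS hF hν σ (by omega), by simpa only [add_one_mul] using ih (i + 1) (by omega)⟩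
  simpa using key _ 0 (zero_add _)

theorem big {x l : ℕ} (hl : ∀ s, q s * ν s + l ≤ M)
    (h1 : q (x / M % S) = 0 ∨ l ≤ ν (x / M % S))
    (h2 : q ((x / M + 1) % S) = 0 ∨ l ≤ ν ((x / M + 1) % S)) :
    ∃ a b, a ≤ x ∧ x + l ≤ b ∧ Ch h (Phi (S * M) (al M (psi M F q ν) S)) 2 a b := by
  have hM : 0 < M := by have := hν 0; omega
  have e1 := Nat.div_add_mod' x M
  have e2 := Nat.mod_lt x hM
  generalize x / M = σ at *
  by_cases hc : q (σ % S) * ν (σ % S) ≤ x % M
  · refine ⟨_, (σ + 1) * M + l, by omega, by rw [add_one_mul]; omega, _, inB hS hF hν σ, _, ?_,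
      le_rfl⟩
    have h3 := hl ((σ + 1) % S)
    by_cases h0 : q ((σ + 1) % S) = 0
    · refine (inB hS hF hν (σ + 1)).mono (by simp [h0]) ?_
      rw [add_one_mul (σ + 1)]; omega
    · refine (inA hS hF hν (σ + 1) (Nat.pos_of_ne_zero h0)).mono (by simp) ?_
      have := h2.resolve_left h0
      omega
  · have hν0 : 0 < ν (σ % S) := by have := hν (σ % S); omega
    have e3 := Nat.div_add_mod' (x % M) (ν (σ % S))
    have e4 := Nat.mod_lt (x % M) hν0
    have e5 : x % M / ν (σ % S) < q (σ % S) := (Nat.div_lt_iff_lt_mul hν0).2 (by omega)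
    generalize x % M / ν (σ % S) = i at *
    have h3 := h1.resolve_left (by omega)
    refine ⟨_, σ * M + (i * ν (σ % S) + ν (σ % S)) + l, by omega, by omega, _,
      inA hS hF hν σ e5, _, ?_, le_rfl⟩
    rcases Nat.lt_or_ge (i + 1) (q (σ % S)) with h4 | h4
    · refine (inA hS hF hν σ h4).mono ?_ ?_ <;> rw [add_one_mul] <;> omega
    · obtain h5 : q (σ % S) = i + 1 := by omega
      have h6 := hl (σ % S)
      refine (inB hS hF hν σ).mono ?_ ?_
      · rw [h5, add_one_mul]
      · rw [h5, add_one_mul] at h6; rw [add_one_mul]; omega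

end Layout

end MP77.S99
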