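import Pool.Agent.Lib.MP_77f37b_al.SConn

/-! Three runs of short blocks in a long cycle, and elements that act only near one run. -/

namespace MP77.S99
open Finset

variable {K : Type} [Field K]

/-- number of short blocks in a long block of given level -/
def qq (p : ℕ) (lv : ℕ → ℕ) (s : ℕ) : ℕ := if lv s = 0 then 0 else p ^ lv s

/-- length of the short blocks -/
def nn (p N₀ : ℕ) (lv : ℕ → ℕ) (s : ℕ) : ℕ := p ^ lv s * N₀

/-- an operator that acts only near the long block number `s` -/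
structure Near (M S : ℕ) (φ : List Bool → K) (Z : Module.End K (List Bool → K)) (s : ℕ) : Prop where
  dg : Dg Z M
  loc : ∀ f ∈ V (S * M) φ, Sup (S * M) (Z f) ((s - 1) * M) ((s + 1) * M)
  nz : ∃ f ∈ V (S * M) φ, Z f ≠ 0

theorem Phi_rep {N : ℕ} {φ : List Bool → K} (hN : 0 < N) {w : List Bool} (hw : w.length = N)
    (h : φ w ≠ 0) (k : ℕ) : Phi N φ (List.replicate k w).flatten ≠ 0 := by
  induction k with
  | zero => simp [Phi_nil]
  | succ k ih =>
    rw [List.replicate_succ, List.flatten_cons, Phi_app φ hN (Or.inl (by rw [hw])),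
      Phi_block φ hN hw]
    exact mul_ne_zero h ih

section
variable {p N₀ M S : ℕ} {lv : ℕ → ℕ} {F : ℕ → List Bool → K} (hp : 3 ≤ p) (hN₀ : 2 ≤ N₀)
  (hM : M = 2 * (p ^ 6 * N₀)) (hlv : ∀ s, lv s ≤ 3)
include hp hN₀ hM hlv

omit hN₀ hM in
theorem qn_le (s : ℕ) : qq p lv s * nn p N₀ lv s ≤ p ^ 6 * N₀ := by
  have := hlv s
  unfold qq nn
  split_ifs
  · simp
  · rw [← mul_assoc, ← pow_add]
    exact Nat.mul_le_mul_right _ (Nat.pow_le_pow_right (by omega) (by omega))

theorem hnu (s : ℕ) : 2 ≤ nn p N₀ lv s ∧ nn p N₀ lv s ≤ M ∧ qq p lv s * nn p N₀ lv s + 2 ≤ M := by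
  have h1 := qn_le (N₀ := N₀) hp hlv s
  have h2 : N₀ ≤ nn p N₀ lv s := Nat.le_mul_of_pos_left _ (Nat.pow_pos (by omega))
  have h3 : nn p N₀ lv s ≤ p ^ 6 * N₀ :=
    Nat.mul_le_mul_right _ (Nat.pow_le_pow_right (by omega) (by have := hlv s; omega))
  omega

variable (hS : 0 < S) (hF : ∀ N, 2 ≤ N → N ≤ M → Rl (p / 2) (F N) 0 N)
  (hadj : ∀ σ, lv (σ % S) = 0 ∨ lv ((σ + 1) % S) = 0)
include hS hF hadj

theorem loc {e k : ℕ} (he : e ≤ 3) {w : List Bool} (hw : w.length ≤ p ^ e * N₀)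
    (hk : 2 * (p / 2) ≤ k) (hk' : e ≠ 0 → p ^ e ≤ k) {f : List Bool → K}
    (hf : f ∈ V (S * M) (al M (psi M F (qq p lv) (nn p N₀ lv)) S)) (u : List Bool)
    (h1 : e = 0 ∨ lv (u.length / M % S) ≠ e ∧ lv ((u.length / M + 1) % S) ≠ e) :
    rep K ((Aw w - 1) ^ k) f u = 0 := by
  have hν := hnu hp hN₀ hM hlv
  have hM0 : 0 < M := by have := hν 0; omega
  have hN := Nat.mul_pos hS hM0
  have hh : 0 < p / 2 := by omega
  have l1 : 2 * (p / 2 * w.length) ≤ p ^ (e + 1) * N₀ := by
    rw [← mul_assoc, pow_succ', mul_assoc p]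
    exact Nat.mul_le_mul (by omega) hw
  have l2 : ∀ s, lv s = 0 ∨ e < lv s → qq p lv s = 0 ∨ 2 * (p / 2 * w.length) ≤ nn p N₀ lv s :=
    fun s hs => hs.imp (fun h => if_pos h) fun h =>
      l1.trans (Nat.mul_le_mul_right _ (Nat.pow_le_pow_right (by omega) h))
  by_cases hc : (lv (u.length / M % S) = 0 ∨ e < lv (u.length / M % S)) ∧
      (lv ((u.length / M + 1) % S) = 0 ∨ e < lv ((u.length / M + 1) % S))
  · obtain ⟨a, b, h2, h3, h4⟩ := big hS hF hν (x := u.length) (l := 2 * (p / 2 * w.length))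
      (fun s => by
        have h2 := qn_le (N₀ := N₀) hp hlv s
        have h3 : p ^ (e + 1) * N₀ ≤ p ^ 6 * N₀ :=
          Nat.mul_le_mul_right _ (Nat.pow_le_pow_right (by omega) (by omega))
        omega) (l2 _ hc.1) (l2 _ hc.2)
    exact kill' hN hh w hf h4 two_ne_zero (by omega) u h2 h3
  · have h2 := hadj (u.length / M)
    obtain ⟨e, rfl⟩ : ∃ e', e = e' + 2 := ⟨e - 2, by omega⟩
    have h3 : p ≤ p ^ (e + 1) := Nat.le_self_pow (by omega) p
    have h4 : ∀ s, lv s < e + 2 → qq p lv s ≤ p ^ (e + 1) := fun s hs => by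
      unfold qq
      split_ifs
      · omega
      · exact Nat.pow_le_pow_right (by omega) (by omega)
    have h5 : qq p lv ((u.length / M + 1) % S) + 1 + (qq p lv (u.length / M % S) + 1) ≤
        2 * p ^ (e + 1) := by
      rcases h2 with h2 | h2
      · have h6 : qq p lv (u.length / M % S) = 0 := if_pos h2
        have := h4 ((u.length / M + 1) % S) (by omega)
        omega
      · have h6 : qq p lv ((u.length / M + 1) % S) = 0 := if_pos h2
        have := h4 (u.length / M % S) (by omega)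
        omega
    have h6 : p / 2 * (qq p lv ((u.length / M + 1) % S) + 1 + (qq p lv (u.length / M % S) + 1)) ≤
        p ^ (e + 2) := by
      refine (Nat.mul_le_mul_left _ h5).trans ?_
      rw [← mul_assoc, pow_succ' p (e + 1)]
      exact Nat.mul_le_mul_right _ (by omega)
    refine kill' hN hh w hf ((few hS hF hν _).trans (few hS hF hν _)) (by omega)
      (h6.trans (hk' (by omega))) u (Nat.div_mul_le_self _ _) ?_
    have h7 := Nat.div_add_mod' u.length M
    have h8 := Nat.mod_lt u.length hM0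
    have h9 : p ^ (e + 2) * (p ^ (e + 2) * N₀) ≤ p ^ 6 * N₀ := by
      rw [← mul_assoc, ← pow_add]
      exact Nat.mul_le_mul_right _ (Nat.pow_le_pow_right (by omega) (by omega))
    have h10 := Nat.mul_le_mul h6 hw
    rw [← mul_assoc, mul_comm _ (p / 2), add_one_mul, add_one_mul]
    omega

theorem special {wd : ℕ → List Bool} (hwd : ∀ N, 2 ≤ N → N ≤ M → (wd N).length = N ∧ F N (wd N) ≠ 0) :
    ∃ mw : ℕ → List Bool, (∀ s, (mw s).length = M) ∧
      (∀ s, psi M F (qq p lv) (nn p N₀ lv) s (mw s) ≠ 0) ∧ ∀ s, 0 < s → s < S → lv s ≠ 0 →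
      (∀ t < S, lv t = lv s → t = s) → ∃ w μ : List Bool,
        Near M S (al M (psi M F (qq p lv) (nn p N₀ lv)) S) (rep K ((Aw w - 1) ^ p ^ lv s)) s ∧
        Near M S (al M (psi M F (qq p lv) (nn p N₀ lv)) S) (sh μ) s := by
  have hν := hnu hp hN₀ hM hlv
  have hM0 : 0 < M := by have := hν 0; omega
  have hN := Nat.mul_pos hS hM0
  let mw : ℕ → List Bool := fun s => (List.replicate (qq p lv s) (wd (nn p N₀ lv s))).flatten ++
    wd (M - qq p lv s * nn p N₀ lv s)
  have l1 : ∀ s, (List.replicate (qq p lv s) (wd (nn p N₀ lv s))).flatten.length =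
      qq p lv s * nn p N₀ lv s := fun s => by simp [(hwd _ (hν s).1 (hν s).2.1).1]
  have H : ∀ s, (mw s).length = M := fun s => by
    have := hν s
    rw [List.length_append, l1, (hwd _ (by omega) (by omega)).1]; omega
  have H' : ∀ s, psi M F (qq p lv) (nn p N₀ lv) s (mw s) ≠ 0 := fun s => by
    have := hν s
    rw [psi, cat_app _ _ _ (l1 s)]
    exact mul_ne_zero (Phi_rep (by omega) (hwd _ this.1 this.2.1).1 (hwd _ this.1 this.2.1).2 _)
      (hwd _ (by omega) (by omega)).2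
  refine ⟨mw, H, H', fun s h0 hs he huniq => ?_⟩
  have hq : qq p lv s = p ^ lv s := if_neg he
  obtain ⟨n1, n2, n3⟩ := hν s
  have lw := (hwd _ n1 n2).1
  have lμ := l1 s
  rw [hq] at n3 lμ
  set w := wd (nn p N₀ lv s) with hw
  set μ := (List.replicate (p ^ lv s) w).flatten with hμ
  have hMN : M ≤ S * M := Nat.le_mul_of_pos_left _ hS
  have loc1 : ∀ f ∈ V (S * M) (al M (psi M F (qq p lv) (nn p N₀ lv)) S),
      Sup (S * M) (rep K ((Aw w - 1) ^ p ^ lv s) f) ((s - 1) * M) ((s + 1) * M) := by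
    intro f hf u hu
    have h1 : u.length / M % S = s ∨ (u.length / M + 1) % S = s := by
      by_contra hc
      push Not at hc
      exact hu (loc hp hN₀ hM hlv hS hF hadj (hlv s) lw.le
        (le_trans (by omega) (Nat.le_self_pow he p)) (fun _ => le_rfl) hf u (Or.inr
        ⟨fun e => hc.1 (huniq _ (Nat.mod_lt _ hS) e), fun e => hc.2 (huniq _ (Nat.mod_lt _ hS) e)⟩))
    have h2 : s - 1 ≤ u.length / M % S ∧ u.length / M % S ≤ s := by
      have := pos_add hS (u.length / M) 1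
      omega
    rw [← Nat.mod_mul_left_div_self] at h2
    have h3 := Nat.div_add_mod' (u.length % (S * M)) M
    have h4 := Nat.mod_lt (u.length % (S * M)) hM0
    have h5 := Nat.mul_le_mul_right M h2.1
    have h6 := Nat.mul_le_mul_right M h2.2
    rw [add_one_mul]
    omega
  have top : ∀ (f : List Bool → K) (u : List Bool), rep K ((Aw w - 1) ^ p ^ lv s)
      (pr (S * M) ((u ++ μ).length % (S * M)) f) u = f (u ++ μ) := fun f u => by
    refine (rep_top (μ := μ) (fun m hm => C_zero w _ m (by rwa [lw, ← lμ]))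
      (fun m hm => C_top (by omega) _ m (by rw [hm, lμ, lw])) fun m hm => if_neg fun e => ?_).trans
      (if_pos rfl)
    rw [List.length_append, List.length_append] at e
    exact hm.ne (Nat.ModEq.eq_of_lt_of_lt (Nat.ModEq.add_left_cancel' _ e) (by omega) (by omega))
  obtain ⟨t, ht⟩ := pre_le mw (show s + 1 ≤ S from hs)
  have nz : sh (wd (M - qq p lv s * nn p N₀ lv s) ++ t)
      (Phi (S * M) (al M (psi M F (qq p lv) (nn p N₀ lv)) S)) (pre mw s ++ μ) ≠ 0 := by
    have e : pre mw s ++ μ ++ (wd (M - qq p lv s * nn p N₀ lv s) ++ t) = pre mw S := by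
      rw [ht, pre, hμ, ← hq]; simp [mw, hw]
    rw [sh_apply, e, Phi_block _ hN (pre_len H S)]
    exact al_pre H H' S
  refine ⟨w, μ, ⟨(dg_rep (C_zero w _)).mono (by rw [lw]; omega), loc1, _,
    V_proj _ _ (shift_mem _ hN _), Function.ne_iff.2 ⟨_, (top _ _).trans_ne nz⟩⟩,
    (dg_sh μ).mono (by omega), fun f hf u hu => loc1 _ (V_proj _ f hf) u ((top f u).trans_ne hu),
    _, shift_mem _ hN _, Function.ne_iff.2 ⟨_, nz⟩⟩

end

end MP77.S99
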