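import Mathlib

/-! Irreducible groups that contain two transvections with a common axis. -/

namespace MP77.S99

section Abstract
variable {K V W : Type} [Field K] [AddCommGroup V] [Module K V] [AddCommGroup W] [Module K W]

/-- closure properties of the set of pairs (centre, axis) of transvections in a group -/
structure TS (B : V →ₗ[K] W →ₗ[K] K) (R : V → W → Prop) : Prop where
  zero : ∀ {v f}, R v f → B v f = 0
  addl : ∀ {v v' f}, R v f → R v' f → R (v + v') f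
  addr : ∀ {v f f'}, R v f → R v f' → R v (f + f')
  smull : ∀ {v f} (c : K), R v f → R (c • v) f
  smulr : ∀ {v f} (c : K), R v f → R v (c • f)
  conj : ∀ {v f u g}, R v f → R u g → R (v + B v g • u) (f - B u f • g)
  irrl : ∀ U : Submodule K V, (∀ u g, R u g → (∃ x ∈ U, B x g ≠ 0) → u ∈ U) → U = ⊥ ∨ U = ⊤
  irrr : ∀ D : Submodule K W, (∀ u g, R u g → (∃ f ∈ D, B u f ≠ 0) → g ∈ D) → D = ⊥ ∨ D = ⊤

variable {B : V →ₗ[K] W →ₗ[K] K} {R : V → W → Prop}

theorem TS.flip (h : TS B R) : TS B.flip (fun f v => R v f) where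
  zero := h.zero
  addl := h.addr
  addr := h.addl
  smull := h.smulr
  smulr := h.smull
  conj := fun {f v g u} h1 h2 => by
    have := h.conj h1 (h.smull (-1) h2)
    simpa [sub_eq_add_neg] using this
  irrl := fun U hU => h.irrr U fun u g => hU g u
  irrr := fun U hU => h.irrl U fun u g => hU g u

/-- all orthogonal pairs of `X` and `D` occur -/
def Full (B : V →ₗ[K] W →ₗ[K] K) (R : V → W → Prop) (X : Submodule K V) (D : Submodule K W) :
    Prop := ∀ v ∈ X, ∀ f ∈ D, B v f = 0 → R v f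

theorem TS.swap (h : TS B R) {v u : V} {f g : W} (h1 : R v f) (h2 : R u g) (h3 : B v g = 0)
    (h4 : B u f ≠ 0) : R v g := by
  have h5 := h.smulr (B u f)⁻¹ (h.addr h1 (h.smulr (-1) (by simpa [h3] using h.conj h1 h2)))
  simpa [smul_smul, inv_mul_cancel₀ h4] using h5

theorem TS.step (h : TS B R) {X : Submodule K V} {D : Submodule K W} (hF : Full B R X D)
    {u x : V} {g f₀ f' : W} (hR : R u g) (h0 : f₀ ∈ D) (h1 : B u f₀ ≠ 0) (hx : x ∈ X)
    (hf : f' ∈ D) (e1 : B x g = 0) (e2 : B u f' = 0) (e3 : B x f' ≠ 0) :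
    ∀ v ∈ X, B v g = 0 → R v g := by
  have aux : ∀ y ∈ X, B y g = 0 → B y f' ≠ 0 → R y g := fun y hy h2 h3 =>
    h.swap (hF y hy (f₀ - (B y f₀ / B y f') • f') (D.sub_mem h0 (D.smul_mem _ hf))
      (by simp [div_mul_cancel₀ _ h3])) hR h2 (by simpa [e2] using h1)
  intro v hv h2
  by_cases h3 : B v f' = 0
  · simpa using h.addl (aux (v + x) (X.add_mem hv hx) (by simp [h2, e1]) (by simpa [h3] using e3))
      (h.smull (-1) (aux x hx e1 e3))
  · exact aux v hv h2 h3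

theorem TS.enlarge (h : TS B R) {X : Submodule K V} {D : Submodule K W} (hF : Full B R X D)
    {u : V} {g f₀ : W} (hR : R u g) (h0 : f₀ ∈ D) (h1 : B u f₀ ≠ 0)
    (H : ∀ f₁ ∈ D, ∀ μ, ∃ x ∈ X, ∃ f' ∈ D, B x (g + f₁) = 0 ∧ B μ f' = 0 ∧ B x f' ≠ 0) :
    Full B R X (D ⊔ K ∙ g) := by
  have main : ∀ v ∈ X, ∀ f ∈ D, B v (f + g) = 0 → R v (f + g) := by
    intro v hv f hf e
    by_cases hg : B v g = 0
    · obtain ⟨x, hx, f', hf', e1, e2, e3⟩ := H 0 D.zero_mem u
      exact h.addr (hF v hv f hf (by simpa [hg] using e))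
        (h.step hF hR h0 h1 hx hf' (by simpa using e1) e2 e3 v hv hg)
    · obtain ⟨x, hx, f', hf', e1, e2, e3⟩ := H 0 D.zero_mem v
      rw [add_zero] at e1
      have e4 : B v f = -B v g := by rw [map_add] at e; linear_combination e
      set c := B (x + v) f / B x f' with hc
      have m1 : f - c • f' ∈ D := D.sub_mem hf (D.smul_mem _ hf')
      have e5 : B (x + v) (f - c • f') = 0 := by
        have : B (x + v) f' = B x f' := by simp [e2]
        rw [map_sub, map_smul, this, smul_eq_mul, hc, div_mul_cancel₀ _ e3, sub_self]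
      have r1 := h.conj hR (h.smulr (-(B v g)⁻¹) (hF _ (X.add_mem hx hv) _ m1 e5))
      have e6 : g - B (x + v) g • (-(B v g)⁻¹ • (f - c • f')) = g + (f - c • f') := by
        rw [smul_smul, map_add, LinearMap.add_apply, e1, zero_add, mul_neg, mul_inv_cancel₀ hg]
        rw [neg_one_smul, sub_neg_eq_add]
      rw [e6] at r1
      set u' := u + B u (-(B v g)⁻¹ • (f - c • f')) • (x + v) with hu'
      obtain ⟨f₂, m2, e7⟩ : ∃ f₂ ∈ D, B u' f₂ ≠ 0 := by
        by_cases e8 : B u (f - c • f') = 0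
        · exact ⟨f₀, h0, by rw [hu', map_smul, e8]; simpa using h1⟩
        · refine ⟨_, m1, ?_⟩
          rw [hu', map_add, LinearMap.add_apply, map_smul B, LinearMap.smul_apply, e5]
          simpa using e8
      obtain ⟨y, hy, f₃, m3, e8, e9, e10⟩ := H _ m1 u'
      have r2 := h.step hF r1 m2 e7 hy m3 e8 e9 e10 v hv (by simp [e2, e4])
      have r3 := h.addr r2 (h.smulr c (hF v hv f' hf' e2))
      rwa [show g + (f - c • f') + c • f' = f + g by abel] at r3
  intro v hv f hf e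
  obtain ⟨f₁, m1, _, m2, rfl⟩ := Submodule.mem_sup.1 hf
  obtain ⟨c, rfl⟩ := Submodule.mem_span_singleton.1 m2
  by_cases hc : c = 0
  · subst hc
    simpa using hF v hv f₁ m1 (by simpa using e)
  · have := h.smulr c (main v hv (c⁻¹ • f₁) (D.smul_mem _ m1) (by
      simp only [map_add, map_smul, smul_eq_mul] at e ⊢
      field_simp
      linear_combination e))
    rwa [smul_add, smul_smul, mul_inv_cancel₀ hc, one_smul] at this

theorem TS.grow [Module.Finite K W] (h : TS B R) {X : Submodule K V} {D : Submodule K W}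
    (hF : Full B R X D) (P : ∀ g μ, ∃ x ∈ X, ∃ f ∈ D, B x g = 0 ∧ B μ f = 0 ∧ B x f ≠ 0) :
    Full B R X ⊤ := by
  obtain ⟨E, ⟨h1, h2⟩, h3⟩ := (wellFounded_gt (α := Submodule K W)).has_min
    {E | D ≤ E ∧ Full B R X E} ⟨D, le_rfl, hF⟩
  rcases h.irrr E (fun u g hR ⟨f₀, h0, h4⟩ => by
    by_contra hg
    refine h3 (E ⊔ K ∙ g) ⟨h1.trans le_sup_left, h.enlarge h2 hR h0 h4 fun f₁ _ μ => ?_⟩
      (lt_of_le_of_ne le_sup_left fun e => hg ?_)
    · obtain ⟨x, hx, f, hf, e⟩ := P (g + f₁) μ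
      exact ⟨x, hx, f, h1 hf, e⟩
    · rw [e]; exact Submodule.mem_sup_right (Submodule.mem_span_singleton_self g)) with e | e
  · obtain ⟨x, -, f, hf, -, -, e3⟩ := P 0 0
    have := h1 hf
    rw [e, Submodule.mem_bot] at this
    simp [this] at e3
  · exact e ▸ h2

theorem TS.opp (h : TS B R) (hB : ∀ g, g ≠ 0 → ∃ x, B x g ≠ 0) {u₀ : V} {g₀ : W} (h0 : R u₀ g₀)
    (hu : u₀ ≠ 0) (hg : g₀ ≠ 0) {v : V} {f : W} (hv : v ≠ 0) (hf : f ≠ 0) :
    ∃ u g, R u g ∧ B u f ≠ 0 ∧ B v g ≠ 0 := by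
  let N : Submodule K V :=
    { carrier := {x | ∀ u g, R u g → u ≠ 0 → B x g = 0}
      add_mem' := fun ha hb u g h1 h2 => by simp [ha u g h1 h2, hb u g h1 h2]
      zero_mem' := fun u g _ _ => by simp
      smul_mem' := fun c x ha u g h1 h2 => by simp [ha u g h1 h2] }
  obtain ⟨u₁, g₁, r1, n1, n2⟩ : ∃ u g, R u g ∧ u ≠ 0 ∧ B v g ≠ 0 := by
    by_contra hc
    push Not at hc
    rcases h.irrl N (fun u g h1 ⟨x, hx, h2⟩ => by
      by_cases e : u = 0
      · exact e ▸ N.zero_mem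
      · exact absurd (hx u g h1 e) h2) with e | e
    · exact hv ((Submodule.mem_bot K).1 (e ▸ (show v ∈ N from hc)))
    · obtain ⟨x, hx⟩ := hB g₀ hg
      exact hx ((show x ∈ N from e ▸ Submodule.mem_top) u₀ g₀ h0 hu)
  by_contra hc
  push Not at hc
  have key : ∀ x ∈ Submodule.span K {u | ∃ g, R u g ∧ B v g ≠ 0}, ∀ g', B x g' ≠ 0 →
      ∃ u g, R u g ∧ B v g ≠ 0 ∧ B u g' ≠ 0 := fun x hx g' h1 => by
    by_contra hc'
    push Not at hc'
    refine h1 ?_
    induction hx using Submodule.span_induction with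
    | mem y hy => obtain ⟨g, h2, h3⟩ := hy; exact hc' y g h2 h3
    | zero => simp
    | add y z _ _ hy hz =>
      simp only [map_add, LinearMap.add_apply]
      by_cases e1 : B y g' = 0
      · by_cases e2 : B z g' = 0
        · rw [e1, e2, add_zero]
        · exact absurd (hz e2) e2
      · exact absurd (hy e1) e1
    | smul c y _ hy =>
      by_cases e1 : B y g' = 0
      · simp [e1]
      · exact absurd (hy e1) e1
  rcases h.irrl (Submodule.span K {u | ∃ g, R u g ∧ B v g ≠ 0}) (fun u' g' h1 ⟨x, hx, h2⟩ => by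
    by_cases e : B v g' = 0
    · obtain ⟨u, g, h3, h4, h5⟩ := key x hx g' h2
      have m1 : u ∈ Submodule.span K {u | ∃ g, R u g ∧ B v g ≠ 0} :=
        Submodule.subset_span ⟨g, h3, h4⟩
      have m2 : u + B u g' • u' ∈ Submodule.span K {u | ∃ g, R u g ∧ B v g ≠ 0} :=
        Submodule.subset_span ⟨_, h.conj h3 h1, by simpa [e] using h4⟩
      simpa [smul_smul, inv_mul_cancel₀ h5] using
        Submodule.smul_mem _ (B u g')⁻¹ (Submodule.sub_mem _ m2 m1)
    · exact Submodule.subset_span ⟨g', h1, e⟩) with e | e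
  · exact n1 ((Submodule.mem_bot K).1 (e ▸ Submodule.subset_span ⟨g₁, r1, n2⟩))
  · obtain ⟨x, hx⟩ := hB f hf
    obtain ⟨u, g, h3, h4, h5⟩ := key x (e ▸ Submodule.mem_top) f hx
    exact h4 (hc u g h3 h5)

theorem alg3 (a₁ a₂ a₃ b₁ b₂ b₃ : K) : ∃ x₁ x₂ x₃ y₁ y₂ y₃ : K, x₁ * a₁ + x₂ * a₂ + x₃ * a₃ = 0 ∧
    y₁ * b₁ + y₂ * b₂ + y₃ * b₃ = 0 ∧ x₁ * y₁ + x₂ * y₂ + x₃ * y₃ ≠ 0 := by
  by_contra hc
  push Not at hc
  have h23 := hc a₂ (-a₁) 0 b₃ 0 (-b₁) (by ring) (by ring)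
  have h13 := hc a₂ (-a₁) 0 0 b₃ (-b₂) (by ring) (by ring)
  have h32 := hc a₃ 0 (-a₁) b₂ (-b₁) 0 (by ring) (by ring)
  have h12 := hc a₃ 0 (-a₁) 0 b₃ (-b₂) (by ring) (by ring)
  have h31 := hc 0 a₃ (-a₂) b₂ (-b₁) 0 (by ring) (by ring)
  have h21 := hc 0 a₃ (-a₂) b₃ 0 (-b₁) (by ring) (by ring)
  have h1 := hc 1 0 0 1 0 0
  have h2 := hc 0 1 0 0 1 0
  have h4 := hc a₂ (-a₁) 0 1 0 0 (by ring)
  have h5 := hc 1 0 0 b₂ (-b₁) 0
  simp only [mul_zero, zero_mul, add_zero, zero_add, neg_mul, mul_neg, neg_neg, neg_eq_zero,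
    mul_eq_zero, one_mul, mul_one, one_ne_zero, imp_false, neg_zero] at *
  by_cases e : a₁ = 0
  · have e1 := h1 e
    have e2 := h21.resolve_right e1
    exact h2 e2 (h5 e (by ring))
  · have e1 := h12.resolve_left e
    have e2 : a₂ ≠ 0 := fun e2 => h2 e2 e1
    exact e2 (h4 (h21.resolve_left e2))

theorem TS.all [Module.Finite K V] [Module.Finite K W] (h : TS B R)
    (hB : ∀ g, g ≠ 0 → ∃ x, B x g ≠ 0) {v₁ v₂ : V} {f : W} (r1 : R v₁ f) (r2 : R v₂ f) (hf : f ≠ 0)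
    (hv : ∀ a b : K, a • v₁ + b • v₂ = 0 → a = 0 ∧ b = 0) : ∀ v g, B v g = 0 → R v g := by
  have n1 : v₁ ≠ 0 := fun e => one_ne_zero (hv 1 0 (by simp [e])).1
  obtain ⟨u, g, r3, n2, n3⟩ := h.opp hB r1 n1 hf n1 hf
  set v₃ := (-B v₂ g) • v₁ + B v₁ g • v₂ with hv₃
  have n4 : v₃ ≠ 0 := fun e => n3 (hv _ _ e).2
  have r4 : R v₃ f := h.addl (h.smull _ r1) (h.smull _ r2)
  have z1 : B v₃ g = 0 := by simp [hv₃, mul_comm]
  have r5 := h.swap r4 r3 z1 n2
  clear_value v₃
  have z2 := h.zero r4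
  have z3 := h.zero r1
  have z4 := h.zero r3
  obtain ⟨u', g', r6, n5, n6⟩ := h.opp hB r1 n1 hf n4 hf
  set X := Submodule.span K {u, v₁, v₃} with hX
  set D := Submodule.span K {f, g} with hD
  have mu : u ∈ X := Submodule.subset_span (by simp)
  have m1 : v₁ ∈ X := Submodule.subset_span (by simp)
  have m3 : v₃ ∈ X := Submodule.subset_span (by simp)
  have mf : f ∈ D := Submodule.subset_span (by simp)
  have mg : g ∈ D := Submodule.subset_span (by simp)
  have F1 : Full B R X D := by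
    intro v hv f' hf' e
    obtain ⟨a, b, c, rfl⟩ := Submodule.mem_span_triple.1 hv
    obtain ⟨α, β, rfl⟩ := Submodule.mem_span_pair.1 hf'
    refine h.addl ?_ (h.smull _ (h.addr (h.smulr _ r4) (h.smulr _ r5)))
    simp only [map_add, map_smul, LinearMap.add_apply, LinearMap.smul_apply, smul_eq_mul, z1, z2,
      z3, z4, mul_zero, add_zero, zero_add] at e
    by_cases hβ : β = 0
    · by_cases hα : α = 0
      · have s1 : R u 0 := by simpa using h.smulr 0 r3
        have s2 : R v₁ 0 := by simpa using h.smulr 0 r1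
        simpa [hα, hβ] using h.addl (h.smull a s1) (h.smull b s2)
      · have : a = 0 := by simpa [hβ, hα, n2] using e
        simpa [this, hβ] using h.smull b (h.smulr α r1)
    · have r7 := h.smull a (h.smulr β (h.conj r3 (h.smull (-(α / (β * B v₁ g))) r1)))
      convert r7 using 1
      · rw [smul_add, smul_smul, smul_smul]
        congr 2
        field_simp
        linear_combination e
      · rw [smul_sub, smul_smul, sub_eq_add_neg, ← neg_smul, add_comm]
        congr 2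
        simp only [map_smul, LinearMap.smul_apply, smul_eq_mul]
        field_simp
  have F2 := h.enlarge F1 r6 mf n5 (fun f₁ hf₁ μ => by
    obtain ⟨α, β, rfl⟩ := Submodule.mem_span_pair.1 hf₁
    obtain ⟨x, hx, f', hf', e1, e2, e3⟩ : ∃ x ∈ X, ∃ f' ∈ D, B μ f' = 0 ∧ B x f' ≠ 0 ∧
        B v₃ f' = 0 := by
      by_cases e : B μ f = 0
      · exact ⟨u, mu, f, mf, e, n2, z2⟩
      · exact ⟨v₁, m1, B μ g • f - B μ f • g, D.sub_mem (D.smul_mem _ mf) (D.smul_mem _ mg),
          by simp [mul_comm], by simp [z3, e, n3], by simp [z1, z2]⟩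
    refine ⟨x - (B x (g' + (α • f + β • g)) / B v₃ g') • v₃, X.sub_mem hx (X.smul_mem _ m3), f',
      hf', ?_, e1, by simpa [e3] using e2⟩
    rw [map_sub, LinearMap.sub_apply, map_smul, LinearMap.smul_apply, map_add (B v₃)]
    simp [z1, z2, div_mul_cancel₀ _ n6])
  set g'' := g' - (B u g' / B u f) • f - (B v₁ g' / B v₁ g) • g with hg''
  have mg'' : g'' ∈ D ⊔ K ∙ g' := Submodule.sub_mem _ (Submodule.sub_mem _
    (Submodule.mem_sup_right (Submodule.mem_span_singleton_self _))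
    (Submodule.mem_sup_left (D.smul_mem _ mf))) (Submodule.mem_sup_left (D.smul_mem _ mg))
  have z5 : B u g'' = 0 := by simp [hg'', z4, div_mul_cancel₀ _ n2]
  have z6 : B v₁ g'' = 0 := by simp [hg'', z3, div_mul_cancel₀ _ n3]
  have n7 : B v₃ g'' ≠ 0 := by simpa [hg'', z1, z2] using n6
  clear_value g''
  have P : ∀ g₀ μ, ∃ x ∈ X, ∃ f' ∈ D ⊔ K ∙ g', B x g₀ = 0 ∧ B μ f' = 0 ∧ B x f' ≠ 0 := by
    intro g₀ μ
    obtain ⟨x₁, x₂, x₃, y₁, y₂, y₃, e1, e2, e3⟩ := alg3 (B u g₀ / B u f) (B v₁ g₀ / B v₁ g)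
      (B v₃ g₀ / B v₃ g'') (B μ f) (B μ g) (B μ g'')
    refine ⟨(x₁ / B u f) • u + (x₂ / B v₁ g) • v₁ + (x₃ / B v₃ g'') • v₃,
      X.add_mem (X.add_mem (X.smul_mem _ mu) (X.smul_mem _ m1)) (X.smul_mem _ m3),
      y₁ • f + y₂ • g + y₃ • g'', Submodule.add_mem _ (Submodule.mem_sup_left
        (D.add_mem (D.smul_mem _ mf) (D.smul_mem _ mg))) (Submodule.smul_mem _ _ mg''), ?_, ?_, ?_⟩
    · simp only [map_add, map_smul, LinearMap.add_apply, LinearMap.smul_apply, smul_eq_mul]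
      rw [← e1]; ring
    · simpa using e2
    · simp only [map_add, map_smul, LinearMap.add_apply, LinearMap.smul_apply, smul_eq_mul, z1, z2,
        z3, z4, z5, z6, mul_zero, add_zero, zero_add, div_mul_cancel₀ _ n2, div_mul_cancel₀ _ n3,
        div_mul_cancel₀ _ n7]
      rwa [mul_comm y₁, mul_comm y₂, mul_comm y₃]
  have F3 := h.grow F2 P
  have F4 := h.flip.grow (X := ⊤) (D := X) (fun g _ v hv e => F3 v hv g trivial e) (fun μ g₀ => by
    obtain ⟨x, hx, f', -, e1, e2, e3⟩ := P g₀ μ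
    exact ⟨f', trivial, x, hx, e2, e1, e3⟩)
  exact fun v g e => F4 g trivial v trivial e

end Abstract

end MP77.S99
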