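import Mathlib

/-! Subword counting functions, infiltration product, shuffles and Lyndon words. -/

namespace MP77

/-- `E w m`: number of occurrences of `m` as a subsequence of `w`. -/
def E : List Bool → List Bool → ℕ
  | _, [] => 1
  | [], _ :: _ => 0
  | e :: w, c :: m => E w (c :: m) + if c = e then E w m else 0

@[simp] lemma E_nil (w : List Bool) : E w [] = 1 := by cases w <;> rfl
@[simp] lemma E_nil_cons (c : Bool) (m : List Bool) : E [] (c :: m) = 0 := rfl
lemma E_cons_cons (e c : Bool) (w m : List Bool) :
    E (e :: w) (c :: m) = E w (c :: m) + if c = e then E w m else 0 := rfl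

lemma E_eq_zero : ∀ (w m : List Bool), w.length < m.length → E w m = 0
  | _, [], h => by simp at h
  | [], _ :: _, _ => rfl
  | e :: w, c :: m, h => by
      rw [E_cons_cons, E_eq_zero w (c :: m) (by simp at h ⊢; omega),
        E_eq_zero w m (by simp at h ⊢; omega)]
      simp

/-- infiltration product, as a list with multiplicities -/
def inf : List Bool → List Bool → List (List Bool)
  | [], v => [v]
  | a :: u, [] => [a :: u]
  | a :: u, b :: v => (inf u (b :: v)).map (a :: ·) ++ (inf (a :: u) v).map (b :: ·) ++
      (if a = b then (inf u v).map (a :: ·) else [])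
termination_by u v => u.length + v.length

lemma inf_nil_left (v : List Bool) : inf [] v = [v] := by rw [inf]
lemma inf_nil_right (u : List Bool) : inf u [] = [u] := by cases u <;> rw [inf]
lemma inf_cons (a b : Bool) (u v : List Bool) : inf (a :: u) (b :: v) =
    (inf u (b :: v)).map (a :: ·) ++ (inf (a :: u) v).map (b :: ·) ++
      (if a = b then (inf u v).map (a :: ·) else []) := by rw [inf]

lemma sum_cons_E (e a : Bool) (w : List Bool) (L : List (List Bool)) :
    ((L.map (a :: ·)).map (E (e :: w))).sum =
      ((L.map (a :: ·)).map (E w)).sum + if a = e then (L.map (E w)).sum else 0 := by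
  induction L with
  | nil => simp
  | cons s L ih =>
    simp only [List.map_cons, List.sum_cons, ih, E_cons_cons]
    split_ifs <;> omega

lemma sum_cons_E_nil (a : Bool) (L : List (List Bool)) :
    ((L.map (a :: ·)).map (E [])).sum = 0 := by
  induction L with
  | nil => simp
  | cons s L ih => simp only [List.map_cons, List.sum_cons, ih, E_nil_cons]

lemma E_mul (w : List Bool) : ∀ u v : List Bool, E w u * E w v = ((inf u v).map (E w)).sum := by
  induction w with
  | nil =>
    intro u v
    rcases u with _ | ⟨a, u⟩
    · simp [inf_nil_left]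
    rcases v with _ | ⟨b, v⟩
    · simp [inf_nil_right]
    rw [inf_cons]
    simp only [List.map_append, List.sum_append, sum_cons_E_nil, E_nil_cons]
    split_ifs
    · rw [sum_cons_E_nil]
    · simp
  | cons e w ih =>
    intro u v
    rcases u with _ | ⟨a, u⟩
    · simp [inf_nil_left]
    rcases v with _ | ⟨b, v⟩
    · simp [inf_nil_right]
    have h1 := ih (a :: u) (b :: v)
    have h2 := ih u (b :: v)
    have h3 := ih (a :: u) v
    have h4 := ih u v
    rw [inf_cons] at h1 ⊢
    simp only [List.map_append, List.sum_append, sum_cons_E, E_cons_cons] at h1 ⊢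
    by_cases hab : a = b
    · subst hab
      simp only [if_true, sum_cons_E] at h1 ⊢
      split_ifs
      · rw [← h2, ← h3, ← h4]; nlinarith [h1]
      · simpa using h1
    · simp only [hab, if_false, List.map_nil, List.sum_nil] at h1 ⊢
      by_cases hae : a = e
      · have hbe : ¬ b = e := fun h => hab (hae.trans h.symm)
        simp only [hae, hbe, if_true, if_false] at h1 h2 h3 h4 ⊢
        rw [← h2]; nlinarith [h1]
      · by_cases hbe : b = e
        · simp only [hae, hbe, if_true, if_false] at h1 h2 h3 h4 ⊢
          rw [← h3]; nlinarith [h1]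
        · simp only [hae, hbe, if_false] at h1 ⊢
          simpa using h1

/-- shuffles -/
inductive Sh : List Bool → List Bool → List Bool → Prop
  | nil : Sh [] [] []
  | left {p q s : List Bool} (a : Bool) : Sh p q s → Sh (a :: p) q (a :: s)
  | right {p q s : List Bool} (a : Bool) : Sh p q s → Sh p (a :: q) (a :: s)

lemma Sh.nil_left : ∀ v : List Bool, Sh [] v v
  | [] => Sh.nil
  | a :: v => Sh.right a (Sh.nil_left v)

lemma Sh.nil_right : ∀ v : List Bool, Sh v [] v
  | [] => Sh.nil
  | a :: v => Sh.left a (Sh.nil_right v)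

lemma Sh.app : ∀ u v : List Bool, Sh u v (u ++ v)
  | [], v => Sh.nil_left v
  | a :: u, v => Sh.left a (Sh.app u v)

lemma Sh.length {p q s : List Bool} (h : Sh p q s) : s.length = p.length + q.length := by
  induction h with
  | nil => rfl
  | left a _ ih => simp [ih]; omega
  | right a _ ih => simp [ih]; omega

lemma Sh.eq_of_nil_left {p q s : List Bool} (h : Sh p q s) (hp : p = []) : s = q := by
  induction h with
  | nil => rfl
  | left a _ _ => simp at hp
  | right a _ ih => rw [ih hp]

lemma mem_inf (u v : List Bool) : ∀ s ∈ inf u v, Sh u v s ∨ s.length < u.length + v.length := by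
  induction u, v using inf.induct with
  | case1 v => intro s hs; rw [inf_nil_left] at hs; simp at hs; subst hs; exact Or.inl (Sh.nil_left _)
  | case2 a u =>
    intro s hs; rw [inf_nil_right] at hs; simp at hs; subst hs; exact Or.inl (Sh.nil_right _)
  | case3 a u b v ih1 ih2 ih3 =>
    intro s hs
    rw [inf_cons] at hs
    simp only [List.mem_append, List.mem_map] at hs
    rcases hs with (⟨s', hs', rfl⟩ | ⟨s', hs', rfl⟩) | hs
    · rcases ih1 s' hs' with h | h
      · exact Or.inl (Sh.left a h)
      · right; simp at h ⊢; omega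
    · rcases ih2 s' hs' with h | h
      · exact Or.inl (Sh.right b h)
      · right; simp at h ⊢; omega
    · split_ifs at hs with hab
      · simp only [List.mem_map] at hs
        obtain ⟨s', hs', rfl⟩ := hs
        right
        rcases ih3 s' hs' with h | h
        · have := h.length; simp; omega
        · simp; omega
      · simp at hs

lemma ne_nil_of_mem_inf (u v : List Bool) (hu : u ≠ []) : ∀ s ∈ inf u v, s ≠ [] := by
  intro s hs
  rcases u with _ | ⟨a, u⟩
  · exact absurd rfl hu
  rcases v with _ | ⟨b, v⟩
  · rw [inf_nil_right] at hs; simp at hs; subst hs; simp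
  rw [inf_cons] at hs
  simp only [List.mem_append, List.mem_map] at hs
  rcases hs with (⟨s', _, rfl⟩ | ⟨s', _, rfl⟩) | hs
  · simp
  · simp
  · split_ifs at hs with hab
    · simp only [List.mem_map] at hs
      obtain ⟨s', _, rfl⟩ := hs
      simp
    · simp at hs

lemma app_mem_inf : ∀ u v : List Bool, u ++ v ∈ inf u v
  | [], v => by simp [inf_nil_left]
  | a :: u, [] => by simp [inf_nil_right]
  | a :: u, b :: v => by
      rw [inf_cons]
      have := app_mem_inf u (b :: v)
      simp only [List.mem_append, List.mem_map]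
      exact Or.inl (Or.inl ⟨_, this, rfl⟩)

lemma cle {a b : Bool} {p q : List Bool} : a :: p ≤ b :: q ↔ a < b ∨ a = b ∧ p ≤ q := by
  rw [le_iff_lt_or_eq, le_iff_lt_or_eq, List.cons_lt_cons_iff, List.cons.injEq]
  tauto

lemma not_cons_le_nil {a : Bool} {p : List Bool} : ¬ a :: p ≤ [] :=
  not_le.2 (List.nil_lt_cons a p)

lemma reflect {P q s : List Bool} (h : Sh P q s) : ∀ z p : List Bool, P = z ++ p → q ≤ p →
    ∃ s', s ≤ s' ∧ Sh p (z ++ q) s' := by
  induction h with
  | nil =>
    intro z p hzp _
    have hz : z = [] := by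
      rcases z with _ | ⟨c, z⟩
      · rfl
      · simp at hzp
    subst hz
    simp at hzp
    subst hzp
    exact ⟨[], le_rfl, Sh.nil⟩
  | @left P q s a h ih =>
    intro z p hzp hqp
    rcases z with _ | ⟨c, z⟩
    · simp at hzp
      subst hzp
      exact ⟨a :: s, le_rfl, Sh.left a h⟩
    · simp only [List.cons_append, List.cons.injEq] at hzp
      obtain ⟨rfl, hP⟩ := hzp
      obtain ⟨s', h1, h2⟩ := ih z p hP hqp
      exact ⟨a :: s', cle.2 (Or.inr ⟨rfl, h1⟩), Sh.right a h2⟩
  | @right P q s e h ih =>
    intro z p hzp hqp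
    rcases p with _ | ⟨f, p⟩
    · exact absurd hqp not_cons_le_nil
    rcases cle.1 hqp with hlt | ⟨rfl, hle⟩
    · exact ⟨f :: (p ++ (z ++ e :: q)), cle.2 (Or.inl hlt),
        Sh.left f (Sh.app _ _)⟩
    · obtain ⟨s', h1, h2⟩ := ih (z ++ [e]) p (by simpa using hzp) hle
      refine ⟨e :: s', cle.2 (Or.inr ⟨rfl, h1⟩), Sh.left e ?_⟩
      simpa using h2

lemma lt_cases : ∀ p q : List Bool, p < q →
    (∃ r, r ≠ [] ∧ q = p ++ r) ∨ ∀ r r', p ++ r < q ++ r'
  | [], [], h => absurd h (lt_irrefl _)
  | [], b :: q, _ => Or.inl ⟨b :: q, by simp, rfl⟩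
  | _ :: _, [], h => by simp at h
  | a :: p, b :: q, h => by
      rcases List.cons_lt_cons_iff.1 h with hlt | ⟨rfl, h'⟩
      · exact Or.inr fun r r' => List.cons_lt_cons_iff.2 (Or.inl hlt)
      · rcases lt_cases p q h' with ⟨r, hr, rfl⟩ | h2
        · exact Or.inl ⟨r, hr, rfl⟩
        · exact Or.inr fun r r' => List.cons_lt_cons_iff.2 (Or.inr ⟨rfl, h2 r r'⟩)

lemma app_le_cancel : ∀ p q r : List Bool, p ++ q ≤ p ++ r → q ≤ r
  | [], _, _, h => h
  | a :: p, q, r, h => by
      rcases cle.1 h with hlt | ⟨_, h'⟩
      · exact absurd hlt (lt_irrefl _)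
      · exact app_le_cancel p q r h'

/-- Lyndon words -/
def Lyn (l : List Bool) : Prop :=
  l ≠ [] ∧ ∀ u v, l = u ++ v → u ≠ [] → v ≠ [] → l < v

lemma sh_le (v : List Bool) : ∀ u : List Bool,
    (∀ u1 v1, u ++ v = u1 ++ v1 → v1 ≠ [] → v ≤ v1) → ∀ s, Sh u v s → s ≤ u ++ v := by
  intro u
  induction u with
  | nil => intro _ s hs; rw [hs.eq_of_nil_left rfl]; exact le_rfl
  | cons c u ih =>
    intro hmin s hs
    have ih' := ih (fun u1 v1 h hv => hmin (c :: u1) v1 (by simp [h]) hv)
    have hge : v ≤ c :: u := by
      by_contra hlt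
      rw [not_le] at hlt
      have h0 := hmin [] (c :: u ++ v) rfl (by simp)
      rcases lt_cases _ _ hlt with ⟨r, hr, hv⟩ | h2
      · have h1 : r ≤ v := by
          apply app_le_cancel (c :: u)
          rw [← hv]; exact h0
        have h3 : v ≤ r := hmin (c :: u ++ c :: u) r (by rw [hv]; simp) hr
        have h4 : v = r := le_antisymm h3 h1
        have := congrArg List.length hv
        rw [← h4] at this
        simp at this
        omega
      · have := h2 v []
        rw [List.append_nil] at this
        exact absurd h0 (not_le.2 this)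
    generalize hP : c :: u = P at hs
    cases hs with
    | nil => simp at hP
    | @left p q s a h =>
      simp only [List.cons.injEq] at hP
      obtain ⟨rfl, rfl⟩ := hP
      exact cle.2 (Or.inr ⟨rfl, ih' s h⟩)
    | @right p q s a h =>
      subst hP
      rcases cle.1 hge with hlt | ⟨rfl, hle⟩
      · exact cle.2 (Or.inl hlt)
      · obtain ⟨s', h1, h2⟩ := reflect h [a] u rfl hle
        exact cle.2 (Or.inr ⟨rfl, h1.trans (ih' s' h2)⟩)

lemma exists_split (m : List Bool) (hm : m ≠ []) (hL : ¬ Lyn m) :
    ∃ u v, m = u ++ v ∧ u ≠ [] ∧ v ≠ [] ∧ ∀ s, Sh u v s → s ≤ m := by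
  have hpos : 0 < m.length := List.length_pos_iff.2 hm
  obtain ⟨i, hi, hmin⟩ := Finset.exists_min_image (Finset.range m.length) (fun i => m.drop i)
    ⟨0, Finset.mem_range.2 hpos⟩
  have hi' := Finset.mem_range.1 hi
  have key : ∀ u1 v1, m = u1 ++ v1 → v1 ≠ [] → m.drop i ≤ v1 := by
    intro u1 v1 h hv
    have hl : u1.length < m.length := by
      have := List.length_pos_iff.2 hv
      rw [h]; simp; omega
    have := hmin u1.length (Finset.mem_range.2 hl)
    have h2 : m.drop u1.length = v1 := by rw [h]; simp
    simpa [h2] using this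
  refine ⟨m.take i, m.drop i, (List.take_append_drop i m).symm, ?_, ?_, ?_⟩
  · intro h0
    apply hL
    refine ⟨hm, fun u v h hu hv => ?_⟩
    have hd : m.drop i = m := by
      conv_rhs => rw [← List.take_append_drop i m, h0]
      simp
    have h1 := key u v h hv
    rw [hd] at h1
    refine lt_of_le_of_ne h1 fun h2 => ?_
    have h5 := congrArg List.length h
    have h6 := congrArg List.length h2
    have := List.length_pos_iff.2 hu
    rw [List.length_append] at h5
    omega
  · intro h0
    have := congrArg List.length h0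
    simp at this
    omega
  · intro s hs
    have := sh_le (m.drop i) (m.take i) (fun u1 v1 h hv => key u1 v1 (by
      rw [← h, List.take_append_drop]) hv) s hs
    rwa [List.take_append_drop] at this

lemma Lyn.lt_rotate {l : List Bool} (h : Lyn l) {i : ℕ} (h0 : 0 < i) (hi : i < l.length) :
    l < l.rotate i := by
  have h1 : l.take i ≠ [] := by
    intro h0'
    have := congrArg List.length h0'
    simp only [List.length_take, List.length_nil] at this
    omega
  have h2 : l.drop i ≠ [] := by
    intro h0'
    have := congrArg List.length h0'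
    simp only [List.length_drop, List.length_nil] at this
    omega
  have h3 := h.2 (l.take i) (l.drop i) (List.take_append_drop i l).symm h1 h2
  rw [List.rotate_eq_drop_append_take hi.le]
  rcases lt_cases _ _ h3 with ⟨r, _, hr⟩ | h4
  · have := congrArg List.length hr
    simp at this
    omega
  · simpa using h4 [] (l.take i)

end MP77
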