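import Pool.Agent.Lib.MP_77f37b_al.Shuffle

/-! Words of given length, Lyndon monomials and the filtration `A N j n`. -/

namespace MP77
open Finset

/-- words of length `n` -/
def W : ℕ → Finset (List Bool)
  | 0 => {[]}
  | n + 1 => (W n).image (true :: ·) ∪ (W n).image (false :: ·)

lemma mem_W : ∀ (n : ℕ) (m : List Bool), m ∈ W n ↔ m.length = n
  | 0, m => by simp [W]
  | n + 1, [] => by simp [W]
  | n + 1, c :: m => by
      cases c <;> simp [W, mem_W n]

lemma card_W : ∀ n : ℕ, (W n).card ≤ 2 ^ n
  | 0 => by simp [W]
  | n + 1 => by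
      have h := card_W n
      have h1 := Finset.card_union_le ((W n).image (true :: ·)) ((W n).image (false :: ·))
      have h2 := Finset.card_image_le (s := W n) (f := (true :: ·))
      have h3 := Finset.card_image_le (s := W n) (f := (false :: ·))
      rw [W, pow_succ]; omega

open Classical in
/-- Lyndon words of length `k` -/
noncomputable def LW (k : ℕ) : Finset (List Bool) := (W k).filter Lyn

lemma mem_LW {k : ℕ} {m : List Bool} : m ∈ LW k ↔ m.length = k ∧ Lyn m := by
  simp [LW, mem_W]

lemma card_LW (k : ℕ) : (LW k).card * k ≤ 2 ^ k := by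
  have h : ((LW k) ×ˢ (range k)).card ≤ (W k).card := by
    apply Finset.card_le_card_of_injOn (fun x => x.1.rotate x.2)
    · intro x hx
      simp only [coe_product, Set.mem_prod, mem_coe, mem_LW] at hx
      simp [mem_W, hx.1.1]
    · have key : ∀ (l l' : List Bool) (i j : ℕ), l ∈ LW k → l' ∈ LW k → i ≤ j → j < k →
          l.rotate i = l'.rotate j → i = j ∧ l = l' := by
        intro l l' i j hl hl' hij hj h
        obtain ⟨h1, h2⟩ := mem_LW.1 hl
        obtain ⟨h1', h2'⟩ := mem_LW.1 hl'
        have e1 : l = l'.rotate (j - i) := by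
          have : (l'.rotate (j - i)).rotate i = l'.rotate j := by
            rw [List.rotate_rotate]; congr 1; omega
          rw [← this] at h
          exact List.rotate_injective i h
        rcases Nat.eq_or_lt_of_le hij with rfl | hlt
        · simpa using e1
        · exfalso
          have e2 : l.rotate (k - (j - i)) = l' := by
            rw [e1, List.rotate_rotate]
            have : j - i + (k - (j - i)) = l'.length := by omega
            rw [this, List.rotate_length]
          have a1 := h2'.lt_rotate (i := j - i) (by omega) (by omega)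
          have a2 := h2.lt_rotate (i := k - (j - i)) (by omega) (by omega)
          rw [← e1] at a1
          rw [e2] at a2
          exact lt_asymm a1 a2
      rintro ⟨l, i⟩ hx ⟨l', j⟩ hy hxy
      simp only [coe_product, Set.mem_prod, mem_coe, coe_range, Set.mem_Iio] at hx hy hxy
      rcases le_total i j with hij | hij
      · obtain ⟨rfl, rfl⟩ := key l l' i j hx.1 hy.1 hij hy.2 hxy
        rfl
      · obtain ⟨rfl, rfl⟩ := key l' l j i hy.1 hx.1 hij hx.2 hxy.symm
        rfl
  rw [Finset.card_product, card_range] at h
  exact h.trans (card_W k)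

/-- Lyndon words of length at most `N` -/
noncomputable def Lam (N : ℕ) : Finset (List Bool) := (range (N + 1)).biUnion LW

lemma mem_Lam {N : ℕ} {m : List Bool} : m ∈ Lam N ↔ m.length ≤ N ∧ Lyn m := by
  simp only [Lam, mem_biUnion, mem_range, mem_LW]
  constructor
  · rintro ⟨k, hk, h1, h2⟩; exact ⟨by omega, h2⟩
  · rintro ⟨h1, h2⟩; exact ⟨_, by omega, rfl, h2⟩

/-- the counting function as a rational valued function of the word -/
def eps (m : List Bool) : List Bool → ℚ := fun w => E w m

/-- Lyndon monomial -/
noncomputable def mono {N : ℕ} (f : Lam N → ℕ) : List Bool → ℚ := ∏ l, eps l.1 ^ f l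

/-- weight of an exponent vector -/
noncomputable def wt {N : ℕ} (f : Lam N → ℕ) : ℕ := ∑ l, f l * l.1.length

/-- span of Lyndon monomials with at least `j` factors and weight at most `n` -/
noncomputable def A (N j n : ℕ) : Submodule ℚ (List Bool → ℚ) :=
  Submodule.span ℚ (mono '' {f : Lam N → ℕ | j ≤ ∑ l, f l ∧ wt f ≤ n})

lemma A_mono {N j j' n n' : ℕ} (hj : j' ≤ j) (hn : n ≤ n') : A N j n ≤ A N j' n' := by
  apply Submodule.span_mono
  apply Set.image_mono
  intro f hf
  exact ⟨hj.trans hf.1, hf.2.trans hn⟩

lemma A_mul {N j j' n n' : ℕ} {f g : List Bool → ℚ} (hf : f ∈ A N j n) (hg : g ∈ A N j' n') :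
    f * g ∈ A N (j + j') (n + n') := by
  have h := Submodule.mul_mem_mul hf hg
  rw [A, A, Submodule.span_mul_span] at h
  refine Submodule.span_mono ?_ h
  rintro _ ⟨_, ⟨a, ha, rfl⟩, _, ⟨b, hb, rfl⟩, rfl⟩
  refine ⟨a + b, ⟨?_, ?_⟩, ?_⟩
  · simp only [Pi.add_apply, sum_add_distrib]; exact add_le_add ha.1 hb.1
  · have : wt (a + b) = wt a + wt b := by
      simp only [wt, Pi.add_apply, add_mul, sum_add_distrib]
    rw [this]; exact add_le_add ha.2 hb.2
  · simp only [mono, Pi.add_apply, pow_add, prod_mul_distrib]

lemma one_mem_A (N : ℕ) : (1 : List Bool → ℚ) ∈ A N 0 0 :=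
  Submodule.subset_span ⟨0, ⟨by simp, by simp [wt]⟩, by simp [mono]⟩

lemma eps_mul (u v : List Bool) : eps u * eps v = ((inf u v).map eps).sum := by
  funext w
  have h := E_mul w u v
  have h2 : ∀ L : List (List Bool), (L.map eps).sum w = ((L.map (E w)).sum : ℕ) := by
    intro L
    induction L with
    | nil => simp
    | cons s L ih => simp [ih, eps]
  rw [h2, ← h]
  simp [eps]

lemma list_sum_split (L : List (List Bool)) (m : List Bool) :
    (L.map eps).sum = (L.count m : ℚ) • eps m + ((L.filter (· ≠ m)).map eps).sum := by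
  induction L with
  | nil => simp
  | cons s L ih =>
    by_cases h : s = m
    · subst h
      simp only [List.map_cons, List.sum_cons, ih, List.count_cons_self, ne_eq, not_true_eq_false,
        decide_false, Bool.false_eq_true, not_false_eq_true, List.filter_cons_of_neg]
      push_cast
      rw [add_smul, one_smul]; abel
    · rw [List.filter_cons_of_pos (by simpa using h), List.count_cons_of_ne h]
      simp only [List.map_cons, List.sum_cons, ih]
      abel

lemma eps_mem (N : ℕ) : ∀ (n k : ℕ) (m : List Bool), m.length = n →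
    ((W n).filter (· < m)).card = k → m ≠ [] → n ≤ N → eps m ∈ A N 1 n := by
  intro n
  induction n using Nat.strong_induction_on with
  | _ n ihn =>
  intro k
  induction k using Nat.strong_induction_on with
  | _ k ihk =>
  intro m hm hk hne hN
  by_cases hL : Lyn m
  · have hmem : m ∈ Lam N := mem_Lam.2 ⟨by omega, hL⟩
    refine Submodule.subset_span ⟨Pi.single ⟨m, hmem⟩ 1, ⟨by simp, ?_⟩, ?_⟩
    · simp only [wt]
      rw [Finset.sum_eq_single ⟨m, hmem⟩]
      · simp [hm]
      · intro b _ hb; simp [Pi.single_eq_of_ne hb]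
      · simp
    · simp only [mono]
      rw [Finset.prod_eq_single ⟨m, hmem⟩]
      · simp
      · intro b _ hb; simp [Pi.single_eq_of_ne hb]
      · simp
  · obtain ⟨u, v, huv, hu, hv, hsh⟩ := exists_split m hne hL
    have hlu := List.length_pos_iff.2 hu
    have hlv := List.length_pos_iff.2 hv
    have hlen : n = u.length + v.length := by rw [← hm, huv]; simp
    have h1 : eps u ∈ A N 1 u.length := ihn _ (by omega) _ u rfl rfl hu (by omega)
    have h2 : eps v ∈ A N 1 v.length := ihn _ (by omega) _ v rfl rfl hv (by omega)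
    have h3 : eps u * eps v ∈ A N 1 n := A_mono (by omega) (by omega) (A_mul h1 h2)
    rw [eps_mul, list_sum_split _ m] at h3
    have h4 : (((inf u v).filter (· ≠ m)).map eps).sum ∈ A N 1 n := by
      apply list_sum_mem
      intro x hx
      obtain ⟨s, hs, rfl⟩ := List.mem_map.1 hx
      obtain ⟨hs1, hs2⟩ := List.mem_filter.1 hs
      have hs2' : s ≠ m := by simpa using hs2
      have hsn := ne_nil_of_mem_inf u v hu s hs1
      rcases mem_inf u v s hs1 with h | h
      · have hl := h.length
        have hlt : s < m := lt_of_le_of_ne (hsh s h) hs2'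
        refine ihk _ ?_ s (by omega) rfl hsn hN
        rw [← hk]
        apply Finset.card_lt_card
        refine ⟨fun x hx => ?_, fun hsub => ?_⟩
        · simp only [mem_filter] at hx ⊢
          exact ⟨hx.1, hx.2.trans hlt⟩
        · have : s ∈ (W n).filter (· < m) := mem_filter.2 ⟨(mem_W _ _).2 (by omega), hlt⟩
          have := hsub this
          simp at this
      · exact A_mono le_rfl (by omega) (ihn _ (by omega) _ s rfl rfl hsn (by omega))
    have h5 : ((inf u v).count m : ℚ) • eps m ∈ A N 1 n := by
      have := Submodule.sub_mem _ h3 h4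
      simpa using this
    have h6 : ((inf u v).count m : ℚ) ≠ 0 := by
      have : m ∈ inf u v := huv ▸ app_mem_inf u v
      have := List.count_pos_iff.2 this
      positivity
    exact (Submodule.smul_mem_iff _ h6).1 h5

lemma eps_mem' {N : ℕ} {m : List Bool} (h : m ≠ []) (hN : m.length ≤ N) :
    eps m ∈ A N 1 m.length := eps_mem N _ _ m rfl rfl h hN

/-- the finite set of exponent vectors -/
noncomputable def G (N j n : ℕ) : Finset (Lam N → ℕ) :=
  (Fintype.piFinset fun _ : Lam N => range (N + 1)).filter fun f => j ≤ ∑ l, f l ∧ wt f ≤ n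

open Classical in
lemma A_le_span {N j n : ℕ} (hn : n ≤ N) :
    A N j n ≤ Submodule.span ℚ ((G N j n).image mono : Set (List Bool → ℚ)) := by
  apply Submodule.span_mono
  rintro _ ⟨f, hf, rfl⟩
  simp only [coe_image, Set.mem_image, mem_coe]
  refine ⟨f, ?_, rfl⟩
  simp only [G, mem_filter, Fintype.mem_piFinset, mem_range]
  refine ⟨fun l => ?_, hf⟩
  have h1 : f l * l.1.length ≤ wt f :=
    Finset.single_le_sum (f := fun l : Lam N => f l * l.1.length) (fun _ _ => Nat.zero_le _)
      (mem_univ l)
  have h2 : 0 < l.1.length := List.length_pos_iff.2 (mem_Lam.1 l.2).2.1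
  have h3 := hf.2
  nlinarith

/-- Integral relation vectors. -/
lemma exists_rel {N j n : ℕ} (hn : n ≤ N) (C : List Bool → List Bool → ℤ)
    (hC : ∀ m ∈ W n, (fun w => (C w m : ℚ)) ∈ A N j n) :
    ∃ ρ : ℕ → List Bool → ℤ, ∀ w, ∃ g : ℕ → ℤ, ∀ m ∈ W n,
      C w m = ∑ i ∈ range (G N j n).card, g i * ρ i m := by
  classical
  let col : List Bool → (List Bool → ℤ) := fun m w => C w m
  let L : Submodule ℤ (List Bool → ℤ) := Submodule.span ℤ ((W n).image col : Set _)
  have : Module.Finite ℤ L := Module.Finite.span_of_finite _ (Finset.finite_toSet _)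
  have : Module.Free ℤ L := inferInstance
  let b := Module.finBasis ℤ L
  let φ : (List Bool → ℤ) →ₗ[ℤ] (List Bool → ℚ) :=
    { toFun := fun f w => (f w : ℚ)
      map_add' := fun f g => by funext w; simp
      map_smul' := fun c f => by funext w; simp }
  have hφ : Function.Injective φ := by
    intro f g h
    funext w
    have := congrFun h w
    simpa [φ] using this
  let S := Submodule.span ℚ ((G N j n).image mono : Set (List Bool → ℚ))
  have hLS : ∀ x ∈ L, φ x ∈ S := by
    intro x hx
    induction hx using Submodule.span_induction with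
    | mem x hx =>
      simp only [coe_image, Set.mem_image, mem_coe] at hx
      obtain ⟨m, hm, rfl⟩ := hx
      exact A_le_span hn (hC m hm)
    | zero => simp
    | add x y _ _ hx hy => rw [map_add]; exact S.add_mem hx hy
    | smul c x _ hx => rw [map_smul]; exact S.smul_of_tower_mem c hx
  have hli : LinearIndependent ℤ (fun i => φ (b i).1) := by
    have h1 : LinearIndependent ℤ (fun i => (b i).1) :=
      b.linearIndependent.map' L.subtype (Submodule.ker_subtype L)
    exact h1.map' φ (LinearMap.ker_eq_bot.2 hφ)
  have hli2 : LinearIndependent ℚ (fun i => φ (b i).1) :=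
    (LinearIndependent.iff_fractionRing ℤ ℚ).1 hli
  have hli3 : LinearIndependent ℚ (fun i => (⟨φ (b i).1, hLS _ (b i).2⟩ : S)) := by
    apply LinearIndependent.of_comp S.subtype
    exact hli2
  have : Module.Finite ℚ S := Module.Finite.span_of_finite _ (Finset.finite_toSet _)
  have hcard : Module.finrank ℤ L ≤ (G N j n).card := by
    have h1 := hli3.fintype_card_le_finrank
    rw [Fintype.card_fin] at h1
    exact h1.trans ((finrank_span_finset_le_card _).trans Finset.card_image_le)
  have hmem : ∀ m ∈ W n, col m ∈ L := fun m hm =>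
    Submodule.subset_span (by simp only [coe_image]; exact ⟨m, hm, rfl⟩)
  refine ⟨fun i m => if h : m ∈ W n ∧ i < Module.finrank ℤ L then
    b.repr ⟨col m, hmem m h.1⟩ ⟨i, h.2⟩ else 0, fun w => ⟨fun i =>
      if h : i < Module.finrank ℤ L then (b ⟨i, h⟩).1 w else 0, fun m hm => ?_⟩⟩
  have h1 := b.sum_repr ⟨col m, hmem m hm⟩
  have h2 : C w m = ∑ i, (b i).1 w * b.repr ⟨col m, hmem m hm⟩ i := by
    have := congrArg (fun x : L => x.1 w) h1
    simp only [AddSubmonoidClass.coe_finsetSum, SetLike.val_smul, Finset.sum_apply,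
      Pi.smul_apply, smul_eq_mul] at this
    simp only [mul_comm ((b _).1 w)]
    exact this.symm
  rw [h2, ← Finset.sum_subset (Finset.range_mono hcard)]
  · rw [Finset.sum_range]
    refine Finset.sum_congr rfl fun i _ => ?_
    simp [hm, i.2]
  · intro i _ hi
    simp only [mem_range] at hi
    simp [hi]

end MP77
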